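import Pool.Agent.Lib.DU.GL.Spec

/-!
# Theorem DU, part GL, module Act: the action of the inertia elements on points (author helper28, after DM/GL, DR/GL)
-/

set_option autoImplicit false

open scoped Pointwise

noncomputable section

namespace Pool.Agent.DM.DU.GL

open Pool.Agent.MuZ Pool.Agent.FW Pool.Agent.DN Pool.Agent.DM Pool.Agent.DM.DU
open Pool.Agent.DI (io ofC io_inj exists_io io_ofC ofC_io VP MP UP TP ex)
open Pool.Agent.DT (kap cbr)
open Pool.Agent.DM.GL (GE vP pl pH IsR Un)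
open Pool.Agent.DL (vl Pl Fi Fp Cn Cf dl Gen Dr LD)

variable {n t : ℕ}

/-- Divisors of a natural number in `O`. -/
private theorem act_dvd {f j : ℕ} {h : OO n t} (hj : j ∣ f) (h1 : (f : OO n t) ∣ h - 1) :
    (j : OO n t) ∣ h - 1 :=
  (Nat.cast_dvd_cast hj).trans h1

/-- `h` is not zero. -/
private theorem act_ne [SqN n t] {h : OO n t} (hc : Cop h 3) : h ≠ 0 := by
  rintro rfl
  unfold Cop at hc
  rw [Nm_zero] at hc
  have h1 : IsUnit (((3 : ℕ) : ℤ)) := isCoprime_zero_left.1 hc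
  have h2 := Int.isUnit_iff.1 h1
  omega

/-- Divisors of the modulus. -/
private theorem act_pri {a : Ideal (OO n t)} {N M : ℕ} (h : PrI a N) (hM : M ∣ N) : PrI a M := by
  have h1 : Ideal.span {(N : OO n t)} ≤ Ideal.span {(M : OO n t)} := by
    rw [Ideal.span_singleton_le_span_singleton]
    exact Nat.cast_dvd_cast hM
  unfold PrI at h ⊢
  rw [eq_top_iff] at h ⊢
  exact h.trans (sup_le_sup_left h1 _)

/-- The smoothed function. -/
private theorem act_gC [SqN n t] (m b : Ideal (OO n t)) (hm : m ≠ ⊥) (hb : G30 b)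
    (h : OO n t) (h0 : h ≠ 0) (hf : fr (sp h * b) = toC h * fr b) (z : ℂ) :
    gC m (sp h * b) z = gC m b (toC h * z) := by
  have := aO1 n t
  have hmb : m * b ≠ ⊥ := mul_ne_zero hm hb.ne
  have e1 : KC (sp h * b) z = toC h * KC b (toC h * z) := (((aB7 n t b hb.ne).1 h h0).1 z).2.2
  have e2 : KC (sp h * (m * b)) z = toC h * KC (m * b) (toC h * z) :=
    (((aB7 n t (m * b) hmb).1 h h0).1 z).2.2
  have e3 : m * (sp h * b) = sp h * (m * b) := mul_left_comm _ _ _
  unfold gC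
  rw [e3, e1, e2, hf]
  have hh : toC h ≠ 0 := toC_ne h0
  have e4 : toC h * KC (m * b) (toC h * z) - (NI m : ℂ) * (toC h * KC b (toC h * z)) =
      toC h * (KC (m * b) (toC h * z) - NI m * KC b (toC h * z)) := by ring
  rw [e4, mul_div_mul_left _ _ hh]

theorem tAct : S_Act := by
  intro B7 R1 XO D8 E6 E10 n t _ P hP f N h τ hf hN hc
  have := aO1 n t
  have hfpos : 0 < f := hf.pos
  have hMpos : 0 < f * 3 ^ N := Nat.mul_pos hfpos (pow_pos (by norm_num) N)
  have hM60 : 60 ∣ f * 3 ^ N := by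
    have h1 : 20 * 3 ∣ f * 3 ^ N := mul_dvd_mul hf.dvd (dvd_pow_self 3 (by omega))
    exact h1
  have hM15 : 15 ∣ f * 3 ^ N := (by norm_num : 15 ∣ 60).trans hM60
  have h0 : h ≠ 0 := act_ne hc.cop
  have hGK : τ ∈ GK n t := hc.mem.2
  have d4 : (4 : OO n t) ∣ h - 1 := by
    have := act_dvd (j := 4) ((by norm_num : 4 ∣ 20).trans hf.dvd) hc.one
    exact_mod_cast this
  refine ⟨?_, ?_⟩
  · intro ζ hζ
    have h1 : ζ ^ (f * 3 ^ N) = 1 := by
      rw [mul_comm, pow_mul, hζ, one_pow]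
    have h2 := E6 n t τ (f * 3 ^ N) (sp h) hGK hMpos hM15 hc.psi ζ h1
    have h3 : (NI (sp h) : ℤ) = Nm h := (aO2 n t).2.2.2.1 h
    have h4 : (Nm h).toNat = NI (sp h) := by
      rw [← h3, Int.toNat_natCast]
    rw [h4]
    exact h2
  intro b hb
  have key : ∀ c : Ideal (OO n t), G30 c → fr (sp h * c) = toC h * fr c ∧ cC (sp h * c) = cC c ∧
      ∀ z : ℂ, XC (sp h * c) z = XC c (toC h * z) ∧ WC (sp h * c) z = WC c (toC h * z) :=
    fun c hc' => (B7 n t c hc'.ne (act_pri hc'.cop (by norm_num))).1 h h0 d4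
  have kx : ∀ z : ℂ, xO (sp h * b) z = xO b (toC h * z) := fun z => by
    unfold xO
    rw [((key b hb).2.2 z).1]
  have kv : ∀ z : ℂ, vO (sp h * b) z = vO b (toC h * z) := fun z => by
    unfold vO
    rw [((key b hb).2.2 z).2]
  obtain ⟨-, E10a, E10b⟩ := E10 n t τ (f * 3 ^ N) (sp h) hMpos hM60 hc.psi
  obtain ⟨-, Ec, -, Ez, Er⟩ := E10a b hb
  have hpt : ∀ z : ℂ, ((f * 3 ^ N : ℕ) : ℂ) * z ∈ Lam b →
      τ (xO b z) = xO b (toC h * z) ∧ τ (vO b z) = vO b (toC h * z) := fun z hz =>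
    ⟨((Ez z hz).1).trans (kx z), ((Ez z hz).2).trans (kv z)⟩
  have L2 := aL2 n t
  refine ⟨?_, ?_, hpt, ?_, ?_⟩
  · rw [Ec]
    unfold cO
    rw [(key b hb).2.1]
  · intro c hc'
    rw [Er c hc']
    unfold rO
    rw [(key b hb).1, (key c hc').1, mul_div_mul_left _ _ (toC_ne h0)]
  · intro z hz
    have hz' : ((f * 3 ^ N : ℕ) : ℂ) * z ∈ Lam b := by
      have h1 := (L2.1 b).2.2.2 ((3 ^ N : ℕ) : OO n t) _ hz
      rw [toC_nat] at h1
      have e : ((f * 3 ^ N : ℕ) : ℂ) * z = ((3 ^ N : ℕ) : ℂ) * ((f : ℂ) * z) := by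
        push_cast
        ring
      rw [e]
      exact h1
    obtain ⟨w, hw⟩ := hc.one
    have hl : toC w * ((f : ℂ) * z) ∈ Lam b := (L2.1 b).2.2.2 w _ hz
    have e : toC h * z = z + toC w * ((f : ℂ) * z) := by
      have e1 : h = 1 + (f : OO n t) * w := by rw [← hw]; ring
      rw [e1, toC_add, toC_one, toC_mul, toC_nat]
      ring
    have hp := (XO n t b hb).per z _ hl
    rw [← e] at hp
    exact ⟨(hpt z hz').1.trans hp.1, (hpt z hz').2.trans hp.2⟩
  · intro m hm m30 hmf z hz hzm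
    obtain ⟨g1, g2⟩ := E10b m b hm hb m30 (hmf.mul_right _) z hz
    refine ⟨?_, ?_⟩
    · rw [g1 hzm]
      unfold gO
      rw [act_gC m b hm hb h h0 (key b hb).1 z]
    · rw [g2]
      unfold Theta
      rw [(D8 n t m b hm hb.ne m30).2.2.1 h z h0]

end Pool.Agent.DM.DU.GL
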