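import Pool.Agent.Lib.DU.GL.SpecB
import Pool.Agent.Lib.DN.CV.Bas

/-!
# Theorem DU, part GL, module Chi: the character (helper36)
-/

set_option autoImplicit false

open scoped Pointwise

noncomputable section

namespace Pool.Agent.DM.DU.GL

open Pool.Agent.MuZ Pool.Agent.FW Pool.Agent.DN Pool.Agent.DM Pool.Agent.DM.DU
open Pool.Agent.DI (io ofC io_inj exists_io io_ofC ofC_io VP MP UP TP ex)
open Pool.Agent.DI.GL (Fx StP mem_of_Fx Fx.mul Fx.inv Fx.one)
open Pool.Agent.DT (kap cbr)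
open Pool.Agent.DM.GL (GE vP pl pH IsR Un Sit3)
open Pool.Agent.DL (vl Pl Fi Fp Cn Cf dl Gen Dr LD)

variable {n t : ℕ}

private theorem Chi_pow {P : Ideal ZZ} (hP : P.IsPrime) {a b : Om} (ha : VP P a) (hb : VP P b)
    (h : MP P (a - b)) (j : ℕ) : MP P (a ^ j - b ^ j) := by
  induction j with
  | zero => rw [pow_zero, pow_zero, sub_self]; exact DI.MP.zero
  | succ j ih =>
    rw [pow_succ, pow_succ]
    exact CV_mp_mul hP ha (DI.VP.pow hb j) ih h

theorem tChi : S_Chi := by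
  intro hT0 hRou n t _ P hP f χ hfok hχ
  have hPp : P.IsPrime := hP.1.1
  have hf0 : 0 < f := hfok.pos
  have hF0 : 0 < 3 * f := by omega
  obtain ⟨m, hm, hχm⟩ := hχ.cop
  have hm0 : 0 < m := by
    rcases Nat.eq_zero_or_pos m with h | h
    · rw [h] at hm
      norm_num at hm
    · exact h
  obtain ⟨-, -, -, -, -, -, -, h7s, -⟩ := aO7 n t (3 * f) hF0
  have htop : χ ⊤ = 1 := by
    have h3 := hχm ⊤ top_ne_bot (CV_top _)
    have h5 : χ ⊤ * χ ⊤ = χ ⊤ := by rw [← hχ.mul, Ideal.top_mul]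
    have h6 : χ ⊤ ≠ 0 := by
      intro h
      rw [h, zero_pow hm0.ne'] at h3
      exact zero_ne_one h3
    exact mul_right_cancel₀ h6 (by rw [h5, one_mul])
  have hsp : ∀ (v : OO n t) (j : ℕ), χ (sp (v ^ j)) = χ (sp v) ^ j := by
    intro v j
    induction j with
    | zero => rw [pow_zero, pow_zero, CV_sp_one, htop]
    | succ j ih => rw [pow_succ, pow_succ, ← CV_sp_mul, hχ.mul, ih]
  have hcop2 : ∀ v : OO n t, (f : OO n t) ∣ v - 1 → Cop v 3 → Cop v (3 * f) :=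
    fun v h3 h5 => CV_cop_mul.2 ⟨h5, CV_cop_of_dvd h3⟩
  have hxm : ∀ v : OO n t, Cop v (3 * f) → χ (sp v) ^ m = 1 := fun v h3 =>
    hχm _ (CV_sp_ne (CV_ne_of_cop (by omega) h3)) (CV_pri_sp hF0 h3)
  have hcong : ∀ v v' : OO n t, Cop v (3 * f) → Cop v' (3 * f) →
      ((3 * f : ℕ) : OO n t) ∣ v - v' → χ (sp v) = χ (sp v') := by
    intro v v' h3 h3' h5
    have hv := CV_ne_of_cop (by omega) h3
    have hv' := CV_ne_of_cop (by omega) h3'
    refine hχ.ray _ _ (CV_sp_ne hv) (CV_sp_ne hv') (CV_pri_sp hF0 h3) (CV_pri_sp hF0 h3') ?_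
    exact (h7s v v' hv hv' h3 h3').2 ⟨1, Nm_one, by rw [one_mul]; exact h5⟩
  refine ⟨?_, ?_, ?_⟩
  · -- (1)
    intro b
    by_cases hb : b = ⊥ ∨ ¬ PrI b (3 * f)
    · rw [hχ.zero b hb]
      exact ⟨DI.VP.zero, fun τ _ => map_zero τ⟩
    · push Not at hb
      obtain ⟨h1, -, h2⟩ := hRou P hP (χ b) m hm (hχm b hb.1 hb.2)
      exact ⟨h1.1, h2⟩
  · rintro h ⟨hc, i, hi⟩
    have hcp : Cop (h ^ 3 ^ i) (3 * f) := by
      have hgen : ∀ k : ℕ, Cop (h ^ k) (3 * f) := by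
        intro k
        induction k with
        | zero => rw [pow_zero]; exact cop_one _
        | succ k ih => rw [pow_succ]; exact cop_mul ih hc
      exact hgen _
    have h3 := hcong (h ^ 3 ^ i) 1 hcp (cop_one _) hi
    rw [hsp, CV_sp_one, htop] at h3
    have h5 := hxm h hc
    have h6 := pow_gcd_eq_one.2 ⟨h3, h5⟩
    have h7 : Nat.gcd (3 ^ i) m = 1 := Nat.Coprime.pow_left i hm.symm
    rwa [h7, pow_one] at h6
  · intro k hTy v h3 h5
    obtain ⟨-, -, -, hu, -, hz, hz2⟩ := hT0.2.2.2 n t P hP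
    have h6 : MP P (χ (sp v) - toO v ^ k) := hTy v h3 h5
    have h7 : MP P (toO v - (zs v : Om)) := DL.GE.mp (pl hP) (hz v).2 (by norm_num)
    have hzV : VP P ((zs v : Om)) := DI.VP.int _
    have h8 := Chi_pow hPp (hu v h5).1 hzV h7 k
    have h9 : MP P (χ (sp v) - (zs v : Om) ^ k) := by
      have := DI.MP.add h6 h8
      rwa [sub_add_sub_cancel] at this
    have hzz : (zs v : Om) * (zs v : Om) = 1 := by
      rcases (hz2 v h5).1 with h | h <;> rw [h] <;> norm_num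
    have hzk : (zs v : Om) ^ k * (zs v : Om) ^ k = 1 := by
      rw [← mul_pow, hzz, one_pow]
    have hcv := hxm v (hcop2 v h3 h5)
    have hy : (χ (sp v) * (zs v : Om) ^ k) ^ (2 * m) = 1 := by
      rw [mul_pow, pow_mul', hcv, one_pow, one_mul, pow_mul, sq, hzk, one_pow]
    have hy1 : MP P (χ (sp v) * (zs v : Om) ^ k - 1) := by
      have e : χ (sp v) * (zs v : Om) ^ k - 1 = (χ (sp v) - (zs v : Om) ^ k) * (zs v : Om) ^ k := by
        linear_combination hzk
      rw [e]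
      exact DI.MP.mul_right h9 (DI.VP.pow hzV k)
    have h10 := (hRou P hP _ (2 * m) (Nat.Coprime.mul_left (by norm_num) hm) hy).2.1 hy1
    calc χ (sp v) = χ (sp v) * ((zs v : Om) ^ k * (zs v : Om) ^ k) := by rw [hzk, mul_one]
      _ = (χ (sp v) * (zs v : Om) ^ k) * (zs v : Om) ^ k := by ring
      _ = (zs v : Om) ^ k := by rw [h10, one_mul]

end Pool.Agent.DM.DU.GL
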