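import Pool.Agent.Lib.DU.GL.SpecB
import Pool.Agent.Lib.DN.B.All

/-!
# Theorem DU, part GL: the inertia elements outside of `Gal(Om/K)` (S_Dta)
-/

set_option autoImplicit false

open scoped Pointwise

noncomputable section

namespace Pool.Agent.DM.DU.GL

open Pool.Agent.MuZ Pool.Agent.FW Pool.Agent.DN Pool.Agent.DM Pool.Agent.DM.DU
open Pool.Agent.DI (io ofC io_inj exists_io io_ofC ofC_io VP MP UP TP ex)
open Pool.Agent.DI.GL (Fx StP mem_of_Fx Fx.mul Fx.inv Fx.one)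
open Pool.Agent.DT (kap cbr)
open Pool.Agent.DM.GL (GE vP pl pH IsR Un Sit3)
open Pool.Agent.DL (vl Pl Fi Fp Cn Cf dl Gen Dr LD)

variable {n t : ℕ}

private theorem Dta_top : G30 (⊤ : Ideal (OO n t)) := ⟨top_ne_bot, by unfold PrI; rw [top_sup_eq]⟩

theorem tDta : S_Dta := by
  intro hCn hDer hCj hE11 hD2 hT0a hIn hAct hPi hGen hOdq hTrh n t _ P hP f N z0 d hp τ hτ hτK
  classical
  have hpr : P.IsPrime := hP.1.1
  have hpl : Pl P 3 := pl hP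
  have hf : Fok f := hp.fok
  have hf0 : 0 < f := hf.pos
  have hN : 1 ≤ N := hp.pos
  set M : ℕ := f * 3 ^ N with hMd
  have hM0 : 0 < M := Nat.mul_pos hf0 (pow_pos (by norm_num) N)
  have hM60 : 60 ∣ M := by
    have h1 : 20 * 3 ∣ f * 3 ^ N := mul_dvd_mul hf.dvd (dvd_pow_self 3 (by omega))
    exact h1
  obtain ⟨e1, e2⟩ := hE11.1 n t M hM0 hM60
  obtain ⟨⟨a, ha⟩, -⟩ := e1 τ hτK
  obtain ⟨hG, -, b3, -⟩ := e2 τ a ha
  have hsp1 : sp (1 : OO n t) = ⊤ := Ideal.span_singleton_one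
  have hcT : cjI (⊤ : Ideal (OO n t)) = ⊤ := by
    have h := (aO3 n t).2.2.2.1 (1 : OO n t)
    rwa [cjO_one, hsp1] at h
  obtain ⟨-, b4, -⟩ := b3 ⊤ Dta_top
  rw [hcT, Ideal.mul_top] at b4
  have paf : PrI a f := by
    have h1 := ((aO6 n t).2.1 15 M a).1 ha.cop
    exact ((aO6 n t).2.1 f (3 ^ N) a).1 h1.2 |>.1
  have hMz0 : (M : ℂ) * z0 ∈ Lam (⊤ : Ideal (OO n t)) := by
    have e : (M : ℂ) * z0 = ((3 ^ N : ℕ) : ℂ) * ((f : ℂ) * z0) := by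
      rw [hMd]
      push_cast
      ring
    rw [e]
    exact lam_nat _ hp.z
  have hMd' : (M : ℂ) * d ∈ Lam (⊤ : Ideal (OO n t)) := by
    have e : (M : ℂ) * d = (f : ℂ) * ((3 : ℂ) ^ N * d) := by
      rw [hMd]
      push_cast
      ring
    rw [e]
    exact lam_nat _ hp.dd
  have hMzd : (M : ℂ) * (z0 + d) ∈ Lam (⊤ : Ideal (OO n t)) := by
    rw [mul_add]
    exact lam_add hMz0 hMd'
  obtain ⟨t1, t2⟩ := b4 (z0 + d) hMzd
  obtain ⟨t3, -⟩ := b4 z0 hMz0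
  rw [map_add, hp.cz, hp.cd] at t1 t2
  rw [hp.cz] at t3
  set r : Om := rO (⊤ : Ideal (OO n t)) a with hr
  have hz0a : z0 ∉ Lam a := hp.pri a ha.ne paf
  have g2 := hTrh n t P hP f N z0 d hp.toPt a 1 hG (cop_one 30) (by
    rw [hsp1, Ideal.top_mul]
    exact hz0a)
  have hO1 : toO (1 : OO n t) = 1 := by
    apply io_inj
    rw [io_toO, toC_one, map_one]
  rw [toC_one, one_mul, hO1, one_mul] at g2
  have hfz : (f : ℂ) * z0 ∈ Lam a := lam_anti le_top hp.z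
  have g1 : Cn P (II n t P) (xO a z0) := by
    have h := hOdq n t P hP a hG f N z0 0 hf hfz hz0a (by rw [mul_zero]; exact lam_zero _)
    exact h.2.2.2.2.2.2.2.1
  obtain ⟨S, hS, hGn, hq0, hq1⟩ := gen0 hGen hP hp.toPt
  obtain ⟨p1, -⟩ := hPi n t P hP f N z0 d hp.toPt
  obtain ⟨-, -, -, -, -, -, p16⟩ := p1 (1 : OO n t) (cop_one 3)
  rw [toC_one, one_mul] at p16
  obtain ⟨-, -, -, r4, r5, -⟩ := hDer P 3 2 (II n t P) S _ hGn (N - 1 / 4)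
    (vO (⊤ : Ideal (OO n t)) (z0 + d)) hq0 hq1 p16.1
  have hupr : UP P r := by
    have h := (hD2 n t P hP ⊤ Dta_top).2.2.2.2.2.2 a hG.ne hG.cop
    rwa [Ideal.mul_top] at h
  obtain ⟨-, i2, -, i4⟩ := hIn n t P hP
  have hfir : Fi (II n t P) r := by
    intro σ hσ
    obtain ⟨h, hc⟩ := (i4 f N hf hN).1 σ hσ
    exact ((hAct n t P hP f N h σ hf hN hc).2 ⊤ Dta_top).2.1 a hG
  have hπ : τ (pH z0 d (1 : OO n t)) = xO a (z0 + d) - xO a z0 := by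
    unfold DM.GL.pH
    rw [toC_one, one_mul, map_sub, t1, t3]
  have hDπ : Dn n t P N z0 d (τ (pH z0 d (1 : OO n t))) (r * τ (vO (⊤ : Ideal (OO n t)) (z0 + d))) := by
    have h := (r5 _ _ _ _ g2 (r4 _ g1)).2.1
    rw [sub_zero] at h
    rw [hπ, t2]
    exact h
  obtain ⟨c1, c2⟩ := hCj P 3 2 (II n t P) S _ hGn (N - 1 / 4) (vO (⊤ : Ideal (OO n t)) (z0 + d)) r τ
    hq0 hq1 p16.1 hupr.1 hτ (i2 τ hτ) hDπ
  refine ⟨r, ⟨hupr.1, hfir⟩, ?_, c1, c2⟩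
  obtain ⟨-, -, h3⟩ := hE11.2 n t P hP τ hτ M a hM0 hM60 ha
  obtain ⟨-, s0, s1, -⟩ := hT0a.2.2.2 n t P hP
  rw [← hr] at h3
  by_cases hx0 : r + τ w4 / w4 = 0
  · exact Or.inl hx0
  · right
    have h4 : τ w4 / w4 + r ≠ 0 := by rwa [add_comm]
    have h5 := (DL.vl_nonneg hpl (div_ne_zero h4 s0)).2 h3
    rw [DL.vl_div hpl h4 s0] at h5
    have h6 : DL.vl P 3 (toO (sD n t)) = 1 / 2 := s1
    rw [h6, add_comm (τ w4 / w4) r] at h5
    linarith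

end Pool.Agent.DM.DU.GL
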