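import Pool.Agent.Lib.DU.GL.Spec

/-!
# Theorem DU, part GL: HD, the different of the group `H_N` (edit of `DR/GL/HD.lean` of helper71)
-/

set_option autoImplicit false

open scoped Pointwise

noncomputable section

namespace Pool.Agent.DM.DU.GL

open Pool.Agent.MuZ Pool.Agent.FW Pool.Agent.DN Pool.Agent.DM Pool.Agent.DM.DU
open Pool.Agent.DI (io ofC io_inj exists_io io_ofC ofC_io VP MP UP TP ex)
open Pool.Agent.DT (kap cbr)
open Pool.Agent.DM.GL (GE vP pl pH IsR Un)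
open Pool.Agent.DL (vl Pl Fi Fp Cn Cf dl Gen Dr LD)

variable {n t : ℕ}

/-- Levels and valuations of the differences. -/
private theorem lev_ex (rep : C_Rep) (pi : C_Pi) [Ram3 n t] {P : Ideal ZZ} (hP : Ab3 P) {f N : ℕ}
    {z0 d : ℂ} (hpt : Pt n t f N z0 d) {h h' : OO n t} (hc : Cop h 3) (hc' : Cop h' 3)
    (hne : ¬ ((3 ^ N : ℕ) : OO n t) ∣ h - h') :
    ∃ j : ℕ, j < 2 * N ∧ h - h' ∈ pp n t ^ j ∧ h - h' ∉ pp n t ^ (j + 1) ∧ pH z0 d h ≠ pH z0 d h' ∧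
      vP P (pH z0 d h - pH z0 d h') = 1 / (4 * 3 ^ (2 * N - 1 - j)) := by
  classical
  have hN := hpt.pos
  have h3 := (rep n t N hN).2.2.1 (h - h') N
  have hex : ∃ j : ℕ, h - h' ∉ pp n t ^ (j + 1) := by
    refine ⟨2 * N - 1, ?_⟩
    rw [show 2 * N - 1 + 1 = 2 * N by omega, h3]
    exact hne
  have hlt : Nat.find hex ≤ 2 * N - 1 := by
    refine Nat.find_min' hex ?_
    rw [show 2 * N - 1 + 1 = 2 * N by omega, h3]
    exact hne
  have hmem : h - h' ∈ pp n t ^ (Nat.find hex) := by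
    rcases Nat.eq_zero_or_pos (Nat.find hex) with h0 | h0
    · rw [h0, pow_zero, Ideal.one_eq_top]
      exact Submodule.mem_top
    · have h1 := Nat.find_min hex (m := Nat.find hex - 1) (by omega)
      rw [not_not, show Nat.find hex - 1 + 1 = Nat.find hex by omega] at h1
      exact h1
  obtain ⟨h4, h5⟩ := (pi n t P hP f N z0 d hpt).2.2.2.1 h h' (Nat.find hex) hc hc' (by omega) hmem
    (Nat.find_spec hex)
  exact ⟨Nat.find hex, by omega, hmem, Nat.find_spec hex, h4, h5⟩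

open Classical in
/-- The valuation of the product of the differences. -/
private theorem vl_dl (rep : C_Rep) (pi : C_Pi) [Ram3 n t] {P : Ideal ZZ} (hP : Ab3 P) {f N : ℕ}
    {z0 d : ℂ} (hpt : Pt n t f N z0 d) {C : OO n t → Prop} (hC : ∀ h, C h → Cop h 3)
    {T : Finset (OO n t)} (hT : IsR N C T) {S : Finset Om} (hS : Orb z0 d C S) :
    vP P (dl S (pH z0 d (1 : OO n t))) =
      ∑ h ∈ T.filter (fun h => ¬ ((3 ^ N : ℕ) : OO n t) ∣ h - 1),
        vP P (pH z0 d (1 : OO n t) - pH z0 d h) := by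
  have hp := hP.1.1
  have h5 := (pi n t P hP f N z0 d hpt).2.2.1
  have e : dl S (pH z0 d (1 : OO n t)) =
      ∏ h ∈ T.filter (fun h => ¬ ((3 ^ N : ℕ) : OO n t) ∣ h - 1),
        (pH z0 d (1 : OO n t) - pH z0 d h) := by
    unfold dl
    symm
    refine Finset.prod_bij (fun h _ => pH z0 d h) ?_ ?_ ?_ ?_
    · intro h hh
      rw [Finset.mem_filter] at hh
      rw [Finset.mem_erase]
      obtain ⟨j, -, -, -, h3, -⟩ := lev_ex rep pi hP hpt (hC h (hT.mem h hh.1)) (cop_one 3) hh.2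
      exact ⟨h3, (hS _).2 ⟨h, hT.mem h hh.1, rfl⟩⟩
    · intro h hh h' hh' heq
      rw [Finset.mem_filter] at hh hh'
      by_contra hne
      have hnd : ¬ ((3 ^ N : ℕ) : OO n t) ∣ h - h' := fun h1 => hne (hT.uni h hh.1 h' hh'.1 h1)
      obtain ⟨j, -, -, -, h3, -⟩ := lev_ex rep pi hP hpt (hC h (hT.mem h hh.1))
        (hC h' (hT.mem h' hh'.1)) hnd
      exact h3 heq
    · intro r hr
      rw [Finset.mem_erase] at hr
      obtain ⟨u, hu, hur⟩ := (hS r).1 hr.2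
      obtain ⟨h, hh, h1⟩ := hT.ex u hu
      have e1 : pH z0 d h = r := by rw [← hur, h5 u h h1]
      refine ⟨h, Finset.mem_filter.2 ⟨hh, fun h3 => hr.1 ?_⟩, e1⟩
      rw [← e1]
      exact h5 h 1 h3
    · intro h hh
      rfl
  rw [e]
  refine DL.vl_prod (pl hP) _ _ ?_
  intro h hh
  rw [Finset.mem_filter] at hh
  obtain ⟨j, -, -, -, h3, -⟩ := lev_ex rep pi hP hpt (hC h (hT.mem h hh.1)) (cop_one 3) hh.2
  exact sub_ne_zero.2 h3.symm

/-- The bounds for one term. -/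
private theorem w_bd (rep : C_Rep) (pi : C_Pi) [Ram3 n t] {P : Ideal ZZ} (hP : Ab3 P) {f N : ℕ}
    {z0 d : ℂ} (hpt : Pt n t f N z0 d) {h : OO n t} (hc : Cop h 3)
    (hne : ¬ ((3 ^ N : ℕ) : OO n t) ∣ h - 1) :
    (∃ k : ℕ, k < N ∧ ((3 ^ k : ℕ) : OO n t) ∣ h - 1 ∧
      vP P (pH z0 d (1 : OO n t) - pH z0 d h) ≤ 3 ^ (2 * k + 1) / (4 * 3 ^ (2 * N - 1))) ∧
    (¬ ((27 : ℕ) : OO n t) ∣ h - 1 →
      vP P (pH z0 d (1 : OO n t) - pH z0 d h) ≤ 3 ^ 5 / (4 * 3 ^ (2 * N - 1))) := by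
  obtain ⟨j, hj, hm, -, -, hv⟩ := lev_ex rep pi hP hpt (cop_one 3) hc
    (fun h1 => hne (by rw [dvd_sub_comm]; exact h1))
  have h3 := (rep n t N hpt.pos).2.2.1
  have hv2 : vP P (pH z0 d (1 : OO n t) - pH z0 d h) = 3 ^ j / (4 * 3 ^ (2 * N - 1)) := by
    rw [hv, ← pow_sub_mul_pow (3 : ℚ) (show j ≤ 2 * N - 1 by omega)]
    field_simp
  have hpos : (0 : ℚ) ≤ 4 * 3 ^ (2 * N - 1) := by positivity
  have hle : ∀ i : ℕ, 2 * i ≤ j → ((3 ^ i : ℕ) : OO n t) ∣ h - 1 := by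
    intro i hi
    rw [dvd_sub_comm]
    exact (h3 (1 - h) i).1 (Ideal.pow_le_pow_right hi hm)
  refine ⟨⟨j / 2, by omega, hle _ (by omega), ?_⟩, ?_⟩
  · rw [hv2]
    exact div_le_div_of_nonneg_right (pow_le_pow_right₀ (by norm_num) (by omega)) hpos
  · intro h10
    have hj2 : j ≤ 5 := by
      by_contra h4
      exact h10 (hle 3 (by omega))
    rw [hv2]
    exact div_le_div_of_nonneg_right (pow_le_pow_right₀ (by norm_num) hj2) hpos

/-- The integer `1 + 3^i f a`. -/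
private def cc (i f a : ℕ) : ℤ := 1 + 3 ^ i * f * a

/-- Injectivity. -/
private theorem inj_key {f N i : ℕ} (hf : f.Coprime 3) (hi : 1 ≤ i) (hiN : i ≤ N) {h h' : OO n t}
    (hh : Hm f N h) (hh' : Hm f N h') {a b : ℕ} (ha : a < 3 ^ (N - i)) (hb : b < 3 ^ (N - i))
    (hd : ((3 ^ N : ℕ) : OO n t) ∣ h * ((cc i f a : ℤ) : OO n t) - h' * ((cc i f b : ℤ) : OO n t)) :
    a = b ∧ ((3 ^ N : ℕ) : OO n t) ∣ h - h' := by
  have h1 := Nm_congr hd
  rw [Nm_mul, Nm_mul, Nm_int, Nm_int] at h1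
  push_cast at h1
  obtain ⟨j, rfl⟩ : ∃ j, i = j + 1 := ⟨i - 1, by omega⟩
  -- the norms agree
  have hsgn : (3 : ℤ) ^ N ∣ (cc (j + 1) f a) ^ 2 - (cc (j + 1) f b) ^ 2 := by
    have e : (cc (j + 1) f a) ^ 2 - (cc (j + 1) f b) ^ 2 =
        (Nm h * (cc (j + 1) f a) ^ 2 - Nm h' * (cc (j + 1) f b) ^ 2) -
          (Nm h - 1) * (cc (j + 1) f a) ^ 2 + (Nm h' - 1) * (cc (j + 1) f b) ^ 2 := by ring
    rw [e]
    exact dvd_add (dvd_sub h1 (dvd_mul_of_dvd_left hh.2.2 _)) (dvd_mul_of_dvd_left hh'.2.2 _)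
  have hf3 : IsCoprime (3 : ℤ) (f : ℤ) := by
    have : IsCoprime (((3 : ℕ) : ℤ)) ((f : ℕ) : ℤ) := Nat.isCoprime_iff_coprime.2 hf.symm
    exact_mod_cast this
  have hab : a = b := by
    obtain ⟨M, rfl⟩ : ∃ M, N = M + (j + 1) := ⟨N - (j + 1), by omega⟩
    have eM : M + (j + 1) - (j + 1) = M := by omega
    rw [eM] at ha hb
    have e : (cc (j + 1) f a) ^ 2 - (cc (j + 1) f b) ^ 2 =
        3 ^ (j + 1) * ((f * (2 + 3 * (3 ^ j * f * (a + b)))) * ((a : ℤ) - b)) := by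
      unfold cc
      rw [pow_succ]
      ring
    rw [e, show (3 : ℤ) ^ (M + (j + 1)) = 3 ^ (j + 1) * 3 ^ M by rw [pow_add]; ring] at hsgn
    have h6 : (3 : ℤ) ^ M ∣ (f * (2 + 3 * (3 ^ j * f * (a + b)))) * ((a : ℤ) - b) :=
      (mul_dvd_mul_iff_left (by positivity)).1 hsgn
    have hcop : IsCoprime ((3 : ℤ) ^ M) ((f : ℤ) * (2 + 3 * (3 ^ j * f * (a + b)))) := by
      refine IsCoprime.pow_left (IsCoprime.mul_right hf3 ?_)
      exact ⟨1 + 3 ^ j * f * (a + b), -1, by ring⟩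
    have h7 := hcop.dvd_of_dvd_mul_left h6
    have h8 := Int.eq_zero_of_abs_lt_dvd h7 (by
      have ha' : (a : ℤ) < 3 ^ M := by exact_mod_cast ha
      have hb' : (b : ℤ) < 3 ^ M := by exact_mod_cast hb
      rw [abs_lt]
      constructor <;> omega)
    omega
  refine ⟨hab, ?_⟩
  subst hab
  rw [← sub_mul, nat_dvd_iff, re_mul, im_mul, re_int, im_int, mul_zero, mul_zero, mul_zero, sub_zero,
    zero_add, add_zero] at hd
  have hcop : IsCoprime (((3 ^ N : ℕ) : ℤ)) (cc (j + 1) f a) := by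
    push_cast
    refine IsCoprime.pow_left ?_
    exact ⟨-(3 ^ j * f * a), 1, by unfold cc; rw [pow_succ]; ring⟩
  rw [nat_dvd_iff]
  exact ⟨hcop.dvd_of_dvd_mul_right hd.1, hcop.dvd_of_dvd_mul_right hd.2⟩

private theorem cc_dvd (i f a j : ℕ) (hj : (j : ℤ) ∣ 3 ^ i * f * a) :
    ((j : ℕ) : OO n t) ∣ ((cc i f a : ℤ) : OO n t) - 1 := by
  rw [nat_dvd_iff, QuadraticAlgebra.re_sub, QuadraticAlgebra.im_sub, re_int, im_int, re_one,
    im_one]
  refine ⟨?_, by simp⟩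
  unfold cc
  rw [add_sub_cancel_left]
  exact hj

/-- Counting. -/
private theorem cnt_key {f N i : ℕ} (hf : f.Coprime 3) (hi : 1 ≤ i) (hiN : i ≤ N)
    {T V U W : Finset (OO n t)} (hT : IsR N (Hm f N) T) (hU : IsR N (Un f) U) (hV : V ⊆ T)
    (hW : ∀ h ∈ V, ∀ a : ℕ, ∀ u ∈ U,
      ((3 ^ N : ℕ) : OO n t) ∣ h * ((cc i f a : ℤ) : OO n t) - u → u ∈ W) :
    V.card * 3 ^ (N - i) ≤ W.card := by
  classical
  have hex : ∀ p : OO n t × ℕ, ∃ u : OO n t, p.1 ∈ V → u ∈ U ∧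
      ((3 ^ N : ℕ) : OO n t) ∣ p.1 * ((cc i f p.2 : ℤ) : OO n t) - u := by
    rintro ⟨h, a⟩
    by_cases hh : h ∈ V
    · obtain ⟨h1, h2, -⟩ := hT.mem h (hV hh)
      have hU1 : Un f (h * ((cc i f a : ℤ) : OO n t)) := by
        refine ⟨?_, cop_mul h2 ?_⟩
        · have e : h * ((cc i f a : ℤ) : OO n t) - 1 =
              (h - 1) * ((cc i f a : ℤ) : OO n t) + (((cc i f a : ℤ) : OO n t) - 1) := by ring
          rw [e]
          exact dvd_add (dvd_mul_of_dvd_left h1 _) (cc_dvd i f a f ⟨3 ^ i * a, by ring⟩)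
        · refine cop_congr ?_ (cop_one 3)
          have h4 := cc_dvd (n := n) (t := t) i f a 3 ⟨3 ^ (i - 1) * f * a, by
            obtain ⟨j, rfl⟩ : ∃ j, i = j + 1 := ⟨i - 1, by omega⟩
            rw [Nat.add_sub_cancel, pow_succ]
            push_cast
            ring⟩
          rw [dvd_sub_comm]
          exact h4
      obtain ⟨u, hu, h5⟩ := hU.ex _ hU1
      exact ⟨u, fun _ => ⟨hu, h5⟩⟩
    · exact ⟨0, fun h1 => absurd h1 hh⟩
  choose g hg using hex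
  rw [← Finset.card_range (3 ^ (N - i)), ← Finset.card_product]
  refine Finset.card_le_card_of_injOn g ?_ ?_
  · rintro ⟨h, a⟩ hp
    rw [Finset.mem_coe, Finset.mem_product] at hp
    obtain ⟨h1, h2⟩ := hg (h, a) hp.1
    exact Finset.mem_coe.2 (hW h hp.1 a _ h1 h2)
  · rintro ⟨h, a⟩ hp ⟨h', b⟩ hp' heq
    rw [Finset.mem_coe, Finset.mem_product, Finset.mem_range] at hp hp'
    have h1 := (hg (h, a) hp.1).2
    have h2 := (hg (h', b) hp'.1).2
    rw [← heq] at h2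
    have h3 := dvd_sub h1 h2
    rw [sub_sub_sub_cancel_right] at h3
    obtain ⟨h4, h5⟩ := inj_key hf hi hiN (hT.mem h (hV hp.1)) (hT.mem h' (hV hp'.1)) hp.2 hp'.2 h3
    have h6 := hT.uni h (hV hp.1) h' (hV hp'.1) h5
    exact Prod.ext h6 h4

private theorem geom (M : ℕ) : ∑ k ∈ Finset.range M, (3 : ℚ) ^ k = (3 ^ M - 1) / 2 := by
  induction M with
  | zero => simp
  | succ M ih => rw [Finset.sum_range_succ, ih, pow_succ]; ring

private theorem numer {N : ℕ} (hN : 4 ≤ N) (F : ℕ → ℚ) (h0 : F 0 ≤ 2 * 3 ^ (N + 1))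
    (h2 : ∀ k, 1 ≤ k → k < N → F k ≤ 3 ^ (N + 1) * 3 ^ k) :
    ∑ k ∈ Finset.range N, F k ≤ 2 * (4 * 3 ^ (2 * N - 1)) := by
  obtain ⟨M, rfl⟩ : ∃ M, N = M + 1 := ⟨N - 1, by omega⟩
  rw [Finset.sum_range_succ']
  have h3 : ∑ k ∈ Finset.range M, F (k + 1) ≤
      ∑ k ∈ Finset.range M, (3 : ℚ) ^ (M + 3) * 3 ^ k := by
    refine Finset.sum_le_sum fun k hk => ?_
    have h4 := h2 (k + 1) (by omega) (by have := Finset.mem_range.1 hk; omega)
    refine h4.trans (le_of_eq ?_)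
    ring
  rw [← Finset.mul_sum, geom] at h3
  have e1 : (3 : ℚ) ^ (2 * (M + 1) - 1) = 3 * (3 ^ M * 3 ^ M) := by
    rw [show 2 * (M + 1) - 1 = 1 + (M + M) by omega, pow_add, pow_add, pow_one]
  have e2 : (3 : ℚ) ^ (M + 1 + 1) = 9 * 3 ^ M := by ring
  have e4 : (3 : ℚ) ^ (M + 3) = 27 * 3 ^ M := by ring
  rw [e2] at h0
  rw [e4] at h3
  rw [e1]
  have hX : (3 : ℚ) ≤ 3 ^ M := by
    calc (3 : ℚ) = 3 ^ 1 := by norm_num
      _ ≤ 3 ^ M := pow_le_pow_right₀ (by norm_num) (by omega)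
  generalize (3 : ℚ) ^ M = X at *
  nlinarith

/-- The comparison of two sums. -/
private theorem cmp {ι : Type} (X Y : Finset ι) (w : ι → ℚ) (B c e : ℚ) (hY : Y ⊆ X)
    (hw : ∀ h ∈ X, h ∉ Y → w h ≤ c) (hc : 0 ≤ c) (hX : (X.card : ℚ) ≤ B) (hBe : B * c ≤ e) :
    ∑ h ∈ X, w h ≤ ∑ h ∈ Y, w h + e := by
  classical
  rw [← Finset.sum_sdiff hY]
  have h1 : ∑ h ∈ X \ Y, w h ≤ ∑ h ∈ X \ Y, c :=
    Finset.sum_le_sum fun h hh => hw h (Finset.mem_sdiff.1 hh).1 (Finset.mem_sdiff.1 hh).2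
  rw [Finset.sum_const, nsmul_eq_mul] at h1
  have h2 : (((X \ Y).card : ℕ) : ℚ) ≤ B := by
    refine le_trans ?_ hX
    exact_mod_cast Finset.card_le_card Finset.sdiff_subset
  have h3 := mul_le_mul_of_nonneg_right h2 hc
  linarith

theorem tHD : S_HD := by
  classical
  intro o4 rep pi n t _ P hP f N z0 d hpt hN SM SH SH2 hSM hSH hSH2
  have hN1 := hpt.pos
  have hf3 : f.Coprime 3 := hpt.fok.cop
  have hf0 : 0 < f := hpt.fok.pos
  obtain ⟨hr1, hr2, hr3, hr4, hr5⟩ := rep n t N hN1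
  obtain ⟨T', hT'⟩ := hr1 (Hm f N)
  obtain ⟨U, hU⟩ := hr1 (Un f)
  obtain ⟨-, hr6⟩ := hr5 f hf0 hf3
  obtain ⟨hUc, hUf⟩ := hr6 U hU
  have hpp : ∀ v : OO n t, Cop v 3 ↔ v ∉ pp n t := (o4 n t).2.2.2.2.2.2.2.2.1
  have hcop1 : ∀ h : OO n t, h - 1 ∈ pp n t → Cop h 3 := by
    intro h hh
    rw [hpp]
    intro h2
    have h3 := sub_mem h2 hh
    rw [sub_sub_cancel] at h3
    exact (hpp 1).1 (cop_one 3) h3
  have h3N : ((3 ^ N : ℕ) : OO n t) ∈ pp n t :=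
    Ideal.pow_le_self (show 2 * N ≠ 0 by omega) ((hr3 _ N).2 dvd_rfl)
  have hmn : ∀ h : OO n t, Hn f N h ↔ Hm f N h ∧ h - 1 ∈ pp n t := by
    intro h
    constructor
    · rintro ⟨h1, h2, h3⟩
      exact ⟨⟨h1, hcop1 h h2, h3⟩, h2⟩
    · rintro ⟨⟨h1, -, h3⟩, h2⟩
      exact ⟨h1, h2, h3⟩
  -- the system for `Hn`
  set T := T'.filter (fun h => h - 1 ∈ pp n t) with hTdef
  have hT : IsR N (Hn f N) T := by
    refine ⟨?_, ?_, ?_⟩
    · intro h hh
      rw [hTdef, Finset.mem_filter] at hh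
      exact (hmn h).2 ⟨hT'.mem h hh.1, hh.2⟩
    · intro v hv
      obtain ⟨h1, h2⟩ := (hmn v).1 hv
      obtain ⟨w, hw, h3⟩ := hT'.ex v h1
      refine ⟨w, ?_, h3⟩
      rw [hTdef, Finset.mem_filter]
      refine ⟨hw, ?_⟩
      obtain ⟨c, hc⟩ := h3
      have h4 : v - w ∈ pp n t := by
        rw [hc]
        exact Ideal.mul_mem_right _ _ h3N
      have h5 := sub_mem h2 h4
      rwa [sub_sub_sub_cancel_left] at h5
    · intro a ha b hb h
      rw [hTdef, Finset.mem_filter] at ha hb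
      exact hT'.uni a ha.1 b hb.1 h
  -- the counts
  have hTc : T'.card ≤ 2 * 3 ^ N := by
    have h1 := cnt_key (i := 1) hf3 le_rfl (by omega) hT' hU (Finset.Subset.refl T')
      (W := U) (fun _ _ _ u hu _ => hu)
    rw [hUc] at h1
    have e : 2 * 3 ^ (2 * N - 1) = (2 * 3 ^ N) * 3 ^ (N - 1) := by
      rw [mul_assoc, ← pow_add]
      congr 2
      omega
    rw [e] at h1
    exact Nat.le_of_mul_le_mul_right h1 (by positivity)
  have hTn : ∀ i : ℕ, 1 ≤ i → i < N →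
      (T'.filter (fun h => ((3 ^ i : ℕ) : OO n t) ∣ h - 1)).card ≤ 3 ^ (N - i) := by
    intro i hi hiN
    obtain ⟨u0, hu0, hu1⟩ := hU.ex 1 ⟨by rw [sub_self]; exact dvd_zero _, cop_one 3⟩
    have hdv : ((3 ^ i : ℕ) : OO n t) ∣ ((3 ^ N : ℕ) : OO n t) := by
      obtain ⟨s, hs⟩ := pow_dvd_pow 3 hiN.le
      exact ⟨(s : OO n t), by rw [hs]; push_cast; ring⟩
    have h1 := cnt_key (i := i) hf3 hi (by omega) hT' hU (Finset.filter_subset _ T')
      (V := T'.filter (fun h => ((3 ^ i : ℕ) : OO n t) ∣ h - 1))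
      (W := U.filter (fun u => u - u0 ∈ pp n t ^ (2 * i))) (by
        intro h hh a u hu h2
        rw [Finset.mem_filter] at hh
        rw [Finset.mem_filter]
        refine ⟨hu, (hr3 _ _).2 ?_⟩
        have h3 : ((3 ^ i : ℕ) : OO n t) ∣ ((cc i f a : ℤ) : OO n t) - 1 :=
          cc_dvd i f a (3 ^ i) ⟨f * a, by push_cast; ring⟩
        have e : u - u0 = (h - 1) * ((cc i f a : ℤ) : OO n t) + (((cc i f a : ℤ) : OO n t) - 1) -
            (h * ((cc i f a : ℤ) : OO n t) - u) + (1 - u0) := by ring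
        rw [e]
        exact dvd_add (dvd_sub (dvd_add (dvd_mul_of_dvd_left hh.2 _) h3) (dvd_trans hdv h2))
          (dvd_trans hdv hu1))
    rw [hUf u0 hu0 (2 * i) (by omega) (by omega)] at h1
    have e : 3 ^ (2 * N - 2 * i) = 3 ^ (N - i) * 3 ^ (N - i) := by
      rw [← pow_add]
      congr 1
      omega
    rw [e] at h1
    exact Nat.le_of_mul_le_mul_right h1 (by positivity)
  have hCop : ∀ h : OO n t, Hn f N h → Cop h 3 := fun h hh => hcop1 h hh.2.1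
  have hCop' : ∀ h : OO n t, Hm f N h → Cop h 3 := fun h hh => hh.2.1
  have hCop2 : ∀ h : OO n t, Hs f N h → Cop h 3 := fun h hh => hcop1 h hh.1.2.1
  have hpos : (0 : ℚ) < 4 * 3 ^ (2 * N - 1) := by positivity
  have hTT : T ⊆ T' := Finset.filter_subset _ T'
  have hD := vl_dl rep pi hP hpt hCop hT hSH
  have hDM := vl_dl rep pi hP hpt hCop' hT' hSM
  have e3N : (3 : ℚ) ^ (2 * N - 1) = 3 ^ N * 3 ^ N / 3 := by
    rw [← pow_add, eq_div_iff (by norm_num), ← pow_succ]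
    congr 1
    omega
  have hcst : ∀ c : ℚ, (2 * 3 ^ N) * (c / (4 * 3 ^ (2 * N - 1))) = 3 / 2 * c / 3 ^ N := by
    intro c
    rw [e3N]
    have : (3 : ℚ) ^ N ≠ 0 := by positivity
    field_simp
    ring
  have hcard : ∀ X : Finset (OO n t), X ⊆ T' → (X.card : ℚ) ≤ 2 * 3 ^ N := by
    intro X hX
    exact_mod_cast (Finset.card_le_card hX).trans hTc
  refine ⟨?_, ?_, ?_⟩
  · rw [hD]
    have h1 : ∀ h ∈ T.filter (fun h => ¬ ((3 ^ N : ℕ) : OO n t) ∣ h - 1),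
        vP P (pH z0 d (1 : OO n t) - pH z0 d h) ≤
          ∑ k ∈ Finset.range N, if ((3 ^ k : ℕ) : OO n t) ∣ h - 1 then
            (3 : ℚ) ^ (2 * k + 1) / (4 * 3 ^ (2 * N - 1)) else 0 := by
      intro h hh
      rw [Finset.mem_filter] at hh
      obtain ⟨⟨k, hk, h2, h3⟩, -⟩ := w_bd rep pi hP hpt (hCop h (hT.mem h hh.1)) hh.2
      refine h3.trans ?_
      have h4 := Finset.single_le_sum (f := fun k => if ((3 ^ k : ℕ) : OO n t) ∣ h - 1 then
            (3 : ℚ) ^ (2 * k + 1) / (4 * 3 ^ (2 * N - 1)) else 0) (s := Finset.range N) (by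
          intro k _
          change (0 : ℚ) ≤ if ((3 ^ k : ℕ) : OO n t) ∣ h - 1 then
            (3 : ℚ) ^ (2 * k + 1) / (4 * 3 ^ (2 * N - 1)) else 0
          split_ifs
          · positivity
          · exact le_rfl) (Finset.mem_range.2 hk)
      refine le_trans (le_of_eq ?_) h4
      change _ = if ((3 ^ k : ℕ) : OO n t) ∣ h - 1 then
        (3 : ℚ) ^ (2 * k + 1) / (4 * 3 ^ (2 * N - 1)) else 0
      rw [if_pos h2]
    refine (Finset.sum_le_sum h1).trans ?_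
    rw [Finset.sum_comm]
    have h2 : ∀ k ∈ Finset.range N, (∑ h ∈ T.filter (fun h => ¬ ((3 ^ N : ℕ) : OO n t) ∣ h - 1),
        if ((3 ^ k : ℕ) : OO n t) ∣ h - 1 then (3 : ℚ) ^ (2 * k + 1) / (4 * 3 ^ (2 * N - 1)) else 0) ≤
        (((T'.filter (fun h => ((3 ^ k : ℕ) : OO n t) ∣ h - 1)).card : ℚ) * 3 ^ (2 * k + 1)) /
          (4 * 3 ^ (2 * N - 1)) := by
      intro k _
      rw [← Finset.sum_filter, Finset.sum_const, nsmul_eq_mul, mul_div_assoc]
      refine mul_le_mul_of_nonneg_right ?_ (by positivity)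
      have h3 : (T.filter (fun h => ¬ ((3 ^ N : ℕ) : OO n t) ∣ h - 1)).filter
          (fun h => ((3 ^ k : ℕ) : OO n t) ∣ h - 1) ⊆
          T'.filter (fun h => ((3 ^ k : ℕ) : OO n t) ∣ h - 1) :=
        Finset.filter_subset_filter _ ((Finset.filter_subset _ T).trans hTT)
      exact_mod_cast Finset.card_le_card h3
    refine (Finset.sum_le_sum h2).trans ?_
    rw [← Finset.sum_div, div_le_iff₀ hpos]
    refine numer hN _ ?_ ?_
    · have h3 := hcard _ (Finset.filter_subset (fun h => ((3 ^ 0 : ℕ) : OO n t) ∣ h - 1) T')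
      calc ((T'.filter (fun h => ((3 ^ 0 : ℕ) : OO n t) ∣ h - 1)).card : ℚ) * 3 ^ (2 * 0 + 1)
          ≤ (2 * 3 ^ N) * 3 ^ (2 * 0 + 1) := mul_le_mul_of_nonneg_right h3 (by positivity)
        _ = 2 * 3 ^ (N + 1) := by ring
    · intro k hk1 hk2
      have h3 : ((T'.filter (fun h => ((3 ^ k : ℕ) : OO n t) ∣ h - 1)).card : ℚ) ≤
          3 ^ (N - k) := by
        exact_mod_cast hTn k hk1 hk2
      calc ((T'.filter (fun h => ((3 ^ k : ℕ) : OO n t) ∣ h - 1)).card : ℚ) * 3 ^ (2 * k + 1)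
          ≤ 3 ^ (N - k) * 3 ^ (2 * k + 1) := mul_le_mul_of_nonneg_right h3 (by positivity)
        _ = 3 ^ (N + 1) * 3 ^ k := by
          rw [← pow_add, ← pow_add]
          congr 1
          omega
  · rw [hD, hDM]
    refine cmp _ _ _ (2 * 3 ^ N) (3 ^ 5 / (4 * 3 ^ (2 * N - 1))) _ ?_ ?_ (by positivity)
      (hcard _ (Finset.filter_subset _ _)) ?_
    · exact Finset.filter_subset_filter _ hTT
    · intro h hh hh2
      rw [Finset.mem_filter] at hh
      refine (w_bd rep pi hP hpt (hCop' h (hT'.mem h hh.1)) hh.2).2 ?_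
      intro h27
      refine hh2 ?_
      rw [Finset.mem_filter, hTdef, Finset.mem_filter]
      refine ⟨⟨hh.1, ?_⟩, hh.2⟩
      have h9 : ((3 ^ 3 : ℕ) : OO n t) ∣ h - 1 := h27
      exact Ideal.pow_le_self (show 2 * 3 ≠ 0 by norm_num) ((hr3 _ 3).2 h9)
    · rw [hcst]
      refine div_le_div_of_nonneg_right (by norm_num) (by positivity)
  · -- the subgroup
    have hT2 : IsR N (Hs f N) (T.filter (fun h => ((27 : ℕ) : OO n t) ∣ h - 1)) := by
      refine ⟨?_, ?_, ?_⟩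
      · intro h hh
        rw [Finset.mem_filter] at hh
        exact ⟨hT.mem h hh.1, by exact_mod_cast hh.2⟩
      · intro v hv
        obtain ⟨h, hh, h1⟩ := hT.ex v hv.1
        refine ⟨h, Finset.mem_filter.2 ⟨hh, ?_⟩, h1⟩
        have hdv : ((27 : ℕ) : OO n t) ∣ ((3 ^ N : ℕ) : OO n t) := by
          obtain ⟨s, hs⟩ := pow_dvd_pow 3 (show 3 ≤ N by omega)
          exact ⟨(s : OO n t), by rw [hs]; push_cast; ring⟩
        have e : h - 1 = (v - 1) - (v - h) := by ring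
        rw [e]
        refine dvd_sub ?_ (dvd_trans hdv h1)
        exact_mod_cast hv.2
      · intro h hh h' hh' h1
        rw [Finset.mem_filter] at hh hh'
        exact hT.uni h hh.1 h' hh'.1 h1
    have hD2 := vl_dl rep pi hP hpt hCop2 hT2 hSH2
    rw [hD, hD2]
    refine cmp _ _ _ (2 * 3 ^ N) (3 ^ 5 / (4 * 3 ^ (2 * N - 1))) _ ?_ ?_ (by positivity)
      (hcard _ ((Finset.filter_subset _ _).trans hTT)) ?_
    · exact Finset.filter_subset_filter _ (Finset.filter_subset _ T)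
    · intro h hh hh2
      rw [Finset.mem_filter] at hh
      refine (w_bd rep pi hP hpt (hCop h (hT.mem h hh.1)) hh.2).2 ?_
      intro h27
      refine hh2 ?_
      rw [Finset.mem_filter, Finset.mem_filter]
      exact ⟨⟨hh.1, h27⟩, hh.2⟩
    · rw [hcst]
      refine div_le_div_of_nonneg_right (by norm_num) (by positivity)

end Pool.Agent.DM.DU.GL
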