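import Pool.Agent.Lib.DU.GL.Spec

/-!
# Theorem DU, part GL, module In: the elements of `II` have classes (helper58, from DR/GL/In of helper3)
-/

set_option autoImplicit false

open scoped Pointwise

noncomputable section

namespace Pool.Agent.DM.DU.GL

open Pool.Agent.MuZ Pool.Agent.FW Pool.Agent.DN Pool.Agent.DM Pool.Agent.DM.DU
open Pool.Agent.DI (io ofC io_inj exists_io io_ofC ofC_io VP MP UP TP ex)
open Pool.Agent.DT (kap cbr)
open Pool.Agent.DM.GL (GE vP pl pH IsR Un)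
open Pool.Agent.DL (vl Pl Fi Fp Cn Cf dl Gen Dr LD)

variable {n t : ℕ}

private theorem In_cop_of [SqN n t] {M : ℕ} {h : OO n t} (hh : (M : OO n t) ∣ h - 1) : Cop h M := by
  refine cop_congr (a := 1) ?_ (cop_one M)
  rw [← neg_sub]
  exact (dvd_neg).2 hh

private theorem In_ne [SqN n t] {M : ℕ} (hM : 2 ≤ M) {h : OO n t} (hh : (M : OO n t) ∣ h - 1) :
    h ≠ 0 := by
  rintro rfl
  rw [zero_sub, dvd_neg, nat_dvd_iff] at hh
  have h1 := hh.1
  rw [re_one] at h1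
  have h2 := Int.le_of_dvd one_pos h1
  have : (2 : ℤ) ≤ M := by exact_mod_cast hM
  omega

/-- The ideal computation. -/
private theorem In_ray [SqN n t] {f M : ℕ} (hM : 0 < M) (hfM : f ∣ M) (hf : 2 ≤ f)
    {a : Ideal (OO n t)} (ha : a ≠ ⊥) (haM : PrI a M) (hr : Ray f a ⊤) :
    ∃ h : OO n t, (f : OO n t) ∣ h - 1 ∧ Cop h M ∧ Ray M a (sp h) := by
  obtain ⟨α, α', hα0, hα'0, hαc, hα'c, hαα, he⟩ := hr
  obtain ⟨x, hxa, hx0, hx1⟩ := (aO6 n t).2.2.2.2 M a hM ha haM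
  rw [Ideal.mul_top] at he
  have h1 : α * x ∈ sp α' := by
    rw [← he]
    exact Ideal.mul_mem_mul (Ideal.mem_span_singleton_self α) hxa
  obtain ⟨y, hy⟩ := Ideal.mem_span_singleton.1 h1
  have hspm : ∀ u v : OO n t, sp (u * v) = sp u * sp v := fun u v =>
    (Ideal.span_singleton_mul_span_singleton u v).symm
  have hya : sp y * a = sp x := by
    apply (Ideal.span_singleton_mul_right_inj hα0).1
    change sp α * (sp y * a) = sp α * sp x
    rw [← hspm, hy, hspm, ← he]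
    ac_rfl
  have hy0 : y ≠ 0 := by
    rintro rfl
    rw [mul_zero] at hy
    exact mul_ne_zero hα0 hx0 hy
  have hfM' : (f : OO n t) ∣ (M : OO n t) := by exact_mod_cast (Nat.cast_dvd_cast hfM : (f : OO n t) ∣ M)
  have hx1f : (f : OO n t) ∣ x - 1 := hfM'.trans hx1
  have hxc : Cop x M := In_cop_of hx1
  have hyc : Cop y M := by
    have h2 : PrI (sp y * a) M := by
      rw [hya]
      exact ((aO6 n t).2.2.2.1 M x hM).2 hxc
    exact ((aO6 n t).2.2.2.1 M y hM).1 (((aO6 n t).1 M _ _).1 h2).1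
  have hy1 : (f : OO n t) ∣ y - 1 := by
    obtain ⟨c, -, hc⟩ := cop_inv hα'c
    have h3 : (f : OO n t) ∣ α' * (y - 1) := by
      have e : α' * (y - 1) = α * (x - 1) + (α - α') := by
        rw [mul_sub, ← hy]
        ring
      rw [e]
      exact dvd_add (Dvd.dvd.mul_left hx1f α) hαα
    have e : y - 1 = c * (α' * (y - 1)) - (α' * c - 1) * (y - 1) := by ring
    rw [e]
    exact dvd_sub (Dvd.dvd.mul_left h3 c) (Dvd.dvd.mul_right hc _)
  obtain ⟨h, hhc, hh⟩ := cop_inv hyc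
  have hh1 : (f : OO n t) ∣ h - 1 := by
    have e : h - 1 = (y * h - 1) - (y - 1) * h := by ring
    rw [e]
    exact dvd_sub (hfM'.trans hh) (Dvd.dvd.mul_right hy1 _)
  refine ⟨h, hh1, hhc, y * h, x, mul_ne_zero hy0 (In_ne hf hh1), hx0, cop_mul hyc hhc, hxc, ?_, ?_⟩
  · have e : y * h - x = (y * h - 1) - (x - 1) := by ring
    rw [e]
    exact dvd_sub hh hx1
  · rw [hspm, ← hya]
    ac_rfl

private theorem In_cop_full [SqN n t] {f N : ℕ} {h : OO n t} (h1 : (f : OO n t) ∣ h - 1)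
    (h2 : Cop h 3) : Cop h (f * 3 ^ N) := by
  have h3 := In_cop_of h1
  unfold Cop at *
  push_cast
  push_cast at h2
  exact h3.mul_right (h2.pow_right)

private theorem In_dvd [SqN n t] {f N : ℕ} (hf : f.Coprime 3) {x : OO n t} (h1 : (f : OO n t) ∣ x)
    (h2 : ((3 ^ N : ℕ) : OO n t) ∣ x) : ((f * 3 ^ N : ℕ) : OO n t) ∣ x := by
  have hc : Nat.Coprime f (3 ^ N) := Nat.Coprime.pow_right N hf
  have h3 : IsCoprime (f : OO n t) ((3 ^ N : ℕ) : OO n t) := hc.cast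
  rw [Nat.cast_mul]
  exact h3.mul_dvd h1 h2

/-- Elements outside of `Gal(Om/K)`. -/
private theorem In_neg [SqN n t] {g : Gal(Om/ℚ)} (hg : g ∉ GK n t) : g (wO n t) = t - wO n t := by
  have e1 : wO n t ^ 2 = t * wO n t - n := wO_sq
  have e2 : g (wO n t) ^ 2 = t * g (wO n t) - n := by
    rw [← map_pow, e1, map_sub, map_mul, map_natCast, map_natCast]
  have e3 : (g (wO n t) - wO n t) * (g (wO n t) - (t - wO n t)) = 0 := by
    linear_combination e2 - e1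
  rcases mul_eq_zero.1 e3 with h | h
  · exact absurd (mem_GK_iff.2 (sub_eq_zero.1 h)) hg
  · exact sub_eq_zero.1 h

private theorem In_index [SqN n t] {g g' : Gal(Om/ℚ)} (hg : g ∉ GK n t) (hg' : g' ∉ GK n t) :
    g * g' ∈ GK n t := by
  rw [mem_GK_iff]
  change g (g' (wO n t)) = wO n t
  rw [In_neg hg', map_sub, map_natCast, In_neg hg, sub_sub_cancel]

private theorem In_sp [SqN n t] : sp (1 : OO n t) = ⊤ := Ideal.span_singleton_one

private theorem In_pri [SqN n t] (M : ℕ) : PrI (⊤ : Ideal (OO n t)) M := by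
  unfold PrI
  exact top_sup_eq _

private theorem In_psi [SqN n t] (M : ℕ) : Psi (1 : Gal(Om/ℚ)) M (⊤ : Ideal (OO n t)) := by
  refine ⟨top_ne_bot, In_pri _, fun b _ _ => ?_, fun b _ _ => ?_, fun b _ _ z _ => ?_⟩
  · rw [Ideal.top_mul]
    rfl
  · rw [Ideal.top_mul]
    rfl
  · rw [Ideal.top_mul]
    rfl

/-- **In.** The elements of `II` have classes. -/
theorem tIn : S_In := by
  intro hK2 hE1 hE4 n t _ P hP
  have hPp : P.IsPrime := hP.1.1
  have hGK : ∀ τ ∈ II n t P, τ ∈ GK n t := fun τ h => h.2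
  have hIn : ∀ τ ∈ II n t P, τ ∈ P.inertia Gal(Om/ℚ) := fun τ h => h.1
  refine ⟨?_, ?_, ?_, ?_⟩
  · intro x hx hx0
    obtain ⟨j, hj⟩ := hK2 P 3 (GK n t) hPp Nat.prime_three (pl hP)
      (fun g g' hg hg' => In_index hg hg') x hx hx0
    exact ⟨j, hj⟩
  · intro τ hτ σ hσ
    refine Subgroup.mem_inf.2 ⟨?_, ?_⟩
    · exact mul_mem (mul_mem (inv_mem hτ) (hIn σ hσ)) hτ
    · rw [mem_GK_iff]
      change τ⁻¹ (σ (τ (wO n t))) = wO n t
      have h1 : σ (wO n t) = wO n t := mem_GK_iff.1 (hGK σ hσ)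
      have h2 : σ (τ (wO n t)) = τ (wO n t) := by
        by_cases h : τ ∈ GK n t
        · rw [mem_GK_iff.1 h, h1]
        · rw [In_neg h, map_sub, map_natCast, h1]
      rw [h2]
      change (τ⁻¹ * τ) (wO n t) = wO n t
      rw [inv_mul_cancel]
      rfl
  · intro τ hτ v
    exact GK_toO (hGK τ hτ) v
  intro f N hf hN
  have hf0 : 0 < f := hf.pos
  have hf20 : 20 ≤ f := Nat.le_of_dvd hf0 hf.dvd
  have hpos : ∀ N : ℕ, 0 < f * 3 ^ N := fun N => Nat.mul_pos hf0 (by positivity)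
  have hd : ∀ f : ℕ, Fok f → ∀ N : ℕ, 1 ≤ N → 15 ∣ f * 3 ^ N := by
    intro f hf N hN
    have h5 : 5 ∣ f := (by norm_num : (5 : ℕ) ∣ 20).trans hf.dvd
    have h3 : 3 ∣ 3 ^ N := dvd_pow_self 3 (by omega)
    exact Nat.mul_dvd_mul h5 h3
  have hfd : ∀ N : ℕ, (f : OO n t) ∣ ((f * 3 ^ N : ℕ) : OO n t) := fun N =>
    ⟨((3 ^ N : ℕ) : OO n t), by push_cast; ring⟩
  have h3d : ((3 : ℕ) : OO n t) ∣ ((3 ^ N : ℕ) : OO n t) := by
    have h : 3 ∣ 3 ^ N := dvd_pow_self 3 (by omega)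
    exact_mod_cast (Nat.cast_dvd_cast h : ((3 : ℕ) : OO n t) ∣ ((3 ^ N : ℕ) : OO n t))
  have A1 : ∀ τ ∈ II n t P, ∃ h : OO n t, Cls P f N h τ := by
    intro τ hτ
    have E := hE1 n t (f * 3 ^ N) (hpos _) (hd f hf N hN)
    obtain ⟨a, ha⟩ := E.1 τ (hGK τ hτ)
    have hr : Ray f a ⊤ := (hE4 n t P hP τ (hIn τ hτ) (hGK τ hτ)).1 (f * 3 ^ N) f a (hpos N)
      (hd f hf N hN) (Dvd.intro _ rfl) hf.cop ha
    have haM : PrI a (f * 3 ^ N) := (((aO6 n t).2.1 _ _ _).1 ha.cop).2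
    obtain ⟨h, h1, h2, h3⟩ := In_ray (hpos N) (Dvd.intro _ rfl) (by omega) ha.ne haM hr
    have hps : Psi τ (f * 3 ^ N) (sp h) := E.2.2.1 τ a (sp h) ha h3
    refine ⟨h, hτ, h1, cop_dvd h2 ?_, hps⟩
    exact Dvd.dvd.mul_left (dvd_pow_self 3 (by omega)) f
  have A2 : ∀ (τ : Gal(Om/ℚ)) (h h' : OO n t), Cls P f N h τ → Cls P f N h' τ →
      ((3 ^ N : ℕ) : OO n t) ∣ h - h' := by
    intro τ h h' c c'
    have hr : Ray (f * 3 ^ N) (sp h) (sp h') :=
      (hE1 n t _ (hpos N) (hd f hf N hN)).2.1 τ _ _ c.psi c'.psi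
    obtain ⟨e, he1, he2⟩ := ((aO7 n t _ (hpos N)).2.2.2.2.2.2.2.1 h h' (In_ne (by omega) c.one)
      (In_ne (by omega) c'.one) (In_cop_full c.one c.cop) (In_cop_full c'.one c'.cop)).1 hr
    have he3 : (f : OO n t) ∣ e - 1 := by
      have e' : e - 1 = -((h - e * h') - (h - 1) + e * (h' - 1)) := by ring
      rw [e']
      exact (dvd_neg).2 (dvd_add (dvd_sub ((hfd N).trans he2) c.one) (Dvd.dvd.mul_left c'.one e))
    have he4 : e = 1 := (aO7 n t f hf0).2.2.2.2.2.2.2.2.1 e (by omega) he1 he3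
    rw [he4, one_mul] at he2
    refine Dvd.dvd.trans ?_ he2
    exact ⟨(f : OO n t), by push_cast; ring⟩
  have A3 : ∀ (τ : Gal(Om/ℚ)) (h h' : OO n t), Cls P f N h τ → (f : OO n t) ∣ h' - 1 →
      ((3 ^ N : ℕ) : OO n t) ∣ h' - h → Cls P f N h' τ := by
    intro τ h h' c h1 h2
    have h3 : Cop h' 3 := by
      refine cop_congr (a := h) ?_ c.cop
      rw [← neg_sub]
      exact (dvd_neg).2 (h3d.trans h2)
    refine ⟨c.mem, h1, h3, ?_⟩
    refine (hE1 n t _ (hpos N) (hd f hf N hN)).2.2.1 τ (sp h) (sp h') c.psi ?_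
    refine ((aO7 n t _ (hpos N)).2.2.2.2.2.2.2.1 h h' (In_ne (by omega) c.one)
      (In_ne (by omega) h1) (In_cop_full c.one c.cop) (In_cop_full h1 h3)).2 ⟨1, Nm_one, ?_⟩
    rw [one_mul]
    refine In_dvd hf.cop ?_ ?_
    · have e : h - h' = (h - 1) - (h' - 1) := by ring
      rw [e]
      exact dvd_sub c.one h1
    · rw [← neg_sub]
      exact (dvd_neg).2 h2
  have A4 : ∀ (τ τ' : Gal(Om/ℚ)) (h h' : OO n t), Cls P f N h τ → Cls P f N h' τ' →
      Cls P f N (h * h') (τ * τ') := by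
    intro τ τ' h h' c c'
    refine ⟨mul_mem c.mem c'.mem, ?_, cop_mul c.cop c'.cop, ?_⟩
    · have e : h * h' - 1 = h * (h' - 1) + (h - 1) := by ring
      rw [e]
      exact dvd_add (Dvd.dvd.mul_left c'.one h) c.one
    · have h1 := (hE1 n t _ (hpos N) (hd f hf N hN)).2.2.2.1 τ τ' _ _ c.psi c'.psi
      rwa [Ideal.span_singleton_mul_span_singleton] at h1
  have A5 : Cls P f N (1 : OO n t) 1 := by
    refine ⟨one_mem _, ?_, cop_one 3, ?_⟩
    · rw [sub_self]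
      exact dvd_zero _
    · rw [In_sp]
      exact In_psi _
  refine ⟨A1, A2, A3, A4, A5, ?_, ?_, ?_⟩
  · intro τ h h' c h1 h2
    obtain ⟨h'', c''⟩ := A1 τ⁻¹ (inv_mem c.mem)
    refine A3 τ⁻¹ h'' h' c'' h1 ?_
    have c1 := A4 τ τ⁻¹ h h'' c c''
    rw [mul_inv_cancel] at c1
    have h3 := A2 1 _ _ c1 A5
    have h4 : ((3 ^ N : ℕ) : OO n t) ∣ h * (h' - h'') := by
      have e : h * (h' - h'') = (h * h' - 1) - (h * h'' - 1) := by ring
      rw [e]
      exact dvd_sub h2 h3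
    have h5 : Cop h (3 ^ N) := cop_dvd (In_cop_full c.one c.cop) (Dvd.intro_left f rfl)
    obtain ⟨g, -, hg⟩ := cop_inv h5
    have e : h' - h'' = g * (h * (h' - h'')) - (h * g - 1) * (h' - h'') := by ring
    rw [e]
    exact dvd_sub (Dvd.dvd.mul_left h4 g) (Dvd.dvd.mul_right hg _)
  · intro τ
    constructor
    · intro c
      have := c.psi
      rw [In_sp] at this
      exact ⟨c.mem, this⟩
    · rintro ⟨h1, h2⟩
      refine ⟨h1, ?_, cop_one 3, ?_⟩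
      · rw [sub_self]
        exact dvd_zero _
      · rwa [In_sp]
  · intro τ h f' N' c hf' hff hN' hNN
    refine ⟨c.mem, ?_, c.cop, ?_⟩
    · obtain ⟨m, hm⟩ := hff
      refine Dvd.dvd.trans ?_ c.one
      exact ⟨(m : OO n t), by rw [hm]; push_cast; ring⟩
    · exact (hE1 n t _ (hpos N) (hd f hf N hN)).2.2.2.2 τ (f' * 3 ^ N') (sp h) c.psi
        (Nat.mul_dvd_mul hff (pow_dvd_pow 3 hNN)) (hd f' hf' N' hN')

end Pool.Agent.DM.DU.GL
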