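import Pool.Agent.Lib.DU.GL.SpecB

/-!
# Theorem DU, part GL, module Iso: the isogeny formulas (author helper28, after DM/GL, DR/GL)
-/

set_option autoImplicit false

open scoped Pointwise

noncomputable section

namespace Pool.Agent.DM.DU.GL

open Pool.Agent.MuZ Pool.Agent.FW Pool.Agent.DN Pool.Agent.DM Pool.Agent.DM.DU
open Pool.Agent.DI (io ofC io_inj exists_io io_ofC ofC_io VP MP UP TP ex)
open Pool.Agent.DI.GL (Fx StP mem_of_Fx Fx.mul Fx.inv Fx.one)
open Pool.Agent.DT (kap cbr)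
open Pool.Agent.DM.GL (GE vP pl pH IsR Un Sit3)
open Pool.Agent.DL (vl Pl Fi Fp Cn Cf dl Gen Dr LD)

/-- The isogeny formulas. -/
theorem tIso : S_Iso := by
  intro hX n t _ c h hc hh R hR z z' hz hz' hzl hzl'
  have hh0 : h ≠ 0 := by
    rintro rfl
    unfold Cop at hh
    rw [Nm_zero] at hh
    have h1 := isCoprime_zero_left.1 hh
    rw [Int.isUnit_iff] at h1
    omega
  have ht : G30 (⊤ : Ideal (OO n t)) := ⟨top_ne_bot, by unfold PrI; exact top_sup_eq _⟩
  have ha0 : sp h * c ≠ ⊥ := by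
    intro h0
    rcases Ideal.mul_eq_bot.1 h0 with h1 | h1
    · exact hh0 (Ideal.span_singleton_eq_bot.1 h1)
    · exact hc.ne h1
  have hap : PrI (sp h * c) 30 :=
    ((aO6 n t).1 30 (sp h) c).2 ⟨((aO6 n t).2.2.2.1 30 h (by norm_num)).2 hh, hc.cop⟩
  have ha : G30 (sp h * c) := ⟨ha0, hap⟩
  obtain ⟨s1, s2⟩ := (hX n t ⊤ ht).sum (sp h * c) ha0 hap R hR
  rw [Ideal.mul_top] at s1 s2
  have hm := (hX n t c hc).hmg h hh0 hh
  have hr := (hX n t ⊤ ht).rr c (sp h * c) hc ha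
  constructor
  · rw [← s1 z z' hz hz' hzl hzl', ← hr]
    linear_combination rO (⊤ : Ideal (OO n t)) c ^ 2 * ((hm z' hz').1 - (hm z hz).1)
  · rw [← s2 z hz hzl, ← hr]
    linear_combination -rO (⊤ : Ideal (OO n t)) c ^ 3 * (hm z hz).2

end Pool.Agent.DM.DU.GL
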