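import Pool.Agent.Lib.DU.GL.SpecB

/-!
# Theorem DU, part GL, module LSA: the local step (helper36)
-/

set_option autoImplicit false

open scoped Pointwise

noncomputable section

namespace Pool.Agent.DM.DU.GL

open Pool.Agent.MuZ Pool.Agent.FW Pool.Agent.DN Pool.Agent.DM Pool.Agent.DM.DU
open Pool.Agent.DI (io ofC io_inj exists_io io_ofC ofC_io VP MP UP TP ex)
open Pool.Agent.DI.GL (Fx StP mem_of_Fx Fx.mul Fx.inv Fx.one)
open Pool.Agent.DT (kap cbr)
open Pool.Agent.DM.GL (GE vP pl pH IsR Un Sit3)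
open Pool.Agent.DL (vl Pl Fi Fp Cn Cf dl Gen Dr LD)

variable {n t : ℕ}

theorem tLSA : S_LSA := by
  intro tau dta res chi lsg n t _ P hP f N m χ T D z0 d SH hfm hχ hN hT hpt hSH hD hkap
  have := hP.1.1
  have h2 := pl hP
  obtain ⟨hc1, -, -⟩ := chi n t P hP f χ hpt.fok hχ
  have A : ∀ τ ∈ P.inertia Gal(Om/ℚ), (∀ ζ : Om, ζ ^ 3 ^ N = 1 → τ ζ = ζ⁻¹) →
      GE P (dv n t P z0 d SH) (SS f N m χ T D) ∧
      GE P (1 / 2 + dv n t P z0 d SH) (SS f N m χ T D - τ w4 / w4 * τ (SS f N m χ T D)) := by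
    intro τ hτ hζ
    have hτG := (tau n t P hP N (by omega)).2 τ hτ hζ
    obtain ⟨r, hr, hr1, -, hr3⟩ := dta n t P hP f N z0 d hpt τ hτ hτG
    have hrV : VP P r := hr.1
    let L : Om →+ Om := AddMonoidHom.mk' (fun x => x + r * τ x) (fun a b => by
      simp only [map_add]
      ring)
    have hL : ∀ x, L x = x + r * τ x := fun x => rfl
    obtain ⟨h1, h3⟩ := lsg n t P hP f N m χ T D z0 d SH (1 + dv n t P z0 d SH) L hfm hχ
      (by omega) hT hpt hSH hD hkap
      (fun q' x h => by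
        rw [hL]
        exact h.add h2 (DL.GE.mul_left h2 hrV (h.inertia h2 hτ)))
      (fun c x => by
        rw [hL, hL, map_mul, (hc1 c).2 τ hτ]
        ring)
      le_rfl
      (fun w hw hg y hy => by
        rw [hL]
        exact res n t P hP f N z0 d hpt hN SH hSH τ hτ hζ r hr3 w hw hg y hy)
    refine ⟨h1, ?_⟩
    rw [hL] at h3
    have e : SS f N m χ T D - τ w4 / w4 * τ (SS f N m χ T D) =
        (SS f N m χ T D + r * τ (SS f N m χ T D)) - (r + τ w4 / w4) * τ (SS f N m χ T D) := by ring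
    have h5 : GE P (1 / 2 + dv n t P z0 d SH) ((r + τ w4 / w4) * τ (SS f N m χ T D)) :=
      hr1.mul h2 (h1.inertia h2 hτ)
    rw [e]
    exact (h3.mono (by linarith)).sub h2 h5
  refine ⟨?_, fun τ hτ hζ => (A τ hτ hζ).2⟩
  obtain ⟨τ, hτ, hζ⟩ := (tau n t P hP N (by omega)).1
  exact (A τ hτ hζ).1

end Pool.Agent.DM.DU.GL
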