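import Pool.Agent.Lib.DU.GL.SpecB
import Pool.Agent.Lib.DT.GL.RR
import Pool.Agent.Lib.DT.GL.Lin
import Pool.Agent.Lib.DT.GL.Kap
import Pool.Agent.Lib.DT.GL.Arch

/-!
# Theorem DU, part GL: the linear algebra of the local step (S_LSg) (helper9; from `DR/GL/LSg.lean`, `DM/GL/LSS.lean`)
-/

set_option autoImplicit false

open scoped Pointwise

noncomputable section

namespace Pool.Agent.DM.DU.GL

open Pool.Agent.MuZ Pool.Agent.FW Pool.Agent.DN Pool.Agent.DM Pool.Agent.DM.DU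
open Pool.Agent.DI (io ofC io_inj exists_io io_ofC ofC_io VP MP UP TP ex)
open Pool.Agent.DI.GL (Fx StP mem_of_Fx Fx.mul Fx.inv Fx.one)
open Pool.Agent.DT (kap cbr)
open Pool.Agent.DM.GL (GE vP pl pH IsR Un Sit3)
open Pool.Agent.DL (vl Pl Fi Fp Cn Cf dl Gen Dr LD)

variable {n t : ℕ}

/-- The decomposition of a sum over `D`. -/
private theorem LSg_split {ι : Type} {n : ℕ} (D : Finset ι) (χ : ι → Om) (b : Fin n → ι)
    (c : Fin n → ι → ℕ) (C : ι → Om) : ∑ v ∈ D, χ v * C v =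
      ∑ v ∈ D, (χ v - ∑ i, (c i v : Om) * χ (b i)) * C v +
        ∑ i, χ (b i) * ∑ v ∈ D, (c i v : Om) * C v := by
  have h1 : ∑ i, χ (b i) * ∑ v ∈ D, (c i v : Om) * C v =
      ∑ v ∈ D, (∑ i, (c i v : Om) * χ (b i)) * C v := by
    simp only [Finset.mul_sum, Finset.sum_mul]
    rw [Finset.sum_comm]
    refine Finset.sum_congr rfl fun v _ => Finset.sum_congr rfl fun i _ => ?_
    ring
  rw [h1, ← Finset.sum_add_distrib]
  refine Finset.sum_congr rfl fun v _ => ?_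
  ring

private theorem LSg_zet (hGM : S_GM) (n t : ℕ) [Ram3 n t] (f : ℕ) (hf : Fok f) (g : Gal(Om/ℚ))
    (hg : Fx (Mn n t f 1) g) : g (zet 3) = zet 3 := by
  obtain ⟨-, -, -, -, -, -, -, h⟩ := hGM n t f hf
  have hp : IsPrimitiveRoot (zet 3) (3 ^ 1) := by
    rw [pow_one]
    exact DT.GL.zet3_prim
  exact ((h 1 le_rfl (zet 3) hp g).1 hg).2

theorem tLSg : S_LSg := by
  intro hLDr hG3 hGM hPi hGen hUn4 hChi n t _ P hP f N m χ T D z0 d SH q Λ hFM hχ hN hT hpt hSH hD hsum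
    hΛ1 hΛ2 hq hRes
  have hPi0 : P.IsPrime := hP.1.1
  have h3 : MP P 3 := hP.2
  have hpl : Pl P 3 := pl hP
  have hFok : Fok f := hFM.toFok
  obtain ⟨S, -, hgen, hq0, hq1⟩ := gen0 hGen hP hpt.toPt
  have hW : VP P (vO (⊤ : Ideal (OO n t)) (z0 + d)) := by
    have h := ((hPi n t P hP f N z0 d hpt.toPt).1 1 (cop_one 3)).2.2.2.2.2.2
    rw [toC_one, one_mul] at h
    exact h.1
  obtain ⟨-, -, -, hL4, hL5, -, -⟩ := hLDr P 3 2 (II n t P) S (pH z0 d (1 : OO n t)) hgen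
    ((N : ℚ) - 1 / 4) (vO (⊤ : Ideal (OO n t)) (z0 + d)) hq0 hq1 hW
  have hU : ∀ c ∈ D, LDn n t P N z0 d (uN f N m T c) (SN f N m T c) ∧
      GE P (dv n t P z0 d SH) (SN f N m T c) := fun c hc =>
    hUn4 n t P hP f N m T hFM hN hT z0 d hpt SH hSH c (hD c hc).1 (hD c hc).2
  have hG : ∀ c ∈ D, uN f N m T c ∈ Mn n t f N ∧ UP P (uN f N m T c) := fun c hc => by
    obtain ⟨h3, -, h4, -⟩ := hG3 n t f m N T hFM hN hT c (hD c hc).1 (hD c hc).2
    exact ⟨h3, h4 P hP.1⟩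
  obtain ⟨m', hm', hχ'⟩ := hχ.cop
  have hχ1 : ∀ c, χ c = 0 ∨ χ c ^ m' = 1 := by
    intro c
    by_cases h : c = ⊥ ∨ ¬ PrI c (3 * f)
    · exact Or.inl (hχ.zero c h)
    · rw [not_or, not_not] at h
      exact Or.inr (hχ' c h.1 h.2)
  have hV : ∀ v, VP P (χ v) := fun v => ((hChi n t P hP f χ hFok hχ).1 v).1
  obtain ⟨k, b, e, hind, he⟩ := DT.GL.tLin P hPi0 h3 (Ideal (OO n t)) χ hV D
  have hRR := DT.GL.tRR DT.GL.tArch
  have hρ : ∀ c ∈ D, GE P 1 (χ c - ∑ i, (e i c : Om) * χ (b i)) := by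
    intro v hv
    refine (DL.GE.two_iff hpl).2 ?_
    have h5 := hRR _ χ m' hm' hχ1 P hPi0 h3 (χ v - ∑ i, (e i v : Om) * χ (b i)) ?_ (he v hv)
    · simpa using h5
    refine sub_mem (Algebra.subset_adjoin ⟨v, rfl⟩) (sum_mem fun i _ => ?_)
    exact mul_mem (natCast_mem _ _) (Algebra.subset_adjoin ⟨b i, rfl⟩)
  have hw1 : ∀ i, (∏ c ∈ D, uN f N m T c ^ e i c) ∈ Mn n t f N := fun i =>
    prod_mem fun v hv => pow_mem (hG v hv).1 _
  have hkap : ∀ i, ∀ g : Gal(Om/ℚ), DT.GL.DD (Mn n t f) P g →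
      kap (∏ c ∈ D, uN f N m T c ^ e i c) g = 0 := by
    intro i g hg
    have hz3 : g (zet 3) = zet 3 := LSg_zet hGM n t f hFok g (hg.2 1 le_rfl)
    have h3' := hsum g ⟨hg.1, fun N hN => hg.2 N hN⟩
    rw [LSg_split D χ b e] at h3'
    have h4 : MP P (∑ v ∈ D, (χ v - ∑ i, (e i v : Om) * χ (b i)) *
        ((kap (uN f N m T v) g).val : Om)) :=
      DI.MP.sum D _ fun v hv => DI.MP.mul_right (he v hv) (DI.VP.nat _)
    have h5 := h3'.sub h4
    rw [add_sub_cancel_left] at h5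
    have h6 : ∑ i, χ (b i) * ∑ v ∈ D, (e i v : Om) * ((kap (uN f N m T v) g).val : Om) =
        ∑ i, ((∑ v ∈ D, e i v * (kap (uN f N m T v) g).val : ℕ) : Om) * χ (b i) := by
      refine Finset.sum_congr rfl fun i _ => ?_
      push_cast
      ring
    rw [h6] at h5
    have h7 := hind _ h5 i
    rw [DT.GL.tKap.2.2.2 _ D (uN f N m T) (e i) g hz3
      (fun v hv => ⟨(hG v hv).2.ne_zero, hg.2 N (by omega) _ (hG v hv).1⟩)]
    have h8 := (ZMod.natCast_eq_zero_iff _ 3).2 h7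
    push_cast at h8
    simpa only [ZMod.natCast_zmod_val] using h8
  have hwi : ∀ i, GE P q (Λ (∑ c ∈ D, (e i c : Om) * SN f N m T c)) := fun i =>
    hRes _ (hw1 i) (hkap i) _
      (hL5 (Ideal (OO n t)) D (fun c => uN f N m T c ^ e i c)
        (fun c => (e i c : Om) * SN f N m T c) fun c hc => hL4 _ _ _ (hU c hc).1)
  have hfin : SS f N m χ T D = -∑ c ∈ D, χ c * SN f N m T c := by
    unfold SS
    rw [← Finset.sum_neg_distrib]
    refine Finset.sum_congr rfl fun c _ => ?_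
    unfold SN
    ring
  rw [hfin]
  refine ⟨DL.GE.neg hpl (DL.GE.sum hpl _ _ fun c hc => DL.GE.mul_left hpl (hV c) (hU c hc).2), ?_⟩
  rw [map_neg]
  refine DL.GE.neg hpl ?_
  rw [LSg_split D χ b e, map_add]
  refine DL.GE.add hpl (DL.GE.mono (hΛ1 (1 + dv n t P z0 d SH) _
    (DL.GE.sum hpl _ _ fun c hc => DL.GE.mul hpl (hρ c hc) (hU c hc).2)) hq) ?_
  rw [map_sum]
  refine DL.GE.sum hpl _ _ fun i _ => ?_
  rw [hΛ2]
  exact DL.GE.mul_left hpl (hV _) (hwi i)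

end Pool.Agent.DM.DU.GL
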