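import Pool.Agent.Lib.DU.GL.SpecB

/-!
# Theorem DU, part GL, module Mnf: inertia and the fields (author helper28, after DM/GL)
-/

set_option autoImplicit false

open scoped Pointwise

noncomputable section

namespace Pool.Agent.DM.DU.GL

open Pool.Agent.MuZ Pool.Agent.FW Pool.Agent.DN Pool.Agent.DM Pool.Agent.DM.DU
open Pool.Agent.DI (io ofC io_inj exists_io io_ofC ofC_io VP MP UP TP ex)
open Pool.Agent.DI.GL (Fx StP mem_of_Fx Fx.mul Fx.inv Fx.one)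
open Pool.Agent.DT (kap cbr)
open Pool.Agent.DM.GL (GE vP pl pH IsR Un Sit3)
open Pool.Agent.DL (vl Pl Fi Fp Cn Cf dl Gen Dr LD)

private theorem Mnf_ne {n t : ℕ} {h : OO n t} (hc : Cop h 3) : h ≠ 0 := by
  rintro rfl
  unfold Cop at hc
  rw [Nm_zero] at hc
  have h1 := isCoprime_zero_left.1 hc
  rw [Int.isUnit_iff] at h1
  norm_num at h1

private theorem Mnf_two {n t f : ℕ} (hf : f.Coprime 3) {x : OO n t} (h1 : (f : OO n t) ∣ x)
    (h4 : ((3 : ℕ) : OO n t) ∣ x) : ((3 * f : ℕ) : OO n t) ∣ x := by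
  obtain ⟨a1, a2⟩ := (nat_dvd_iff _ _).1 h1
  obtain ⟨b1, b2⟩ := (nat_dvd_iff _ _).1 h4
  have hc : IsCoprime ((3 : ℕ) : ℤ) (f : ℤ) :=
    Nat.isCoprime_iff_coprime.2 hf.symm
  rw [nat_dvd_iff]
  push_cast
  push_cast at hc b1 b2
  exact ⟨hc.mul_dvd b1 a1, hc.mul_dvd b2 a2⟩

private theorem Mnf_cop {n t f : ℕ} {h : OO n t} (h1 : (f : OO n t) ∣ h - 1) (h3 : Cop h 3) :
    Cop h (3 * f) := by
  have h4 : Cop h f := by
    refine cop_congr ?_ (cop_one f)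
    rw [← neg_sub, dvd_neg]
    exact h1
  unfold Cop at h3 h4 ⊢
  push_cast
  exact IsCoprime.mul_right (by exact_mod_cast h3) h4

private theorem Mnf_cube {n t : ℕ} [Ram3 n t] (o : S_O4) {h : OO n t} (hx : h - 1 ∈ pp n t) :
    (3 : OO n t) ∣ h ^ 3 - 1 := by
  have h1 : (h - 1) * (h - 1) ∈ sp (3 : OO n t) := by
    rw [← (o n t).2.2.1]
    exact Ideal.mul_mem_mul hx hx
  obtain ⟨c, hc⟩ := Ideal.mem_span_singleton.1 h1
  refine ⟨(h - 1) + (h - 1) ^ 2 + c * (h - 1), ?_⟩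
  linear_combination (h - 1) * hc

/-- **Mnf.** -/
theorem tMnf : S_Mnf := by
  intro o hGM hIn hGen n t _ P hP f hF
  obtain ⟨-, -, -, hIn2⟩ := hIn n t P hP
  have key : ∀ (f' N : ℕ) (h : OO n t) (τ : Gal(Om/ℚ)), 1 ≤ N → Fok f' → f ∣ f' → Cls P f' N h τ →
      Hn f' N h → ∀ x ∈ Mn n t f N, τ x = x := by
    intro f' N h τ hN hF' hff hcls hHq x hx
    have h1 : Cls P f N h τ := (hIn2 f' N hF' hN).2.2.2.2.2.2.2 τ h f N hcls hF hff hN le_rfl
    have hcop : Cop h (3 * f) := Mnf_cop h1.one h1.cop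
    have hG := (hGM n t f hF).2.2.2.2.2.2.1 N hN τ h1.mem.2 (sp h) h1.psi
    refine hG.2 ⟨h, Mnf_ne h1.cop, ⟨⟨hcop, 1, ?_⟩, hHq.2.2⟩, ?_⟩ x hx
    · rw [pow_one]
      refine Mnf_two hF.cop ?_ ?_
      · have e : h ^ 3 - 1 = (h - 1) * (h ^ 2 + h + 1) := by ring
        rw [e]
        exact dvd_mul_of_dvd_left h1.one _
      · have h5 := Mnf_cube o hHq.2.1
        rwa [show ((3 : ℕ) : OO n t) = 3 by norm_num]
    · exact (aO7 n t (f * 3 ^ N) (Nat.mul_pos hF.pos (pow_pos (by norm_num) N))).1 _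
  refine ⟨key, ?_, ?_⟩
  · intro N h τ hN hcls h3 x hx
    have h1 : Cls P f 1 h τ := (hIn2 f N hF hN).2.2.2.2.2.2.2 τ h f 1 hcls hF dvd_rfl le_rfl hN
    have hcop : Cop h (3 * f) := Mnf_cop h1.one h1.cop
    have hps : Psi τ (3 * f) (sp h) := by
      have h4 := h1.psi
      rwa [pow_one, mul_comm] at h4
    have hG := (hGM n t f hF).2.2.2.2.2.1 τ h1.mem.2 (sp h) hps
    refine hG.2 ⟨h, Mnf_ne h1.cop, ⟨hcop, 0, ?_⟩, ?_⟩ x hx
    · rw [pow_zero, pow_one]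
      refine Mnf_two hF.cop h1.one ?_
      rwa [show ((3 : ℕ) : OO n t) = 3 by norm_num]
    · exact (aO7 n t (3 * f) (by have := hF.pos; omega)).1 _
  · intro N z0 d hp x hx
    refine ((hGen n t P hP f N z0 d hp).2.2.2 f hF dvd_rfl).2 x fun σ hσ => ?_
    exact key f N 1 σ hp.pos hF dvd_rfl hσ (hn_one f N) x hx

end Pool.Agent.DM.DU.GL
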