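import Pool.Agent.Lib.DU.GL.Spec

/-!
# Theorem DU, part GL: the valuations of the conjugates of the uniformizer (S_Pi) (helper9; from `DM/GL/Pi.lean`, helper2, and `DR/GL/Pi.lean`, helper58)
-/

set_option autoImplicit false

open scoped Pointwise

noncomputable section

namespace Pool.Agent.DM.DU.GL

open Pool.Agent.MuZ Pool.Agent.FW Pool.Agent.DN Pool.Agent.DM Pool.Agent.DM.DU
open Pool.Agent.DI (io ofC io_inj exists_io io_ofC ofC_io VP MP UP TP ex)
open Pool.Agent.DT (kap cbr)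
open Pool.Agent.DM.GL (GE vP pl pH IsR Un)
open Pool.Agent.DL (vl Pl Fi Fp Cn Cf dl Gen Dr LD)

variable {n t : ℕ}

private theorem pi_gtop : G30 (⊤ : Ideal (OO n t)) := ⟨top_ne_bot, top_sup_eq _⟩

/-- An ideal prime to `3` which contains a power of `3` is trivial. -/
private theorem pi_top [Ram3 n t] {a : Ideal (OO n t)} (h : PrI a 3) {N : ℕ}
    (hN : ((3 ^ N : ℕ) : OO n t) ∈ a) : a = ⊤ := by
  obtain ⟨x, hx, y, e⟩ : ∃ x ∈ a, ∃ y : OO n t, x + ((3 : ℕ) : OO n t) * y = 1 := by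
    have h1 : (1 : OO n t) ∈ a ⊔ Ideal.span {((3 : ℕ) : OO n t)} := by
      have h2 : a ⊔ Ideal.span {((3 : ℕ) : OO n t)} = ⊤ := h
      rw [h2]
      exact trivial
    obtain ⟨x, hx, y', hy', e⟩ := Submodule.mem_sup.1 h1
    obtain ⟨y, rfl⟩ := Ideal.mem_span_singleton.1 hy'
    exact ⟨x, hx, y, e⟩
  rw [Ideal.eq_top_iff_one]
  have key : ∀ i : ℕ, ∃ z ∈ a, ∃ w : OO n t, z + ((3 ^ i : ℕ) : OO n t) * w = 1 := by
    intro i
    induction i with
    | zero => exact ⟨0, a.zero_mem, 1, by push_cast; ring⟩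
    | succ i ih =>
      obtain ⟨z, hz, w, e1⟩ := ih
      refine ⟨z + ((3 ^ i : ℕ) : OO n t) * w * x, a.add_mem hz (a.mul_mem_left _ hx), w * y, ?_⟩
      push_cast at e e1 ⊢
      linear_combination e1 + 3 ^ i * w * e
  obtain ⟨z, hz, w, e1⟩ := key N
  rw [← e1]
  exact a.add_mem hz (a.mul_mem_right _ hN)

/-- The annihilator of `d`. -/
private def pi_ann [Ram3 n t] (d : ℂ) : Ideal (OO n t) where
  carrier := {v | toC v * d ∈ Lam (⊤ : Ideal (OO n t))}
  zero_mem' := by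
    change toC (0 : OO n t) * d ∈ Lam (⊤ : Ideal (OO n t))
    rw [toC_zero, zero_mul]
    exact lam_zero _
  add_mem' := by
    intro v u hv hu
    change toC (v + u) * d ∈ Lam (⊤ : Ideal (OO n t))
    rw [toC_add, add_mul]
    exact lam_add hv hu
  smul_mem' := by
    intro c v hv
    change toC (c * v) * d ∈ Lam (⊤ : Ideal (OO n t))
    rw [toC_mul, mul_assoc]
    exact lam_mul c hv

private theorem pi_mem_ann [Ram3 n t] {d : ℂ} {v : OO n t} : v ∈ pi_ann (n := n) (t := t) d ↔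
    toC v * d ∈ Lam (⊤ : Ideal (OO n t)) := Iff.rfl

private theorem pi_sD_mem : sD n t ∈ pp n t := Ideal.subset_span (Set.mem_insert_of_mem _ rfl)

/-- The annihilator of `d` is `pp ^ (2 N)`. -/
private theorem pi_ann_eq [Ram3 n t] (hO4 : S_O4) (hRep : C_Rep) {f N : ℕ} {z0 d : ℂ}
    (hp : Pt n t f N z0 d) (v : OO n t) :
    toC v * d ∈ Lam (⊤ : Ideal (OO n t)) ↔ v ∈ pp n t ^ (2 * N) := by
  obtain ⟨-, -, r3, -⟩ := hRep n t N hp.pos
  obtain ⟨-, -, -, -, -, -, -, -, -, -, -, -, -, -, -, -, -, -, o⟩ := hO4 n t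
  have h3N : ((3 ^ N : ℕ) : OO n t) ∈ pi_ann (n := n) (t := t) d := by
    rw [pi_mem_ann, toC_nat]
    push_cast
    exact hp.dd
  constructor
  · intro hv
    have hne : pi_ann (n := n) (t := t) d ≠ ⊥ := by
      intro h0
      rw [h0, Ideal.mem_bot] at h3N
      have h1 := congrArg (fun u : OO n t => toC u) h3N
      simp only [toC_nat, toC_zero] at h1
      have : ((3 ^ N : ℕ) : ℂ) ≠ 0 := by
        rw [Nat.cast_ne_zero]
        positivity
      exact this h1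
    obtain ⟨i, a', ha0, ha2, ha⟩ := o _ hne
    have hat : a' = ⊤ := by
      refine pi_top ha2 (N := N) ?_
      have h1 : pp n t ^ i * a' ≤ a' := Ideal.mul_le_right
      exact h1 (ha ▸ h3N)
    rw [hat, Ideal.mul_top] at ha
    have hi : 2 * N ≤ i := by
      by_contra hc
      have h1 : sD n t * ((3 ^ (N - 1) : ℕ) : OO n t) ∈ pi_ann (n := n) (t := t) d := by
        rw [ha]
        have h2 : ((3 ^ (N - 1) : ℕ) : OO n t) ∈ pp n t ^ (2 * (N - 1)) := (r3 _ _).2 dvd_rfl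
        have h3 : sD n t * ((3 ^ (N - 1) : ℕ) : OO n t) ∈ pp n t ^ (2 * (N - 1) + 1) := by
          rw [pow_succ']
          exact Ideal.mul_mem_mul pi_sD_mem h2
        have hN1 := hp.pos
        exact Ideal.pow_le_pow_right (by omega) h3
      rw [pi_mem_ann, toC_mul, toC_nat] at h1
      push_cast at h1
      rw [mul_assoc] at h1
      exact hp.dn h1
    have h1 : v ∈ pi_ann (n := n) (t := t) d := hv
    rw [ha] at h1
    exact Ideal.pow_le_pow_right hi h1
  · intro hv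
    obtain ⟨u, rfl⟩ := (r3 v N).1 hv
    rw [mul_comm ((3 ^ N : ℕ) : OO n t) u, toC_mul, toC_nat, mul_assoc]
    push_cast
    exact lam_mul u hp.dd

/-- The exact order of `v d`. -/
private theorem pi_ord [Ram3 n t] (hO4 : S_O4) (hRep : C_Rep) {f N : ℕ} {z0 d : ℂ} (hp : Pt n t f N z0 d)
    {j : ℕ} {v : OO n t} (hj : j < 2 * N) (h1 : v ∈ pp n t ^ j) (h2 : v ∉ pp n t ^ (j + 1)) :
    toC v * d ∈ Lam (pp n t ^ (2 * N - 1 - j + 1) * (⊤ : Ideal (OO n t))) ∧
      toC v * d ∉ Lam (pp n t ^ (2 * N - 1 - j) * (⊤ : Ideal (OO n t))) := by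
  have hpp0 : pp n t ≠ ⊥ := by
    intro h0
    have h3 : (3 : OO n t) ∈ pp n t := Ideal.subset_span (Set.mem_insert _ _)
    rw [h0, Ideal.mem_bot] at h3
    have h4 := congrArg (fun u : OO n t => toC u) h3
    have h5 : toC (3 : OO n t) = 3 := by
      have h6 := toC_nat (n := n) (t := t) 3
      rw [Nat.cast_ofNat, Nat.cast_ofNat] at h6
      exact h6
    simp only [h5, toC_zero] at h4
    norm_num at h4
  constructor
  · rw [lam_prod]
    intro u hu
    rw [← mul_assoc, ← toC_mul, pi_ann_eq hO4 hRep hp]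
    have e : 2 * N = (2 * N - 1 - j + 1) + j := by omega
    rw [e, pow_add]
    exact Ideal.mul_mem_mul hu h1
  · rw [lam_prod]
    intro h3
    apply h2
    have h4 : sp v * pp n t ^ (2 * N - 1 - j) ≤ pp n t ^ (2 * N) := by
      rw [Ideal.span_singleton_mul_le_iff]
      intro u hu
      rw [← pi_ann_eq hO4 hRep hp, toC_mul, mul_comm (toC v), mul_assoc]
      exact h3 u hu
    have e : 2 * N = (j + 1) + (2 * N - 1 - j) := by omega
    have h5 : pp n t ^ (j + 1) * pp n t ^ (2 * N - 1 - j) ∣ sp v * pp n t ^ (2 * N - 1 - j) := by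
      rw [← pow_add, ← e]
      exact Ideal.dvd_iff_le.2 h4
    have h6 := (mul_dvd_mul_iff_right (pow_ne_zero (2 * N - 1 - j) hpp0)).1 h5
    exact (Ideal.span_singleton_le_iff_mem _).1 (Ideal.dvd_iff_le.1 h6)

/-- Points of level `f 3 ^ N`. -/
private theorem pi_lev [Ram3 n t] {f N : ℕ} {z0 d : ℂ} (hz : (f : ℂ) * z0 ∈ Lam (⊤ : Ideal (OO n t)))
    (hd : (3 : ℂ) ^ N * d ∈ Lam (⊤ : Ideal (OO n t))) (v : OO n t) :
    ((f * 3 ^ N : ℕ) : ℂ) * (z0 + toC v * d) ∈ Lam (⊤ : Ideal (OO n t)) := by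
  have e1 : ((f * 3 ^ N : ℕ) : ℂ) * (z0 + toC v * d) =
      ((3 ^ N : ℕ) : ℂ) * (f * z0) + (f : ℂ) * (toC v * (3 ^ N * d)) := by
    push_cast
    ring
  rw [e1]
  exact lam_add (lam_nat _ hz) (lam_nat _ (lam_mul v hd))

/-- Numbers prime to `3` are units at the primes above `3`. -/
private theorem pi_not {P : Ideal ZZ} [P.IsPrime] (h3 : MP P 3) {f : ℕ} (hf : f.Coprime 3) :
    ¬ MP P (f : Om) := by
  intro h
  obtain ⟨a, b, hab⟩ := Nat.isCoprime_iff_coprime.2 hf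
  have h4 : MP P ((f : Om) * (a : Om)) := DI.MP.mul_right h (DI.VP.int a)
  have h5 : MP P ((3 : Om) * (b : Om)) := DI.MP.mul_right h3 (DI.VP.int b)
  have h6 := h4.add h5
  have e : (f : Om) * (a : Om) + (3 : Om) * (b : Om) = 1 := by
    have e1 : ((a * (f : ℤ) + b * ((3 : ℕ) : ℤ) : ℤ) : Om) = 1 := by rw [hab, Int.cast_one]
    push_cast at e1
    linear_combination e1
  rw [e] at h6
  exact DI.MP.one_not h6

theorem tPi : S_Pi := by
  intro hO4 hX hD1 hD2 hD10 hAct hRep n t _ P hP f N z0 d hp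
  have hPp : P.IsPrime := hP.1.1
  have h3 : MP P 3 := hP.2
  have gt : G30 (⊤ : Ideal (OO n t)) := pi_gtop
  have hf0 : 0 < f := hp.fok.pos
  have hN1 := hp.pos
  have hm2 : ¬ MP P 2 := by
    have h4 := pi_not h3 (f := 2) (by norm_num)
    rwa [Nat.cast_ofNat] at h4
  obtain ⟨hD21, -, hD24, hD25, hD26, -, -⟩ := hD2 n t P hP ⊤ gt
  obtain ⟨hD11, -, hD13, -, -, -, -⟩ := hD1 n t P hP.1 hm2 ⊤ gt
  have xX := hX n t ⊤ gt
  -- torsion points
  have tz0 : Tor n t z0 := (tor_iff top_ne_bot).2 ⟨f, hf0, hp.z⟩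
  have td : Tor n t d := (tor_iff top_ne_bot).2 ⟨3 ^ N, by positivity, by
    push_cast
    exact hp.dd⟩
  have tz : ∀ v : OO n t, Tor n t (z0 + toC v * d) := fun v => tor_add tz0 (tor_mul v td)
  have t2 : ∀ z : ℂ, Tor n t z → Tor n t (2 * z) := fun z hz => by
    have h4 := tor_mul (2 : OO n t) hz
    rwa [toC_two] at h4
  have l2 : ∀ z : ℂ, z ∈ Lam (⊤ : Ideal (OO n t)) → 2 * z ∈ Lam (⊤ : Ideal (OO n t)) := fun z hz => by
    have h4 := lam_mul (2 : OO n t) hz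
    rwa [toC_two] at h4
  -- the kernel of reduction
  have kz0 : ¬ IK P (⊤ : Ideal (OO n t)) (2 * z0) := by
    refine hD26 (2 * z0) (t2 z0 tz0) fun hq => hp.zn ?_
    have h4 := hq (f : OO n t) 1 (by
      rw [toO_nat]
      exact pi_not h3 hp.fok.cop) (by
      rw [mul_one, toC_nat]
      have e : (f : ℂ) * (2 * z0) = 2 * (f * z0) := by ring
      rw [e]
      exact l2 _ hp.z)
    rwa [toC_one, one_mul] at h4
  have kd : ∀ v : OO n t, IK P (⊤ : Ideal (OO n t)) (toC v * d) := fun v => by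
    refine hD21 _ N ?_
    have e : (3 : ℂ) ^ N * (toC v * d) = toC v * (3 ^ N * d) := by ring
    rw [e]
    exact lam_mul v hp.dd
  have kz : ∀ v : OO n t, ¬ IK P (⊤ : Ideal (OO n t)) (2 * (z0 + toC v * d)) := by
    intro v hk
    have h4 := hD11 _ _ hk (kd (-2 * v))
    have e : 2 * (z0 + toC v * d) + toC (-2 * v) * d = 2 * z0 := by
      rw [toC_mul, toC_neg, toC_two]
      ring
    rw [e] at h4
    exact kz0 h4
  have k1 : ∀ z : ℂ, ¬ IK P (⊤ : Ideal (OO n t)) (2 * z) → ¬ IK P (⊤ : Ideal (OO n t)) z := by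
    intro z h4 h5
    have h6 := hD13 (2 : OO n t) z h5
    rw [toC_two] at h6
    exact h4 h6
  -- the case `j = 0` of the orders
  have hcop : ∀ h : OO n t, Cop h 3 → h ∈ pp n t ^ 0 ∧ h ∉ pp n t ^ (0 + 1) := by
    intro h hh
    refine ⟨?_, ?_⟩
    · rw [pow_zero, Ideal.one_eq_top]
      exact trivial
    · rw [zero_add, pow_one]
      exact ((hO4 n t).2.2.2.2.2.2.2.2.1 h).1 hh
  have main : ∀ (z : ℂ) (v : OO n t) (j : ℕ), Tor n t z → ¬ IK P (⊤ : Ideal (OO n t)) (2 * z) → j < 2 * N →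
      v ∈ pp n t ^ j → v ∉ pp n t ^ (j + 1) →
      xO (⊤ : Ideal (OO n t)) (z + toC v * d) - xO (⊤ : Ideal (OO n t)) z ≠ 0 ∧
      vP P (xO (⊤ : Ideal (OO n t)) (z + toC v * d) - xO (⊤ : Ideal (OO n t)) z) =
        1 / (4 * 3 ^ (2 * N - 1 - j)) := by
    intro z v j hz hk hj hv1 hv2
    obtain ⟨o1, o2⟩ := pi_ord hO4 hRep hp hj hv1 hv2
    have h4 := (hD10 n t P hP ⊤ gt).1 (2 * N - 1 - j) z (toC v * d) hz hk o1 o2
    have hpos : 0 < 4 * 3 ^ (2 * N - 1 - j) := by positivity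
    constructor
    · intro h0
      rw [h0, zero_pow hpos.ne', zero_div] at h4
      exact DI.UP.ne_zero h4 rfl
    · have h5 : UP P ((xO (⊤ : Ideal (OO n t)) (z + toC v * d) - xO (⊤ : Ideal (OO n t)) z) ^
          (4 * 3 ^ (2 * N - 1 - j)) / ((3 : ℕ) : Om) ^ (1 : ℤ)) := by
        rw [zpow_one, Nat.cast_ofNat]
        exact h4
      have h6 := DL.vl_eq (pl hP) hpos h5
      have e2 : ((1 : ℤ) : ℚ) / ((4 * 3 ^ (2 * N - 1 - j) : ℕ) : ℚ) = 1 / (4 * 3 ^ (2 * N - 1 - j)) := by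
        push_cast
        rfl
      exact h6.trans e2
  refine ⟨?_, (hD24 z0 tz0 (k1 z0 kz0)).1, ?_, ?_, ?_⟩
  · intro h hh
    obtain ⟨c1, c2⟩ := hcop h hh
    obtain ⟨m1, m2⟩ := main z0 h 0 tz0 kz0 (by omega) c1 c2
    rw [Nat.sub_zero] at m2
    refine ⟨m1, m2, tz h, fun h4 => k1 _ (kz h) ⟨tz h, Or.inl h4⟩, kz h, (hD24 _ (tz h) (k1 _ (kz h))).1,
      hD25 _ (tz h) (kz h)⟩
  · intro h h' hd
    unfold pH
    congr 1
    refine (xX.cng _ _ ?_).1
    obtain ⟨u, hu⟩ := hd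
    have e : z0 + toC h * d - (z0 + toC h' * d) = toC u * (3 ^ N * d) := by
      have e1 : toC h - toC h' = 3 ^ N * toC u := by
        rw [← toC_sub, hu, toC_mul, toC_nat]
        push_cast
        ring
      linear_combination d * e1
    rw [e]
    exact lam_mul u hp.dd
  · intro h h' j _ _ hj hd1 hd2
    obtain ⟨m1, m2⟩ := main (z0 + toC h' * d) (h - h') j (tz h') (kz h') hj hd1 hd2
    have e : z0 + toC h' * d + toC (h - h') * d = z0 + toC h * d := by
      rw [toC_sub]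
      ring
    have e1 : pH z0 d h - pH z0 d h' =
        xO (⊤ : Ideal (OO n t)) (z0 + toC h' * d + toC (h - h') * d) -
          xO (⊤ : Ideal (OO n t)) (z0 + toC h' * d) := by
      rw [e]
      unfold pH
      ring
    rw [← e1] at m1 m2
    exact ⟨fun h0 => m1 (by rw [h0, sub_self]), m2⟩
  · intro f' h τ hf' hff' hc h'
    obtain ⟨-, hA⟩ := hAct n t P hP f' N h τ hf' hN1 hc
    obtain ⟨-, -, hx, hx0, -⟩ := hA ⊤ gt
    have hz' : (f' : ℂ) * z0 ∈ Lam (⊤ : Ideal (OO n t)) := by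
      obtain ⟨c, rfl⟩ := hff'
      have e : ((f * c : ℕ) : ℂ) * z0 = (c : ℂ) * (f * z0) := by
        push_cast
        ring
      rw [e]
      exact lam_nat c hp.z
    unfold pH
    rw [map_sub, (hx0 z0 hz').1, (hx _ (pi_lev hz' hp.dd h')).1]
    congr 1
    refine (xX.cng _ _ ?_).1
    obtain ⟨u, hu⟩ := hc.one
    have e : toC h * (z0 + toC h' * d) - (z0 + toC (h * h') * d) = toC u * (f' * z0) := by
      have e1 : toC h - 1 = f' * toC u := by
        rw [← toC_one (n := n) (t := t), ← toC_sub, hu, toC_mul, toC_nat]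
      rw [toC_mul]
      linear_combination z0 * e1
    rw [e]
    exact lam_mul u hz'

end Pool.Agent.DM.DU.GL
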