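import Pool.Agent.Lib.DU.GL.Spec

/-!
# DU, part GL, module Rep: representatives modulo `3 ^ N`, `pp`-adic levels, counting (edit of `DR/GL/Rep.lean`)

`v` is in `pp ^ j` if and only if `3 ^ (j / 2)` divides `v.im` and `3 ^ ((j + 1) / 2)` divides `v.re - t v.im`.
-/

set_option autoImplicit false

open scoped Pointwise

noncomputable section

namespace Pool.Agent.DM.DU.GL

open Pool.Agent.MuZ Pool.Agent.FW Pool.Agent.DN Pool.Agent.DM Pool.Agent.DM.DU
open Pool.Agent.DI (io ofC io_inj exists_io io_ofC ofC_io VP MP UP TP ex)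
open Pool.Agent.DT (kap cbr)
open Pool.Agent.DM.GL (GE vP pl pH IsR Un)
open Pool.Agent.DL (vl Pl Fi Fp Cn Cf dl Gen Dr LD)

variable {n t : ℕ}

private theorem dvd_co (j : ℕ) (a b : OO n t) :
    (j : OO n t) ∣ a - b ↔ (j : ℤ) ∣ a.re - b.re ∧ (j : ℤ) ∣ a.im - b.im := by
  rw [nat_dvd_iff, QuadraticAlgebra.re_sub, QuadraticAlgebra.im_sub]

/-- The class modulo `M`. -/
private def rh (M : ℕ) (v : OO n t) : ZMod M × ZMod M := (((v.re : ℤ) : ZMod M), ((v.im : ℤ) : ZMod M))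

private theorem rh_eq (M : ℕ) (a b : OO n t) : rh M b = rh M a ↔ (M : OO n t) ∣ a - b := by
  unfold rh
  rw [Prod.mk.injEq, dvd_co, ZMod.intCast_eq_intCast_iff_dvd_sub, ZMod.intCast_eq_intCast_iff_dvd_sub]

private theorem card_le {N : ℕ} {C : OO n t → Prop} {T T' : Finset (OO n t)} (h : IsR N C T)
    (h' : IsR N C T') : T.card ≤ T'.card := by
  choose! g hg using h'.ex
  refine Finset.card_le_card_of_injOn g (fun x hx => (hg x (h.mem x hx)).1) ?_
  intro x hx y hy hxy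
  refine h.uni x hx y hy ?_
  have h1 := (hg x (h.mem x hx)).2
  have h2 := (hg y (h.mem y hy)).2
  rw [← hxy] at h2
  have h3 := dvd_sub h1 h2
  rwa [sub_sub_sub_cancel_right] at h3

private theorem exS (N : ℕ) (C : OO n t → Prop) : ∃ T : Finset (OO n t), IsR N C T := by
  classical
  have : NeZero (3 ^ N) := ⟨by positivity⟩
  set S : Finset (ZMod (3 ^ N) × ZMod (3 ^ N)) := Finset.univ.filter (fun p => ∃ v : OO n t, C v ∧ rh (3 ^ N) v = p)
    with hS
  have key : ∀ p : ZMod (3 ^ N) × ZMod (3 ^ N), ∃ v : OO n t, p ∈ S → C v ∧ rh (3 ^ N) v = p := by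
    intro p
    by_cases hp : p ∈ S
    · obtain ⟨v, hv⟩ := (Finset.mem_filter.1 hp).2
      exact ⟨v, fun _ => hv⟩
    · exact ⟨0, fun h => absurd h hp⟩
  choose g hg using key
  refine ⟨S.image g, ⟨?_, ?_, ?_⟩⟩
  · intro h hh
    obtain ⟨p, hp, rfl⟩ := Finset.mem_image.1 hh
    exact (hg p hp).1
  · intro v hv
    have hp : rh (3 ^ N) v ∈ S := Finset.mem_filter.2 ⟨Finset.mem_univ _, v, hv, rfl⟩
    exact ⟨g (rh (3 ^ N) v), Finset.mem_image_of_mem g hp, (rh_eq _ _ _).1 (hg _ hp).2⟩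
  · intro h hh h' hh' hd
    obtain ⟨p, hp, rfl⟩ := Finset.mem_image.1 hh
    obtain ⟨q, hq, rfl⟩ := Finset.mem_image.1 hh'
    have h1 := (rh_eq _ _ _).2 hd
    rw [(hg p hp).2, (hg q hq).2] at h1
    rw [h1]

private theorem lift (f N : ℕ) (hf : f.Coprime 3) (a b : ℤ) : ∃ v : OO n t, (f : OO n t) ∣ v - 1 ∧
    ((3 ^ N : ℕ) : ℤ) ∣ v.re - a ∧ ((3 ^ N : ℕ) : ℤ) ∣ v.im - b := by
  have hc : IsCoprime (f : ℤ) ((3 ^ N : ℕ) : ℤ) := by
    rw [Nat.isCoprime_iff_coprime]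
    exact Nat.Coprime.pow_right N hf
  obtain ⟨x, y, hxy⟩ := hc
  refine ⟨⟨a * (x * f) + y * (3 ^ N : ℕ), b * (x * f)⟩, ?_, ⟨y - a * y, ?_⟩, ⟨- (b * y), ?_⟩⟩
  · rw [nat_dvd_iff, QuadraticAlgebra.re_sub, QuadraticAlgebra.im_sub, re_one, im_one]
    exact ⟨⟨a * x - x, by linear_combination hxy⟩, ⟨b * x, by ring⟩⟩
  · show a * (x * f) + y * (3 ^ N : ℕ) - a = _
    linear_combination a * hxy
  · show b * (x * f) - b = _
    linear_combination b * hxy

private theorem eq_of (K : ℕ) (p q : ℕ) (hp : p < K) (hq : q < K) (h : (K : ℤ) ∣ (p : ℤ) - q) : p = q := by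
  have h1 : (q : ℤ) ≡ p [ZMOD K] := (Int.modEq_iff_dvd).2 h
  have h2 : q ≡ p [MOD K] := (Int.natCast_modEq_iff).1 h1
  exact (Nat.ModEq.eq_of_lt_of_lt h2 hq hp).symm

/-- The property of the explicit systems. -/
private def Cj (f a b : ℕ) (ε e1 e2 : ℤ) (v : OO n t) : Prop :=
  (f : OO n t) ∣ v - 1 ∧ ((3 ^ b : ℕ) : ℤ) ∣ v.re - ε * v.im - e1 ∧ ((3 ^ a : ℕ) : ℤ) ∣ v.im - e2

private theorem sys (f N a b : ℕ) (hf : f.Coprime 3) (ha : a ≤ N) (hb : b ≤ N) (ε e1 e2 : ℤ) :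
    ∃ T : Finset (OO n t), IsR N (Cj f a b ε e1 e2) T ∧ T.card = 3 ^ (N - b) * 3 ^ (N - a) := by
  classical
  choose g hg1 hg2 hg3 using fun p : ℕ × ℕ =>
    lift (n := n) (t := t) f N hf (e1 + (3 ^ b : ℕ) * p.1 + ε * (e2 + (3 ^ a : ℕ) * p.2))
      (e2 + (3 ^ a : ℕ) * p.2)
  have hNb : ((3 ^ N : ℕ) : ℤ) = ((3 ^ b : ℕ) : ℤ) * ((3 ^ (N - b) : ℕ) : ℤ) := by
    rw [← Nat.cast_mul, ← pow_add, Nat.add_sub_cancel' hb]
  have hNa : ((3 ^ N : ℕ) : ℤ) = ((3 ^ a : ℕ) : ℤ) * ((3 ^ (N - a) : ℕ) : ℤ) := by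
    rw [← Nat.cast_mul, ← pow_add, Nat.add_sub_cancel' ha]
  have hbN : ((3 ^ b : ℕ) : ℤ) ∣ ((3 ^ N : ℕ) : ℤ) := ⟨_, hNb⟩
  have haN : ((3 ^ a : ℕ) : ℤ) ∣ ((3 ^ N : ℕ) : ℤ) := ⟨_, hNa⟩
  have h0b : ((3 ^ b : ℕ) : ℤ) ≠ 0 := by positivity
  have h0a : ((3 ^ a : ℕ) : ℤ) ≠ 0 := by positivity
  -- the first coordinate
  have hg4 : ∀ p : ℕ × ℕ, ((3 ^ N : ℕ) : ℤ) ∣ (g p).re - ε * (g p).im - (e1 + (3 ^ b : ℕ) * p.1) := by
    intro p
    have := dvd_sub (hg2 p) ((hg3 p).mul_left ε)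
    rwa [show (g p).re - (e1 + ((3 ^ b : ℕ) : ℤ) * p.1 + ε * (e2 + ((3 ^ a : ℕ) : ℤ) * p.2)) -
      ε * ((g p).im - (e2 + ((3 ^ a : ℕ) : ℤ) * p.2)) =
      (g p).re - ε * (g p).im - (e1 + ((3 ^ b : ℕ) : ℤ) * p.1) by ring] at this
  set R : Finset (ℕ × ℕ) := (Finset.range (3 ^ (N - b))) ×ˢ (Finset.range (3 ^ (N - a))) with hR
  have inj : ∀ p ∈ R, ∀ q ∈ R, ((3 ^ N : ℕ) : OO n t) ∣ g p - g q → p = q := by
    intro p hp q hq h
    obtain ⟨h1, h2⟩ := (dvd_co _ _ _).1 h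
    rw [hR, Finset.mem_product, Finset.mem_range, Finset.mem_range] at hp hq
    have e1' : ((3 ^ N : ℕ) : ℤ) ∣ ((3 ^ b : ℕ) : ℤ) * ((p.1 : ℤ) - q.1) := by
      have := dvd_sub (dvd_add (dvd_sub h1 (h2.mul_left ε)) (hg4 q)) (hg4 p)
      rwa [show (g p).re - (g q).re - ε * ((g p).im - (g q).im) +
        ((g q).re - ε * (g q).im - (e1 + ((3 ^ b : ℕ) : ℤ) * q.1)) -
        ((g p).re - ε * (g p).im - (e1 + ((3 ^ b : ℕ) : ℤ) * p.1)) =
        ((3 ^ b : ℕ) : ℤ) * ((p.1 : ℤ) - q.1) by ring] at this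
    have e2' : ((3 ^ N : ℕ) : ℤ) ∣ ((3 ^ a : ℕ) : ℤ) * ((p.2 : ℤ) - q.2) := by
      have := dvd_sub (dvd_add h2 (hg3 q)) (hg3 p)
      rwa [show (g p).im - (g q).im + ((g q).im - (e2 + ((3 ^ a : ℕ) : ℤ) * q.2)) -
        ((g p).im - (e2 + ((3 ^ a : ℕ) : ℤ) * p.2)) = ((3 ^ a : ℕ) : ℤ) * ((p.2 : ℤ) - q.2) by ring]
        at this
    rw [hNb] at e1'
    rw [hNa] at e2'
    exact Prod.ext (eq_of _ _ _ hp.1 hq.1 ((mul_dvd_mul_iff_left h0b).1 e1'))
      (eq_of _ _ _ hp.2 hq.2 ((mul_dvd_mul_iff_left h0a).1 e2'))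
  refine ⟨R.image g, ⟨?_, ?_, ?_⟩, ?_⟩
  · intro h hh
    obtain ⟨p, hp, rfl⟩ := Finset.mem_image.1 hh
    refine ⟨hg1 p, ?_, ?_⟩
    · have := dvd_add (hbN.trans (hg4 p))
        (Dvd.intro (p.1 : ℤ) rfl : ((3 ^ b : ℕ) : ℤ) ∣ ((3 ^ b : ℕ) : ℤ) * p.1)
      rwa [show (g p).re - ε * (g p).im - (e1 + ((3 ^ b : ℕ) : ℤ) * p.1) + ((3 ^ b : ℕ) : ℤ) * p.1 =
        (g p).re - ε * (g p).im - e1 by ring] at this
    · have := dvd_add (haN.trans (hg3 p))
        (Dvd.intro (p.2 : ℤ) rfl : ((3 ^ a : ℕ) : ℤ) ∣ ((3 ^ a : ℕ) : ℤ) * p.2)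
      rwa [show (g p).im - (e2 + ((3 ^ a : ℕ) : ℤ) * p.2) + ((3 ^ a : ℕ) : ℤ) * p.2 =
        (g p).im - e2 by ring] at this
  · rintro v ⟨-, ⟨X, hX⟩, ⟨Y, hY⟩⟩
    set K : ℕ := 3 ^ (N - b) with hK
    set L : ℕ := 3 ^ (N - a) with hL
    have hK0 : (0 : ℤ) < K := by positivity
    have hL0 : (0 : ℤ) < L := by positivity
    have m1 : ((X % K).toNat : ℤ) = X % K := Int.toNat_of_nonneg (Int.emod_nonneg _ hK0.ne')
    have m2 : ((Y % L).toNat : ℤ) = Y % L := Int.toNat_of_nonneg (Int.emod_nonneg _ hL0.ne')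
    have l1 := Int.emod_lt_of_pos X hK0
    have l2 := Int.emod_lt_of_pos Y hL0
    refine ⟨g ((X % K).toNat, (Y % L).toNat), Finset.mem_image_of_mem g ?_, ?_⟩
    · rw [hR, Finset.mem_product, Finset.mem_range, Finset.mem_range]
      constructor
      · show (X % K).toNat < K
        omega
      · show (Y % L).toNat < L
        omega
    · rw [dvd_co]
      have a1 := hg4 ((X % K).toNat, (Y % L).toNat)
      have a2 := hg3 ((X % K).toNat, (Y % L).toNat)
      simp only [m1, m2] at a1 a2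
      have b1 : ((3 ^ N : ℕ) : ℤ) ∣ v.re - ε * v.im - (e1 + ((3 ^ b : ℕ) : ℤ) * (X % K)) := by
        rw [show v.re - ε * v.im - (e1 + ((3 ^ b : ℕ) : ℤ) * (X % K)) =
          ((3 ^ b : ℕ) : ℤ) * (X - X % K) by linear_combination hX, hNb]
        exact mul_dvd_mul_left _ (Int.dvd_self_sub_emod)
      have b2 : ((3 ^ N : ℕ) : ℤ) ∣ v.im - (e2 + ((3 ^ a : ℕ) : ℤ) * (Y % L)) := by
        rw [show v.im - (e2 + ((3 ^ a : ℕ) : ℤ) * (Y % L)) = ((3 ^ a : ℕ) : ℤ) * (Y - Y % L) by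
          linear_combination hY, hNa]
        exact mul_dvd_mul_left _ (Int.dvd_self_sub_emod)
      have c2 := dvd_sub b2 a2
      rw [sub_sub_sub_cancel_right] at c2
      refine ⟨?_, c2⟩
      have c1 := dvd_sub b1 a1
      rw [sub_sub_sub_cancel_right] at c1
      have := dvd_add c1 (c2.mul_left ε)
      rwa [show ∀ x y z w : ℤ, x - ε * y - (z - ε * w) + ε * (y - w) = x - z from
        fun x y z w => by ring] at this
  · intro h hh h' hh' hd
    obtain ⟨p, hp, rfl⟩ := Finset.mem_image.1 hh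
    obtain ⟨q, hq, rfl⟩ := Finset.mem_image.1 hh'
    rw [inj p hp q hq hd]
  · rw [Finset.card_image_of_injOn, hR, Finset.card_product, Finset.card_range, Finset.card_range]
    intro p hp q hq h
    refine inj p hp q hq ?_
    rw [h, sub_self]
    exact dvd_zero _

private theorem isr_congr {N : ℕ} {C C' : OO n t → Prop} {T : Finset (OO n t)} (h : IsR N C T)
    (hc : ∀ v, C v ↔ C' v) : IsR N C' T :=
  ⟨fun v hv => (hc v).1 (h.mem v hv), fun v hv => h.ex v ((hc v).2 hv), h.uni⟩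

/-! ## `pp`-adic levels -/

private theorem ppe [Ram3 n t] (h4 : S_O4) (i : ℕ) : pp n t ^ (2 * i) = sp ((3 ^ i : ℕ) : OO n t) := by
  rw [pow_mul, pow_two, (h4 n t).2.2.1, Ideal.span_singleton_pow]
  push_cast
  rfl

private theorem mem_even [Ram3 n t] (h4 : S_O4) (v : OO n t) (i : ℕ) :
    v ∈ pp n t ^ (2 * i) ↔ ((3 ^ i : ℕ) : OO n t) ∣ v := by
  rw [ppe h4, Ideal.mem_span_singleton]

private theorem zs_zero [Ram3 n t] (h4 : S_O4) (v : OO n t) : zs v = 0 ↔ v ∈ pp n t :=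
  (h4 n t).2.2.2.2.2.2.2.2.2.2.2.2.1 v

private theorem mem_one [Ram3 n t] (h4 : S_O4) (v : OO n t) :
    v ∈ pp n t ↔ (3 : ℤ) ∣ v.re - t * v.im := by
  rw [← zs_zero h4 v]
  unfold zs
  split_ifs with h1 h2
  · constructor
    · intro h
      exact absurd h (by norm_num)
    · intro h
      omega
  · constructor
    · intro h
      exact absurd h (by norm_num)
    · intro h
      omega
  · constructor
    · intro _
      omega
    · intro _
      rfl

private theorem cop_iff [Ram3 n t] (h4 : S_O4) (v : OO n t) :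
    Cop v 3 ↔ ((3 : ℤ) ∣ v.re - t * v.im - 1 ∨ (3 : ℤ) ∣ v.re - t * v.im - (-1)) := by
  rw [(h4 n t).2.2.2.2.2.2.2.2.1 v, mem_one h4]
  omega

private theorem mem_odd [Ram3 n t] (h4 : S_O4) (v : OO n t) (i : ℕ) :
    v ∈ pp n t ^ (2 * i + 1) ↔ ((3 ^ i : ℕ) : ℤ) ∣ v.im ∧
      ((3 ^ (i + 1) : ℕ) : ℤ) ∣ v.re - t * v.im := by
  rw [pow_succ, ppe h4, Ideal.mem_span_singleton_mul]
  constructor
  · rintro ⟨z, hz, rfl⟩
    obtain ⟨c, hc⟩ := (mem_one h4 z).1 hz
    rw [re_mul, im_mul, re_nat, im_nat]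
    refine ⟨⟨z.im, by ring⟩, ⟨c, ?_⟩⟩
    push_cast at hc ⊢
    linear_combination (3 ^ i : ℤ) * hc
  · rintro ⟨⟨Y, hY⟩, ⟨c, hc⟩⟩
    refine ⟨⟨3 * c + t * Y, Y⟩, ?_, ?_⟩
    · rw [mem_one h4]
      exact ⟨c, by ring⟩
    · apply ext'
      · rw [re_mul, re_nat, im_nat]
        push_cast at hc hY ⊢
        linear_combination -hc - (t : ℤ) * hY
      · rw [im_mul, re_nat, im_nat]
        push_cast at hY ⊢
        linear_combination -hY

private theorem memj [Ram3 n t] (h4 : S_O4) (v : OO n t) (j : ℕ) :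
    v ∈ pp n t ^ j ↔ ((3 ^ ((j + 1) / 2) : ℕ) : ℤ) ∣ v.re - t * v.im ∧
      ((3 ^ (j / 2) : ℕ) : ℤ) ∣ v.im := by
  obtain ⟨i, rfl | rfl⟩ := Nat.even_or_odd' j
  · rw [show (2 * i + 1) / 2 = i by omega, show 2 * i / 2 = i by omega, mem_even h4, nat_dvd_iff]
    constructor
    · rintro ⟨h1, h2⟩
      exact ⟨dvd_sub h1 (h2.mul_left _), h2⟩
    · rintro ⟨h1, h2⟩
      have := dvd_add h1 (h2.mul_left (t : ℤ))
      rw [sub_add_cancel] at this
      exact ⟨this, h2⟩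
  · rw [show (2 * i + 1 + 1) / 2 = i + 1 by omega, show (2 * i + 1) / 2 = i by omega, mem_odd h4]
    exact and_comm

theorem tRep : S_Rep := by
  classical
  intro h4 n t _ N hN
  refine ⟨fun C => exS N C, fun C T T' h h' => le_antisymm (card_le h h') (card_le h' h),
    fun v i => mem_even h4 v i, ?_, ?_⟩
  · intro v u j hu
    constructor
    · intro h
      obtain ⟨x, y, hxy⟩ := (hu.pow_right : IsCoprime (Nm u) (((3 : ℕ) : ℤ) ^ j))
      have h2 : (3 : OO n t) ^ j ∈ pp n t ^ j :=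
        Ideal.pow_mem_pow (Ideal.subset_span (Set.mem_insert _ _)) j
      have e : v = ((x : OO n t) * cjO u) * (u * v) + ((y : OO n t) * v) * 3 ^ j := by
        have e1 := mul_cjO u
        have e2 : ((x : OO n t) * ((Nm u : ℤ) : OO n t) + (y : OO n t) * 3 ^ j) = 1 := by
          have := congrArg (fun z : ℤ => (z : OO n t)) hxy
          simpa using this
        linear_combination (-(v : OO n t)) * e2 - (x : OO n t) * v * e1
      rw [e]
      exact add_mem (Ideal.mul_mem_left _ _ h) (Ideal.mul_mem_left _ _ h2)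
    · intro h
      exact Ideal.mul_mem_left _ _ h
  · intro f _ hf
    refine ⟨?_, ?_⟩
    · intro v
      obtain ⟨v', h1, h2, h3⟩ := lift (n := n) (t := t) f N hf v.re v.im
      exact ⟨v', h1, (dvd_co _ _ _).2 ⟨h2, h3⟩⟩
    intro T hT
    have h3N : ((3 ^ N : ℕ) : OO n t) ∈ pp n t ^ (2 * N) := by rw [mem_even h4]
    refine ⟨?_, ?_⟩
    · obtain ⟨T1, h1, k1⟩ := sys (n := n) (t := t) f N 0 1 hf (Nat.zero_le _) hN (t : ℤ) 1 0
      obtain ⟨T2, h2, k2⟩ := sys (n := n) (t := t) f N 0 1 hf (Nat.zero_le _) hN (t : ℤ) (-1) 0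
      have h3N1 : ((3 ^ N : ℕ) : OO n t) ∈ pp n t :=
        Ideal.pow_le_self (by omega) h3N
      have hdis : ∀ a ∈ T1, ∀ b ∈ T2, ¬ ((3 ^ N : ℕ) : OO n t) ∣ a - b := by
        intro a ha b hb h
        have a1 := (h1.mem a ha).2.1
        have b1 := (h2.mem b hb).2.1
        rw [pow_one] at a1 b1
        obtain ⟨c, hc⟩ := h
        have h5 : a - b ∈ pp n t := by
          rw [hc]
          exact Ideal.mul_mem_right _ _ h3N1
        rw [mem_one h4, QuadraticAlgebra.re_sub, QuadraticAlgebra.im_sub] at h5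
        have h6 := dvd_sub (dvd_sub a1 b1) h5
        rw [show a.re - (t : ℤ) * a.im - 1 - (b.re - (t : ℤ) * b.im - (-1)) -
          (a.re - b.re - (t : ℤ) * (a.im - b.im)) = -2 by ring] at h6
        norm_num at h6
      have hd : Disjoint T1 T2 := by
        rw [Finset.disjoint_left]
        intro a ha hb
        exact hdis a ha a hb (by rw [sub_self]; exact dvd_zero _)
      have hun : IsR N (Un (n := n) (t := t) f) (T1 ∪ T2) := by
        refine ⟨?_, ?_, ?_⟩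
        · intro v hv
          rcases Finset.mem_union.1 hv with h | h
          · refine ⟨(h1.mem v h).1, (cop_iff h4 v).2 (Or.inl ?_)⟩
            have := (h1.mem v h).2.1
            rwa [pow_one] at this
          · refine ⟨(h2.mem v h).1, (cop_iff h4 v).2 (Or.inr ?_)⟩
            have := (h2.mem v h).2.1
            rwa [pow_one] at this
        · rintro v ⟨hv1, hv2⟩
          rcases (cop_iff h4 v).1 hv2 with h | h
          · obtain ⟨w, hw, hw2⟩ := h1.ex v ⟨hv1, by rwa [pow_one], by simp⟩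
            exact ⟨w, Finset.mem_union_left _ hw, hw2⟩
          · obtain ⟨w, hw, hw2⟩ := h2.ex v ⟨hv1, by rwa [pow_one], by simp⟩
            exact ⟨w, Finset.mem_union_right _ hw, hw2⟩
        · intro a ha b hb h
          rcases Finset.mem_union.1 ha with h3 | h3 <;> rcases Finset.mem_union.1 hb with h5 | h5
          · exact h1.uni a h3 b h5 h
          · exact absurd h (hdis a h3 b h5)
          · refine absurd ?_ (hdis b h5 a h3)
            rw [← neg_sub, dvd_neg]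
            exact h
          · exact h2.uni a h3 b h5 h
      rw [le_antisymm (card_le hT hun) (card_le hun hT), Finset.card_union_of_disjoint hd, k1, k2,
        ← pow_add, ← two_mul, show N - 1 + (N - 0) = 2 * N - 1 by omega]
    · intro h0 hh0 j hj1 hj2
      obtain ⟨T0, hT0, h1⟩ := sys (n := n) (t := t) f N (j / 2) ((j + 1) / 2) hf (by omega) (by omega)
        (t : ℤ) (h0.re - t * h0.im) h0.im
      have hlev : ∀ v : OO n t, v - h0 ∈ pp n t ^ j ↔
          ((3 ^ ((j + 1) / 2) : ℕ) : ℤ) ∣ v.re - t * v.im - (h0.re - t * h0.im) ∧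
          ((3 ^ (j / 2) : ℕ) : ℤ) ∣ v.im - h0.im := by
        intro v
        rw [memj h4, QuadraticAlgebra.re_sub, QuadraticAlgebra.im_sub,
          show v.re - h0.re - t * (v.im - h0.im) = v.re - t * v.im - (h0.re - t * h0.im) by ring]
      have hU0 := hT.mem h0 hh0
      have hun : ∀ v : OO n t, (f : OO n t) ∣ v - 1 → v - h0 ∈ pp n t ^ j → Un f v := by
        intro v hv hv2
        refine ⟨hv, ?_⟩
        have a1 := (cop_iff h4 h0).1 hU0.2
        have a2 := (mem_one h4 _).1 (Ideal.pow_le_self (by omega) hv2)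
        rw [QuadraticAlgebra.re_sub, QuadraticAlgebra.im_sub] at a2
        rw [cop_iff h4]
        rcases a1 with a1 | a1
        · left
          have := dvd_add a2 a1
          rwa [show v.re - h0.re - (t : ℤ) * (v.im - h0.im) + (h0.re - (t : ℤ) * h0.im - 1) =
            v.re - t * v.im - 1 by ring] at this
        · right
          have := dvd_add a2 a1
          rwa [show v.re - h0.re - (t : ℤ) * (v.im - h0.im) + (h0.re - (t : ℤ) * h0.im - (-1)) =
            v.re - t * v.im - (-1) by ring] at this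
      have h2N : ((3 ^ N : ℕ) : OO n t) ∈ pp n t ^ j := Ideal.pow_le_pow_right hj2 h3N
      have h2 : IsR N (Cj f (j / 2) ((j + 1) / 2) (t : ℤ) (h0.re - t * h0.im) h0.im)
          (T.filter (fun h => h - h0 ∈ pp n t ^ j)) := by
        refine ⟨?_, ?_, ?_⟩
        · intro v hv
          obtain ⟨hv1, hv2⟩ := Finset.mem_filter.1 hv
          exact ⟨(hT.mem v hv1).1, (hlev v).1 hv2⟩
        · rintro v ⟨hv1, hv2⟩
          have hv3 := (hlev v).2 hv2
          obtain ⟨w, hw, hw2⟩ := hT.ex v (hun v hv1 hv3)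
          refine ⟨w, Finset.mem_filter.2 ⟨hw, ?_⟩, hw2⟩
          obtain ⟨c, hc⟩ := hw2
          have h3 : v - w ∈ pp n t ^ j := by
            rw [hc]
            exact Ideal.mul_mem_right _ _ h2N
          have := sub_mem hv3 h3
          rwa [sub_sub_sub_cancel_left] at this
        · intro a ha b hb h
          exact hT.uni a (Finset.mem_filter.1 ha).1 b (Finset.mem_filter.1 hb).1 h
      rw [le_antisymm (card_le h2 hT0) (card_le hT0 h2), h1, ← pow_add]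
      congr 1
      omega

end Pool.Agent.DM.DU.GL
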