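import Pool.Agent.Lib.DU.GL.SpecB

/-!
# Theorem DU, part GL, module Res: the cube root and `τ` (helper36)
-/

set_option autoImplicit false

open scoped Pointwise

noncomputable section

namespace Pool.Agent.DM.DU.GL

open Pool.Agent.MuZ Pool.Agent.FW Pool.Agent.DN Pool.Agent.DM Pool.Agent.DM.DU
open Pool.Agent.DI (io ofC io_inj exists_io io_ofC ofC_io VP MP UP TP ex)
open Pool.Agent.DI.GL (Fx StP mem_of_Fx Fx.mul Fx.inv Fx.one)
open Pool.Agent.DT (kap cbr)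
open Pool.Agent.DM.GL (GE vP pl pH IsR Un Sit3)
open Pool.Agent.DL (vl Pl Fi Fp Cn Cf dl Gen Dr LD)

variable {n t : ℕ}

theorem tRes : S_Res := by
  intro cn der ldr fix rt o4 e9 hd pi sur gen mnf cu situ n t _ P hP f N z0 d hPt hN SH hSH τ hτ hτζ r
    hr w hw hkap y hLD
  have hPp : P.IsPrime := hP.1.1
  have h2 : Pl P 3 := pl hP
  have hfok := hPt.fok
  have hN1 : 1 ≤ N := by omega
  have hsit := situ n t P hP f hfok
  obtain ⟨S, hS, hG0, hq0, hq⟩ := gen0 gen hP hPt.toPt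
  have hW : VP P (vO (⊤ : Ideal (OO n t)) (z0 + d)) := by
    have h3 := ((pi n t P hP f N z0 d hPt.toPt).1 1 (un_one (n := n) (t := t) f).2).2.2.2.2.2.2
    rw [toC_one, one_mul] at h3
    exact h3.1
  obtain ⟨hm1, -, hd0, hd1⟩ := genH gen hP hPt.toPt (fun h hh => hn_un o4 (f := f) (N := N) h hh)
    (hn_one f N) hSH
  obtain ⟨mnf1, -, mnf3⟩ := mnf n t P hP f hfok
  -- FACT F
  have factF : ∀ x ∈ Mn n t f N, VP P x → Fp (II n t P) (pH z0 d (1 : OO n t)) x ∧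
      ∃ x' : Om, Dn n t P N z0 d x x' ∧ GE P (dv n t P z0 d SH) x' := by
    intro x hx hxV
    have hFp := mnf3 N z0 d hPt.toPt x hx
    obtain ⟨x', hx'⟩ := (der P 3 2 _ S _ hG0 _ _ hq0 hq hW).2.2.2.2.2.2.2.1 x hFp hxV
    refine ⟨hFp, x', hx', ?_⟩
    exact fix P 3 2 _ S _ hG0 _ (dv n t P z0 d SH) _ SH hW hm1 hd0 hd1 le_rfl _ _ hx'
      (fun r hr => by
        obtain ⟨h, hh, rfl⟩ := (hSH r).1 hr
        have hun := hn_un o4 (f := f) (N := N) h hh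
        obtain ⟨σ, hσ⟩ := sur n t P hP f N hfok hN1 h hun.1 hun.2
        exact ⟨σ, hσ.mem, (((gen n t P hP f N z0 d hPt.toPt).2.2.2 f hfok (dvd_refl f)).1 h σ hσ).1,
          mnf1 f N h σ hN1 hfok (dvd_refl f) hσ hh _ hx⟩)
  -- the root of unity
  have hne : NeZero (3 ^ N) := ⟨(pow_pos (by norm_num) N).ne'⟩
  have hne' : NeZero ((3 ^ N : ℕ) : Om) := ⟨by
    rw [Nat.cast_ne_zero]
    exact hne.out⟩
  obtain ⟨ζ, hζ⟩ := HasEnoughRootsOfUnity.exists_primitiveRoot Om (3 ^ N)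
  have hζM : ζ ∈ Mn n t f N := mem_of_Fx fun τ hτ => ((hsit.lnx N ζ hN1 hζ τ).1 hτ).2
  have hζ0 : ζ ≠ 0 := hζ.ne_zero hne.out
  obtain ⟨j, hj⟩ := cu (Mf n t f) (Mn n t f) P hsit N hN1 ζ hζ w hw hLD.1 hkap
  obtain ⟨r0, hr0L, hr0V, s0, hs0V, hs0⟩ := hj N
  have h3n : (3 : Om) ^ N ≠ 0 := pow_ne_zero _ three_ne_zero
  have h3L : (3 : Om) ^ N ∈ Mn n t f N := pow_mem (ofNat_mem _ 3) _
  have h5f : 5 ∣ f := dvd_trans (by norm_num) hfok.dvd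
  have hf0 : 0 < f := hfok.pos
  have hst : ∀ x ∈ Mn n t f N, τ x ∈ Mn n t f N :=
    fun x hx => (e9 n t f hf0 h5f).2.1 N τ hN1 x hx
  have hs0' : w * ζ ^ j - r0 ^ 3 = 3 ^ N * s0 := by
    rw [hs0]
  have hs0L : s0 ∈ Mn n t f N := by
    have e1 : s0 = (w * ζ ^ j - r0 ^ 3) / 3 ^ N := by
      rw [hs0', mul_div_cancel_left₀ _ h3n]
    rw [e1]
    exact div_mem (sub_mem (mul_mem hw (pow_mem hζM j)) (pow_mem hr0L 3)) h3L
  have hζτ : ζ ^ j * τ ζ ^ j = 1 := by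
    rw [hτζ ζ hζ.pow_eq_one, ← mul_pow, mul_inv_cancel₀ hζ0, one_pow]
  have hτs0 : τ w * τ ζ ^ j - τ r0 ^ 3 = 3 ^ N * τ s0 := by
    have h3 := congrArg τ hs0'
    rw [map_sub, map_mul, map_mul, map_pow, map_pow, map_pow, map_ofNat] at h3
    exact h3
  obtain ⟨s, hs⟩ : ∃ s : Om, s = s0 * τ r0 ^ 3 + r0 ^ 3 * τ s0 + 3 ^ N * (s0 * τ s0) := ⟨_, rfl⟩
  have h3V : VP P (3 : Om) := by exact_mod_cast DI.VP.nat (P := P) 3
  have hτr0V : VP P (τ r0) := DI.VP.inertia_vp hτ hr0V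
  have hτs0V : VP P (τ s0) := DI.VP.inertia_vp hτ hs0V
  have hsV : VP P s := by
    rw [hs]
    exact ((hs0V.mul (hτr0V.pow 3)).add ((hr0V.pow 3).mul hτs0V)).add
      ((h3V.pow _).mul (hs0V.mul hτs0V))
  have hsL : s ∈ Mn n t f N := by
    rw [hs]
    exact add_mem (add_mem (mul_mem hs0L (pow_mem (hst _ hr0L) 3))
      (mul_mem (pow_mem hr0L 3) (hst _ hs0L))) (mul_mem h3L (mul_mem hs0L (hst _ hs0L)))
  have hmain : w * τ w * 1 = (r0 * τ r0) ^ 3 + ((3 : ℕ) : Om) ^ N * s := by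
    rw [Nat.cast_ofNat, hs]
    linear_combination (τ w * τ ζ ^ j) * hs0' + (r0 ^ 3 + 3 ^ N * s0) * hτs0 - (w * τ w) * hζτ
  obtain ⟨hFps, -⟩ := factF s hsL hsV
  obtain ⟨-, yu, hyu, hGyu⟩ := factF (r0 * τ r0) (mul_mem hr0L (hst _ hr0L)) (hr0V.mul hτr0V)
  have hone : Cn P (II n t P) (1 : Om) := ⟨DI.VP.one, fun σ _ => map_one σ⟩
  have hyc : Dn n t P N z0 d 1 0 := (der P 3 2 _ S _ hG0 _ _ hq0 hq hW).2.2.2.1 1 hone
  have hLD2 := (ldr P 3 2 _ S _ hG0 _ _ hq0 hq hW).2.1 _ _ _ _ hLD (hr w y hLD)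
  have hU1 : UP P (1 : Om) := DI.UP.one
  have hv1 : vl P 3 (1 : Om) = 0 := DL.vl_of_up h2 hU1
  -- numbers
  obtain ⟨SM, hSM⟩ := genE gen hP hPt.toPt (fun h hh => hm_un (f := f) (N := N) h hh) (hm_one f N)
  obtain ⟨SH2, hSH2⟩ := genE gen hP hPt.toPt (fun h hh => hs_un o4 (f := f) (N := N) h hh)
    (hs_one f N)
  have hD2 := (hd n t P hP f N z0 d hPt.toPt hN SM SH SH2 hSM hSH hSH2).1
  have hN' : (4 : ℚ) ≤ N := by exact_mod_cast hN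
  have hrt := rt P 3 2 _ S _ hG0 _ _ hq0 hq hW Nat.prime_three (w * τ w) (y + r * τ y) 1 0
    (r0 * τ r0) yu s (dv n t P z0 d SH) N hLD2 one_ne_zero DI.VP.one hyc hyu hFps hsV
    hGyu hmain (by rw [hv1]; linarith)
  have e0 : y + r * τ y + 0 / 1 = y + r * τ y := by rw [zero_div, add_zero]
  rw [hv1, e0] at hrt
  have hD2' : dv n t P z0 d SH ≤ 2 := hD2
  refine hrt.mono (le_min ?_ (le_min ?_ ?_))
  · push_cast
    linarith
  · linarith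
  · linarith

end Pool.Agent.DM.DU.GL
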