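import Pool.Agent.Lib.DU.GL.SpecB

/-!
# Theorem DU, part GL, module `SitU`: the abstract tower applies (helper66)
-/

set_option autoImplicit false

open scoped Pointwise

noncomputable section

namespace Pool.Agent.DM.DU.GL

open Pool.Agent.MuZ Pool.Agent.FW Pool.Agent.DN Pool.Agent.DM Pool.Agent.DM.DU
open Pool.Agent.DI (io ofC io_inj exists_io io_ofC ofC_io VP MP UP TP ex)
open Pool.Agent.DI.GL (Fx StP mem_of_Fx Fx.mul Fx.inv Fx.one)
open Pool.Agent.DT (kap cbr)
open Pool.Agent.DM.GL (GE vP pl pH IsR Un Sit3)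
open Pool.Agent.DL (vl Pl Fi Fp Cn Cf dl Gen Dr LD)

variable {n t : ℕ}

private theorem situ_pwm {z : Om} {M a b : ℕ} (hz : z ^ M = 1) (h : a ≡ b [MOD M]) :
    z ^ a = z ^ b := by
  have h1 : a ≡ b [MOD orderOf z] := h.of_dvd (orderOf_dvd_of_pow_eq_one hz)
  rw [← pow_mod_orderOf z a, ← pow_mod_orderOf z b]
  exact congrArg _ h1

/-- Square roots modulo powers of three. -/
private theorem situ_sq (u : ℕ) (hu : u % 3 = 1) (j : ℕ) :
    ∃ s : ℤ, (3 : ℤ) ^ (j + 1) ∣ s ^ 2 - u ∧ (3 : ℤ) ∣ s - 1 := by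
  induction j with
  | zero =>
    refine ⟨1, ?_, ?_⟩
    · norm_num
      omega
    · norm_num
  | succ j ih =>
    obtain ⟨s, ⟨c, hc⟩, e, he⟩ := ih
    refine ⟨s + 3 ^ (j + 1) * c, ⟨c * (2 * e + 1) + 3 ^ j * c ^ 2, ?_⟩, e + 3 ^ j * c, ?_⟩
    · have hs : s = 1 + 3 * e := by linarith
      have e1 : (s + 3 ^ (j + 1) * c) ^ 2 - (u : ℤ) = (s ^ 2 - u) + 2 * 3 ^ (j + 1) * c * s +
          3 ^ (j + 1) * 3 ^ (j + 1) * c ^ 2 := by
        ring
      rw [e1, hc, hs]
      ring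
    · rw [pow_succ]
      linear_combination he

/-- Lifting modulo `f` and `3 ^ N`. -/
private theorem situ_lift {f : ℕ} (N : ℕ) (hf : f.Coprime 3) (u : ℤ) :
    ∃ u' : ℤ, (3 : ℤ) ^ N ∣ u' - u ∧ (f : ℤ) ∣ u' - 1 := by
  have hcop : Nat.Coprime f (3 ^ N) := Nat.Coprime.pow_right N hf
  obtain ⟨x, y, h⟩ := Nat.isCoprime_iff_coprime.2 hcop
  push_cast at h
  refine ⟨x * f * u + y * 3 ^ N, ?_, ?_⟩
  · exact ⟨y * (1 - u), by linear_combination u * h⟩
  · exact ⟨x * (u - 1), by linear_combination h⟩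

theorem tSitU : S_SitU := by
  intro hGM hAct hSur hMnf n t _ P hP f hf
  have hG := hGM n t f hf
  obtain ⟨-, hM2, -⟩ := hMnf n t P hP f hf
  exact {
    prime := hP.1.1
    three := hP.2
    iul := by
      intro m u hu
      obtain ⟨s0, hs0, hs3⟩ := situ_sq u hu m
      obtain ⟨s, hs1, hs2⟩ := situ_lift (m + 1) hf.cop s0
      have hs : (3 : ℤ) ^ (m + 1) ∣ s ^ 2 - u := by
        have e : s ^ 2 - (u : ℤ) = (s - s0) * (s + s0) + (s0 ^ 2 - u) := by ring
        rw [e]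
        exact dvd_add (hs1.mul_right _) hs0
      have hs31 : (3 : ℤ) ∣ s - 1 := by
        have e : s - 1 = (s - s0) + (s0 - 1) := by ring
        rw [e]
        exact dvd_add ((dvd_pow_self 3 (Nat.succ_ne_zero m)).trans hs1) hs3
      have hone : (f : OO n t) ∣ (s : OO n t) - 1 := by
        obtain ⟨c, hc⟩ := hs2
        exact ⟨c, by exact_mod_cast congrArg (fun x : ℤ => (x : OO n t)) hc⟩
      have hthree : (3 : OO n t) ∣ (s : OO n t) - 1 := by
        obtain ⟨c, hc⟩ := hs31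
        exact ⟨c, by exact_mod_cast congrArg (fun x : ℤ => (x : OO n t)) hc⟩
      have hcop : Cop (s : OO n t) 3 := by
        unfold Cop
        rw [Nm_int]
        obtain ⟨c, hc⟩ := hs31
        refine ⟨1, -(c * (s + 1)), ?_⟩
        push_cast
        linear_combination (s + 1) * hc
      obtain ⟨ι, hι⟩ := hSur n t P hP f (m + 1) hf (by omega) (s : OO n t) hone hcop
      refine ⟨ι, hι.mem.1, ?_, fun z hz => ?_⟩
      · exact hM2 (m + 1) _ ι (by omega) hι hthree
      · have hz' : z ^ 3 ^ (m + 1) = 1 := by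
          rw [pow_succ, pow_mul, hz, one_pow]
        obtain ⟨h6, -⟩ := hAct n t P hP f (m + 1) _ ι hf (by omega) hι
        rw [h6 z hz']
        refine situ_pwm hz' ?_
        rw [Nat.modEq_iff_dvd, Nm_int, Int.toNat_of_nonneg (sq_nonneg s)]
        push_cast
        rw [← neg_sub]
        exact (dvd_neg).2 hs
    lnx := by
      intro N ζ hN hζ τ
      exact hG.2.2.2.2.2.2.2 N hN ζ hζ τ }

end Pool.Agent.DM.DU.GL
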