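import Pool.Agent.Lib.DU.GL.Spec

/-!
# Theorem DU, part GL, module T0a: valuations of constants (`3` ramified), fourth roots of unity
-/

set_option autoImplicit false

open scoped Pointwise

noncomputable section

namespace Pool.Agent.DM.DU.GL

open Pool.Agent.MuZ Pool.Agent.FW Pool.Agent.DN Pool.Agent.DM Pool.Agent.DM.DU
open Pool.Agent.DI (io ofC io_inj exists_io io_ofC ofC_io VP MP UP TP ex)
open Pool.Agent.DT (kap cbr)
open Pool.Agent.DM.GL (GE vP pl pH IsR Un)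
open Pool.Agent.DL (vl Pl Fi Fp Cn Cf dl Gen Dr LD)

variable {n t : ℕ}

private theorem T0a_w4 : w4 ^ 4 = 3 := by
  have h : ∃ y : Om, y ^ 4 = 3 := IsAlgClosed.exists_pow_nat_eq (3 : Om) (by norm_num : 0 < 4)
  unfold w4
  rw [dif_pos h]
  exact h.choose_spec

private theorem T0a_vp {P : Ideal ZZ} [P.IsPrime] {y : Om} (hy : y ^ 4 = 1) : UP P y := by
  refine DI.UP.of_pow (n := 4) (by norm_num) ?_
  rw [hy]
  exact DI.UP.one

private theorem T0a_one {P : Ideal ZZ} [P.IsPrime] (h3 : MP P 3) {y : Om} (hy : y ^ 4 = 1)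
    (hM : MP P (y - 1)) : y = 1 := by
  by_contra hne
  have hne' : y - 1 ≠ 0 := sub_ne_zero.2 hne
  have h1 : y ^ 3 + y ^ 2 + y + 1 = 0 := by
    apply mul_left_cancel₀ hne'
    linear_combination hy
  have hV : VP P y := (T0a_vp hy).1
  have h2 : MP P ((y - 1) * (y ^ 2 + 2 * y + 3)) := by
    refine DI.MP.mul_right hM (DI.VP.add (DI.VP.add (DI.VP.pow hV 2) (DI.VP.mul ?_ hV)) h3.vp)
    exact_mod_cast DI.VP.nat (P := P) 2
  have h4 : MP P (-((y - 1) * (y ^ 2 + 2 * y + 3)) - 3) := DI.MP.sub h2.neg h3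
  have e : -((y - 1) * (y ^ 2 + 2 * y + 3)) - 3 = 1 := by
    linear_combination -h1
  rw [e] at h4
  exact DI.MP.one_not h4

private theorem T0a_fix {P : Ideal ZZ} [P.IsPrime] (h3 : MP P 3) {y : Om} (hy : y ^ 4 = 1)
    {τ : Gal(Om/ℚ)} (hτ : τ ∈ P.inertia Gal(Om/ℚ)) : τ y = y := by
  have hU := T0a_vp (P := P) hy
  have h0 := DI.UP.ne_zero hU
  have h4 : (τ y / y) ^ 4 = 1 := by
    rw [div_pow, ← map_pow, hy, map_one, div_one]
  have h5 : MP P (τ y / y - 1) := by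
    have e : τ y / y - 1 = (τ y - y) * y⁻¹ := by
      field_simp
    rw [e]
    exact DI.MP.mul_right (DI.VP.inertia hτ hU.1) hU.inv.1
  have h6 := T0a_one h3 h4 h5
  rwa [div_eq_one_iff_eq h0] at h6

private theorem T0a_int {P : Ideal ZZ} [P.IsPrime] (h3 : MP P 3) (k : ℤ) (hk : ¬ (3 : ℤ) ∣ k) :
    UP P (k : Om) := by
  refine ⟨DI.VP.int k, fun h => ?_⟩
  have hco : IsCoprime k 3 := by
    rcases Int.isCoprime_iff_gcd_eq_one.1 ((Int.prime_three.coprime_iff_not_dvd (n := k)).2 hk) with h4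
    exact (Int.isCoprime_iff_gcd_eq_one.2 h4).symm
  obtain ⟨x, y, hxy⟩ := hco
  have h5 : MP P ((x : Om) * (k : Om) + (y : Om) * 3) :=
    (DI.MP.mul_left (DI.VP.int x) h).add (DI.MP.mul_left (DI.VP.int y) h3)
  have h6 := congrArg (Int.cast : ℤ → Om) hxy
  push_cast at h6
  rw [h6] at h5
  exact DI.MP.one_not h5

private theorem T0a_up [SqN n t] {P : Ideal ZZ} [P.IsPrime] (h3 : MP P 3) (v : OO n t)
    (hv : ¬ (3 : ℤ) ∣ Nm v) : UP P (toO v) := by
  refine ⟨toO_VP v, fun h => (T0a_int h3 _ hv).2 ?_⟩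
  have h4 : MP P (toO v * toO (cjO v)) := DI.MP.mul_right h (toO_VP _)
  rw [← toO_mul, mul_cjO, toO_int] at h4
  exact h4

private theorem T0a_zs : zs (1 : OO n t) = 1 := by
  unfold zs
  have h : (3 : ℤ) ∣ (1 : OO n t).re - t * (1 : OO n t).im - 1 := by
    rw [re_one, im_one]
    simp
  rw [if_pos h]

theorem tT0a : S_T0a := by
  intro O4
  have hw := T0a_w4
  have w0 : w4 ≠ 0 := by
    intro h0
    rw [h0] at hw
    norm_num at hw
  refine ⟨hw, w0, fun P hP => ?_, fun n t _ P hP => ?_⟩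
  · have hPp : P.IsPrime := hP.1.1
    refine ⟨?_, (DI.MP.of_pow (n := 4) (by rw [hw]; exact hP.2)).vp, fun y hy =>
      ⟨T0a_vp hy, T0a_one hP.2 hy, fun τ hτ => T0a_fix hP.2 hy hτ⟩⟩
    have h : UP P (w4 ^ 4 / ((3 : ℕ) : Om) ^ (1 : ℤ)) := by
      rw [zpow_one, hw, Nat.cast_ofNat, div_self (by norm_num)]
      exact DI.UP.one
    have h1 := DL.vl_eq (pl hP) (by norm_num) h
    refine h1.trans ?_
    norm_num
  have hPp : P.IsPrime := hP.1.1
  have h3 : MP P 3 := hP.2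
  obtain ⟨hpr, -, -, -, hsq, -, -, ⟨D', hD, hco⟩, hc1, hc2, -, hz1, hz0, hz3, -, hzc, -, -, -⟩ := O4 n t
  have hsq' : toO (sD n t) ^ 2 = -(3 * (D' : Om)) := by
    rw [pow_two, ← toO_mul, hsq, hD]
    have e1 : (-((3 * D' : ℕ) : OO n t)) = (((-(3 * D' : ℕ) : ℤ)) : OO n t) := by push_cast; ring
    rw [e1, toO_int]
    push_cast
    ring
  have hD'u : UP P (D' : Om) := by
    have h := T0a_int h3 (D' : ℤ) (by
      intro hd
      have hd' : 3 ∣ D' := by exact_mod_cast hd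
      have := Nat.eq_one_of_dvd_coprimes hco hd' dvd_rfl
      omega)
    exact_mod_cast h
  have hq : toO (sD n t) ^ 2 / 3 = -(D' : Om) := by
    rw [hsq']
    field_simp
  have hs0 : toO (sD n t) ≠ 0 := by
    intro h
    rw [h] at hsq'
    have h5 : (D' : Om) = 0 := by linear_combination (1 / 3 : Om) * hsq'
    exact hD'u.ne_zero h5
  have hsv : vP P (toO (sD n t)) = 1 / 2 := by
    have h : UP P (toO (sD n t) ^ 2 / ((3 : ℕ) : Om) ^ (1 : ℤ)) := by
      rw [zpow_one, Nat.cast_ofNat, hq]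
      exact hD'u.neg
    have h1 := DL.vl_eq (pl hP) (by norm_num) h
    refine h1.trans ?_
    norm_num
  have hpp : ∀ v ∈ pp n t, GE P (1 / 2) (toO v) := by
    intro v hv
    obtain ⟨a, b, rfl⟩ := Ideal.mem_span_pair.1 hv
    have e3 : toO (3 : OO n t) = 3 := by
      have := toO_nat (n := n) (t := t) 3
      exact_mod_cast this
    rw [toO_add, toO_mul, toO_mul, e3]
    have g3 : DL.GE P 3 (1 / 2) (3 : Om) := by
      have h5 : DL.GE P 3 1 ((3 : ℕ) : Om) := Or.inr (DL.vl_two (pl hP)).ge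
      rw [Nat.cast_ofNat] at h5
      exact h5.mono (by norm_num)
    exact (g3.mul_left (pl hP) (toO_VP a)).add (pl hP)
      (DL.GE.mul_left (pl hP) (toO_VP b) (Or.inr hsv.ge))
  have hzz : ∀ v : OO n t, GE P (1 / 2) (toO v - zs v) := by
    intro v
    have h5 := hpp _ (hz1 v)
    rwa [toO_sub, toO_int] at h5
  refine ⟨by rw [hq]; exact hD'u.neg, hs0, hsv, fun v hv => T0a_up h3 v ((hc2 v).1 hv), hpp,
    fun v => ⟨?_, hzz v⟩, fun v hv => ⟨?_, fun h => ?_, fun h => ?_⟩⟩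
  · have h5 := DL.GE.div (pl hP) (hzz v) hs0
    have e : (1 / 2 : ℚ) - DL.vl P 3 (toO (sD n t)) = 0 := by
      rw [show DL.vl P 3 (toO (sD n t)) = 1 / 2 from hsv]
      norm_num
    rw [e] at h5
    exact (DL.GE.vp_iff (pl hP)).1 h5
  · rcases hz3 v with h | h | h
    · exact Or.inl h
    · exact Or.inr h
    · exact absurd ((hz0 v).1 h) ((hc1 v).1 hv)
  · have h5 := hz1 v
    rw [h, Int.cast_one] at h5
    exact h5
  · rw [hzc v 1 h, T0a_zs]

end Pool.Agent.DM.DU.GL
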