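import Pool.Agent.Lib.DU.GL.Spec

/-!
# Theorem DU, part GL, module T0g: the interface statement `S_T0`
-/

set_option autoImplicit false

open scoped Pointwise

noncomputable section

namespace Pool.Agent.DM.DU.GL

open Pool.Agent.MuZ Pool.Agent.FW Pool.Agent.DN Pool.Agent.DM Pool.Agent.DM.DU
open Pool.Agent.DI (io ofC io_inj exists_io io_ofC ofC_io VP MP UP TP ex)
open Pool.Agent.DT (kap cbr)
open Pool.Agent.DM.GL (GE vP pl pH IsR Un)
open Pool.Agent.DL (vl Pl Fi Fp Cn Cf dl Gen Dr LD)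

variable {n t : ℕ}

private theorem T0g_sD : toO (sD n t) = 2 * wO n t - t := by
  rw [toO_apply]
  simp only [sD]
  push_cast
  ring

private theorem T0g_GK {τ : Gal(Om/ℚ)} : τ ∈ GK n t ↔ τ (toO (sD n t)) = toO (sD n t) := by
  constructor
  · intro h
    exact GK_toO h _
  · intro h
    rw [T0g_sD, map_sub, map_mul, map_ofNat, map_natCast] at h
    refine mem_GK_iff.2 ?_
    linear_combination (1 / 2 : Om) * h

theorem tT0g : S_T0g := by
  intro K0 O4 hT0a
  obtain ⟨hw, -, -, hT⟩ := hT0a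
  refine ⟨hw, fun n t _ P hP => ?_⟩
  have hPp : P.IsPrime := hP.1.1
  obtain ⟨hqU, hs0, hsv, -, -, hzs, -⟩ := hT n t P hP
  obtain ⟨-, -, -, -, hsq, -⟩ := O4 n t
  have hsq' : toO (sD n t) ^ 2 = -(Dk n t : Om) := by
    rw [pow_two, ← toO_mul, hsq]
    have e1 : (-(Dk n t : OO n t)) = (((-(Dk n t : ℕ) : ℤ)) : OO n t) := by push_cast; ring
    rw [e1, toO_int]
    push_cast
    ring
  refine ⟨hqU, ?_, fun v => (hzs v).1, fun ζ hζ τ hτ => ?_⟩
  · by_contra hcon
    push Not at hcon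
    obtain ⟨j, hj⟩ := K0 P 3 hPp Nat.prime_three (pl hP) (toO (sD n t))
      (fun τ hτ => GK_toO (hcon τ hτ) _) hs0
    have h0 : (1 / 2 : ℚ) = j := hsv.symm.trans hj
    have h1 : (1 : ℚ) = 2 * j := by linarith
    have h2 : (1 : ℤ) = 2 * j := by exact_mod_cast h1
    omega
  by_cases hζ1 : ζ = 1
  · exact Or.inr hζ1
  left
  have hne : ζ - 1 ≠ 0 := sub_ne_zero.2 hζ1
  have hcy : ζ ^ 2 + ζ + 1 = 0 := by
    apply mul_left_cancel₀ hne
    linear_combination hζ
  have hs3 : (2 * ζ + 1) ^ 2 = -3 := by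
    linear_combination 4 * hcy
  have hsn : 2 * ζ + 1 ≠ 0 := by
    intro h
    rw [h] at hs3
    norm_num at hs3
  obtain ⟨δ, hδ⟩ : ∃ δ : Om, δ = (2 * ζ + 1) * toO (sD n t) / 3 := ⟨_, rfl⟩
  have hδ2 : δ ^ 2 = -(toO (sD n t) ^ 2 / 3) := by
    rw [hδ]
    linear_combination (toO (sD n t) ^ 2 / 9) * hs3
  have hδU : UP P δ := by
    refine DI.UP.of_pow (n := 2) (by norm_num) ?_
    rw [hδ2]
    exact hqU.neg
  have hfix : (τ δ) ^ 2 = δ ^ 2 := by
    rw [← map_pow, hδ2, hsq', map_neg, map_div₀, map_neg, map_natCast, map_ofNat]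
  have hτδ : τ δ = δ := by
    rcases sq_eq_sq_iff_eq_or_eq_neg.1 hfix with h1 | h1
    · exact h1
    · exfalso
      have h3 := DI.VP.inertia hτ hδU.1
      rw [h1] at h3
      have h4 : MP P (-δ - δ) := h3
      have e : -δ - δ = -(2 * δ) := by ring
      rw [e] at h4
      have h5 := h4.neg
      rw [neg_neg] at h5
      rcases DI.MP.mul_cases (DI.VP.nat 2) hδU.1 (by exact_mod_cast h5) with h6 | h6
      · have h7 := DI.MP.sub hP.2 h6
        have e2 : (3 : Om) - ((2 : ℕ) : Om) = 1 := by norm_num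
        rw [e2] at h7
        exact DI.MP.one_not h7
      · exact hδU.2 h6
  have hτ3 : (2 * τ ζ + 1) * τ (toO (sD n t)) = (2 * ζ + 1) * toO (sD n t) := by
    have h := hτδ
    rw [hδ, map_div₀, map_mul, map_add, map_mul, map_ofNat, map_one, map_ofNat] at h
    linear_combination 3 * h
  rw [T0g_GK]
  constructor
  · intro h
    rw [h] at hτ3
    have h4 := mul_right_cancel₀ hs0 hτ3
    linear_combination (1 / 2 : Om) * h4
  · intro h
    rw [h] at hτ3
    exact mul_left_cancel₀ hsn hτ3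

end Pool.Agent.DM.DU.GL
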