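import Pool.Agent.Lib.DU.GL.Spec

/-!
# Theorem DU, part GL, module T1g: the interface statement `S_T1`
-/

set_option autoImplicit false

open scoped Pointwise

noncomputable section

namespace Pool.Agent.DM.DU.GL

open Pool.Agent.MuZ Pool.Agent.FW Pool.Agent.DN Pool.Agent.DM Pool.Agent.DM.DU
open Pool.Agent.DI (io ofC io_inj exists_io io_ofC ofC_io VP MP UP TP ex)
open Pool.Agent.DT (kap cbr)
open Pool.Agent.DM.GL (GE vP pl pH IsR Un)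
open Pool.Agent.DL (vl Pl Fi Fp Cn Cf dl Gen Dr LD)

/-- **T1g.** -/
theorem tT1g : S_T1g := by
  intro hIn hSur hTc n t _ P hP F0 N hF hN
  obtain ⟨-, -, -, hIn0⟩ := hIn n t P hP
  obtain ⟨i1, -⟩ := hIn0 F0 N hF hN
  refine ⟨fun σ hσ hK => ?_, fun α hα hα3 => ?_, fun σ hσ hK α hα hα3 hψ =>
    (hTc n t P hP).1 F0 N α σ hF hN ⟨Subgroup.mem_inf.2 ⟨hσ, hK⟩, hα, hα3, hψ⟩⟩
  · obtain ⟨h, hh⟩ := i1 σ (Subgroup.mem_inf.2 ⟨hσ, hK⟩)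
    exact ⟨h, hh.one, hh.cop, hh.psi⟩
  · obtain ⟨τ, hτ⟩ := hSur n t P hP F0 N hF hN α hα hα3
    have h2 := Subgroup.mem_inf.1 hτ.mem
    exact ⟨τ, h2.1, h2.2, hτ.psi⟩

end Pool.Agent.DM.DU.GL
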