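import Pool.Agent.Lib.DU.GL.Spec

/-!
# Theorem DU, part GL, module T2g: statement `S_T2` of the interface (the trace over all classes)
-/

set_option autoImplicit false

open scoped Pointwise

noncomputable section

namespace Pool.Agent.DM.DU.GL

open Pool.Agent.MuZ Pool.Agent.FW Pool.Agent.DN Pool.Agent.DM Pool.Agent.DM.DU
open Pool.Agent.DI (io ofC io_inj exists_io io_ofC ofC_io VP MP UP TP ex)
open Pool.Agent.DT (kap cbr)
open Pool.Agent.DM.GL (GE vP pl pH IsR Un)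
open Pool.Agent.DL (vl Pl Fi Fp Cn Cf dl Gen Dr LD)

variable {n t : ℕ}

private theorem T2g_sp_one : sp (1 : OO n t) = (⊤ : Ideal (OO n t)) := Ideal.span_singleton_one

private theorem T2g_pt [Ram3 n t] {f N : ℕ} (hf : Fok f) (hN : 1 ≤ N) :
    Pt n t f N (1 / f) (1 / (3 ^ N : ℕ)) where
  fok := hf
  pos := hN
  z := one_div_lam _ hf.pos
  zn := by
    intro h
    have h1 := (aL6.1 n t (⊤ : Ideal (OO n t)) f top_ne_bot hf.pos (by unfold PrI; rw [top_sup_eq])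
      ((2 : ℕ) : OO n t)).1 (by
        rw [toC_nat, div_eq_mul_one_div]
        exact_mod_cast h)
    rw [nat_dvd_iff] at h1
    obtain ⟨h2, -⟩ := h1
    rw [re_nat] at h2
    have h3 : f ∣ 2 := by exact_mod_cast h2
    have h4 := Nat.le_of_dvd two_pos h3
    have h5 := Nat.le_of_dvd hf.pos hf.dvd
    omega
  dd := by
    have h := one_div_lam (⊤ : Ideal (OO n t)) (N := 3 ^ N) (by positivity)
    push_cast at h ⊢
    exact h
  dn := by
    intro h
    have e : toC (sD n t) * ((3 : ℂ) ^ (N - 1) * (1 / ((3 ^ N : ℕ) : ℂ))) =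
        toC (sD n t) / ((3 : ℕ) : ℂ) := by
      obtain ⟨j, rfl⟩ := Nat.exists_eq_add_of_le' hN
      rw [Nat.add_sub_cancel]
      push_cast
      rw [pow_succ]
      field_simp
    rw [e] at h
    have h1 := (aL6.1 n t (⊤ : Ideal (OO n t)) 3 top_ne_bot three_pos (by unfold PrI; rw [top_sup_eq]) _).1 h
    rw [nat_dvd_iff] at h1
    obtain ⟨-, h2⟩ := h1
    have h3 : (sD n t).im = 2 := rfl
    rw [h3] at h2
    omega

private theorem T2g_isR [SqN n t] {F0 N : ℕ} {A : Finset (OO n t)} (ho : F0.Coprime 3) (hA : IsG F0 N A) :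
    IsR N (Un F0) A := by
  have hcop : IsCoprime ((3 ^ N : ℕ) : OO n t) (F0 : OO n t) := by
    have h3 : IsCoprime ((3 ^ N : ℕ) : ℤ) (F0 : ℤ) :=
      Nat.isCoprime_iff_coprime.2 (Nat.Coprime.pow_left _ ho.symm)
    obtain ⟨a, b, hab⟩ := h3
    refine ⟨(a : OO n t), (b : OO n t), ?_⟩
    have h4 := congrArg (fun z : ℤ => (z : OO n t)) hab
    push_cast at h4 ⊢
    exact h4
  refine ⟨fun h hh => hA.mem h hh, fun v hv => ?_, fun h hh h' hh' hd => ?_⟩
  · obtain ⟨α, hα, hd⟩ := hA.ex v hv.1 hv.2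
    refine ⟨α, hα, dvd_trans ?_ hd⟩
    push_cast
    exact dvd_mul_left _ _
  · refine hA.uni h hh h' hh' ?_
    have h3 : (F0 : OO n t) ∣ h - h' := by
      have e : h - h' = (h - 1) - (h' - 1) := by ring
      rw [e]
      exact dvd_sub (hA.mem h hh).1 (hA.mem h' hh').1
    have h4 := hcop.mul_dvd hd h3
    have e : ((F0 * 3 ^ N : ℕ) : OO n t) = ((3 ^ N : ℕ) : OO n t) * (F0 : OO n t) := by
      push_cast
      ring
    rw [e]
    exact h4

theorem tT2g : S_T2g := by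
  classical
  intro trH t0a inn _rep pi gen n t _ P hP F0 N A s hF hN hA hs y hy hV
  have hPp : P.IsPrime := hP.1.1
  have h3 : DL.Pl P 3 := pl hP
  obtain ⟨z0, hz0⟩ : ∃ z0 : ℂ, z0 = 1 / F0 := ⟨_, rfl⟩
  obtain ⟨d, hd⟩ : ∃ d : ℂ, d = 1 / (3 ^ N : ℕ) := ⟨_, rfl⟩
  have hPt : Pt n t F0 N z0 d := by
    rw [hz0, hd]
    exact T2g_pt hF hN
  obtain ⟨-, -, p3, -, p5⟩ := pi n t P hP F0 N z0 d hPt
  obtain ⟨⟨S, hS⟩, hG2, hG3, hG4⟩ := gen n t P hP F0 N z0 d hPt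
  obtain ⟨g2, -, hvS0, -⟩ := hG2 S hS
  have hvS : DL.vl P 3 (dl S (pH z0 d (1 : OO n t))) = N - 1 / 4 := hvS0
  obtain ⟨g4, g5⟩ := hG4 F0 hF dvd_rfl
  have hT : IsR N (Un F0) A := T2g_isR hF.cop hA
  have hcl : ∀ α ∈ A, Cls P F0 N α (s α) := fun α hα =>
    ⟨Subgroup.mem_inf.2 ⟨(hs α hα).1, (hs α hα).2.1⟩, (hA.mem α hα).1, (hA.mem α hα).2, (hs α hα).2.2⟩
  have hsπ : ∀ α ∈ A, s α (pH z0 d (1 : OO n t)) = pH z0 d α := fun α hα => (g4 α (s α) (hcl α hα)).1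
  have hy1 : Fp (II n t P) (pH z0 d (1 : OO n t)) y := by
    refine g5 y fun τ hτ => ?_
    have h := hτ.psi
    rw [T2g_sp_one] at h
    have h4 := Subgroup.mem_inf.1 hτ.mem
    exact hy τ h4.1 h4.2 h
  have hl0 : ((3 : ℕ) : Om) ^ N ≠ 0 := pow_ne_zero _ h3.nz
  have hdl : DL.dl ({pH z0 d (1 : OO n t)} : Finset Om) (pH z0 d (1 : OO n t)) = 1 := by
    unfold DL.dl
    have e : ({pH z0 d (1 : OO n t)} : Finset Om).erase (pH z0 d (1 : OO n t)) = ∅ := by simp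
    rw [e, Finset.prod_empty]
  obtain ⟨-, hw0, hw, -⟩ := t0a
  have hyG : DL.GE P 3 (1 / 4) y := by
    have h4 : DL.GE P 3 0 (y / w4) := (DL.GE.vp_iff h3).2 hV
    have h5 : DL.GE P 3 (1 / 4) w4 := Or.inr (hw P hP).1.ge
    have h6 := h4.mul h3 h5
    rwa [zero_add, div_mul_cancel₀ _ hw0] at h6
  have key := trH P 3 2 (II n t P) S (pH z0 d (1 : OO n t)) g2 {pH z0 d (1 : OO n t)} y
    (((3 : ℕ) : Om) ^ N) (OO n t) A s
    (Finset.mem_singleton_self _) (Finset.singleton_subset_iff.2 g2.mem) hy1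
    (by
      intro r hr
      rw [Finset.mem_singleton] at hr
      exact ⟨1, Subgroup.one_mem _, hr.symm, rfl, fun r' hr' => hr'⟩)
    (fun α hα => (hcl α hα).mem)
    (by
      intro r hr
      obtain ⟨h, hh, rfl⟩ := (hS r).1 hr
      obtain ⟨α, hα, hvα⟩ := hT.ex h hh
      refine ⟨α, hα, pH z0 d (1 : OO n t), Finset.mem_singleton_self _, ?_⟩
      rw [hsπ α hα]
      exact (p3 h α hvα).symm)
    (by
      intro α hα α' hα' r hr r' hr' h
      rw [Finset.mem_singleton] at hr hr'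
      rw [hr, hr', hsπ α hα, hsπ α' hα'] at h
      exact hT.uni α hα α' hα' ((hG3 α α' (hA.mem α hα).2 (hA.mem α' hα').2).1 h))
    hl0
    (by
      intro σ _
      rw [map_pow, map_natCast])
    (by
      rw [hdl, DL.vl_one h3, DL.vl_two_pow h3, add_zero, hvS]
      refine hyG.mono ?_
      linarith)
  have h7 := (DL.GE.tp_iff h3 hl0).1 key
  rwa [Nat.cast_ofNat] at h7

end Pool.Agent.DM.DU.GL
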