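import Pool.Agent.Lib.DU.GL.SpecB
import Pool.Agent.Lib.DT.GL.Iu

/-!
# Theorem DU, part GL, module Tau: inertia elements with `ζ ↦ ζ⁻¹`
-/

set_option autoImplicit false

open scoped Pointwise

noncomputable section

namespace Pool.Agent.DM.DU.GL

open Pool.Agent.MuZ Pool.Agent.FW Pool.Agent.DN Pool.Agent.DM Pool.Agent.DM.DU
open Pool.Agent.DI (io ofC io_inj exists_io io_ofC ofC_io VP MP UP TP ex)
open Pool.Agent.DI.GL (Fx StP mem_of_Fx Fx.mul Fx.inv Fx.one)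
open Pool.Agent.DT (kap cbr)
open Pool.Agent.DM.GL (GE vP pl pH IsR Un Sit3)
open Pool.Agent.DL (vl Pl Fi Fp Cn Cf dl Gen Dr LD)

theorem tTau : S_Tau := by
  intro hT0 n t _ P hP N hN
  have := hP.1.1
  have h1 : 1 ≤ 3 ^ N := Nat.one_le_pow _ _ (by norm_num)
  constructor
  · have hco : (3 ^ N - 1).Coprime 3 := by
      rw [Nat.coprime_comm, Nat.Prime.coprime_iff_not_dvd Nat.prime_three]
      intro h
      have h3 : 3 ∣ 3 ^ N := dvd_pow_self 3 (by omega)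
      omega
    obtain ⟨ι, hι, h⟩ := DT.GL.tIu P hP.1.1 hP.2 N (3 ^ N - 1) hco
    refine ⟨ι, hι, fun ζ hζ => ?_⟩
    rw [h ζ hζ]
    refine eq_inv_of_mul_eq_one_left ?_
    rw [← pow_succ, Nat.sub_add_cancel h1, hζ]
  · intro τ hτ hinv hG
    have hne : NeZero ((3 : ℕ) : Om) := ⟨by norm_num⟩
    obtain ⟨ζ, hζ⟩ := HasEnoughRootsOfUnity.exists_primitiveRoot Om 3
    have hζN : ζ ^ 3 ^ N = 1 := by
      obtain ⟨k, hk⟩ : 3 ∣ 3 ^ N := dvd_pow_self 3 (by omega)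
      rw [hk, pow_mul, hζ.pow_eq_one, one_pow]
    have hζ0 : ζ ≠ 0 := hζ.ne_zero (by norm_num)
    rcases (hT0.2 n t P hP).2.2.2 ζ hζ.pow_eq_one τ hτ with h2 | h2
    · have h3 := h2.1 hG
      rw [hinv ζ hζN] at h3
      have h4 : ζ ^ 2 = 1 := by
        rw [pow_two]
        nth_rewrite 1 [← h3]
        exact inv_mul_cancel₀ hζ0
      have h5 := (hζ.pow_eq_one_iff_dvd 2).1 h4
      omega
    · exact hζ.ne_one (by norm_num) h2

end Pool.Agent.DM.DU.GL
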