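import Pool.Agent.Lib.DU.GL.Spec

/-!
# Theorem DU, part GL, module Tc: the action of inertia on `w4` (author helper28, after DM/GL)
-/

set_option autoImplicit false

open scoped Pointwise

noncomputable section

namespace Pool.Agent.DM.DU.GL

open Pool.Agent.MuZ Pool.Agent.FW Pool.Agent.DN Pool.Agent.DM Pool.Agent.DM.DU
open Pool.Agent.DI (io ofC io_inj exists_io io_ofC ofC_io VP MP UP TP ex)
open Pool.Agent.DT (kap cbr)
open Pool.Agent.DM.GL (GE vP pl pH IsR Un)
open Pool.Agent.DL (vl Pl Fi Fp Cn Cf dl Gen Dr LD)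

variable {n t : ℕ}

private theorem tc_gtop : G30 (⊤ : Ideal (OO n t)) := ⟨top_ne_bot, top_sup_eq _⟩

private theorem tc_pri (N : ℕ) : PrI (⊤ : Ideal (OO n t)) N := top_sup_eq _

/-- The point `T3` has level `f 3 ^ N`. -/
private theorem tc_third [SqN n t] {f N : ℕ} (hN : 1 ≤ N) :
    ((f * 3 ^ N : ℕ) : ℂ) * T3 n t ∈ Lam (⊤ : Ideal (OO n t)) := by
  rw [lam_top]
  refine ⟨((f * 3 ^ (N - 1) : ℕ) : OO n t) * sD n t, ?_⟩
  rw [toC_mul, toC_nat]
  have e1 : (3 : ℂ) ^ N = 3 ^ (N - 1) * 3 := by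
    rw [← pow_succ]
    exact congrArg _ (by omega)
  unfold T3
  push_cast
  rw [e1]
  ring

/-- The elements outside of `Gal(Om/K)`. -/
private theorem tc_img [SqN n t] {τ : Gal(Om/ℚ)} (hτ : τ ∉ GK n t) (v : OO n t) :
    τ (toO v) = toO (cjO v) := by
  have h1 : τ (wO n t) ^ 2 = t * τ (wO n t) - n := by
    rw [← map_pow, wO_sq, map_sub, map_mul, map_natCast, map_natCast]
  have h2 := wO_sq (n := n) (t := t)
  have h3 : (τ (wO n t) - wO n t) * (τ (wO n t) - (t - wO n t)) = 0 := by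
    linear_combination h1 - h2
  rcases mul_eq_zero.1 h3 with h4 | h4
  · exact absurd (mem_GK_iff.2 (sub_eq_zero.1 h4)) hτ
  · have h5 := sub_eq_zero.1 h4
    rw [toO_apply, toO_apply, map_add, map_mul, map_intCast, map_intCast, h5]
    simp only [cjO]
    push_cast
    ring

theorem tTc : S_Tc := by
  intro o4 hB7 hKp hAct hT n t _ P hP
  have hPp : P.IsPrime := hP.1.1
  have h3 : MP P 3 := hP.2
  have gt : G30 (⊤ : Ideal (OO n t)) := tc_gtop
  obtain ⟨hw3, hw0, hw4, hTn⟩ := hT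
  obtain ⟨hv4, hwV, hrt⟩ := hw4 P hP
  obtain ⟨hs2, hs0, -, -, -, -, hzs⟩ := hTn n t P hP
  have h4p : ∀ τ : Gal(Om/ℚ), (τ w4 / w4) ^ 4 = 1 := by
    intro τ
    rw [div_pow, ← map_pow, hw3, map_ofNat]
    exact div_self three_ne_zero
  constructor
  · intro f N h τ hf hN hc
    have h20 : (20 : OO n t) ∣ h - 1 := by
      obtain ⟨u, hu⟩ := hc.one
      obtain ⟨c, rfl⟩ := hf.dvd
      refine ⟨(c : OO n t) * u, ?_⟩
      rw [hu]
      push_cast
      ring
    have h4 : (4 : OO n t) ∣ h - 1 := by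
      obtain ⟨u, hu⟩ := h20
      exact ⟨5 * u, by rw [hu]; ring⟩
    have hh0 : h ≠ 0 := by
      rintro rfl
      have h5 := hc.cop
      unfold Cop at h5
      rw [Nm_zero] at h5
      have h6 := isCoprime_zero_left.1 h5
      rw [Int.isUnit_iff] at h6
      norm_num at h6
    have h30 : Cop h 30 := by
      have h5 : Cop h 20 := by
        refine cop_congr ?_ (cop_one 20)
        rw [← neg_sub, dvd_neg]
        rw [show ((20 : ℕ) : OO n t) = 20 by norm_num]
        exact h20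
      have h6 : Cop h (3 * 20) := by
        have h7 := hc.cop
        unfold Cop at h5 h7 ⊢
        push_cast at h5 h7 ⊢
        exact h7.mul_right h5
      exact cop_dvd h6 ⟨2, by norm_num⟩
    obtain ⟨hk0, hk1⟩ := hKp.1 n t ⊤ gt h h4 h30
    obtain ⟨hU, -⟩ := hKp.2 n t P hP ⊤ gt
    have hv : τ (vO (⊤ : Ideal (OO n t)) (T3 n t)) = vO (sp h * (⊤ : Ideal (OO n t))) (T3 n t) := by
      obtain ⟨-, hA⟩ := hAct n t P hP f N h τ hf hN hc
      obtain ⟨-, -, hx, -, -⟩ := hA ⊤ gt
      rw [(hx (T3 n t) (tc_third hN)).2]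
      unfold vO
      rw [(((hB7 n t ⊤ top_ne_bot (tc_pri 2)).1 h hh0 h4).2.2 (T3 n t)).2]
    have hκ : τ (kp (⊤ : Ideal (OO n t))) = (zs h : Om) * kp (⊤ : Ideal (OO n t)) := by
      rw [← hk1]
      unfold kp
      rw [map_div₀, map_one, map_mul, hv, GK_toO hc.mem.2]
    obtain ⟨y, hy⟩ : ∃ y : Om, y = τ w4 / w4 := ⟨_, rfl⟩
    have hyc : τ w4 = y * w4 := by rw [hy, div_mul_cancel₀ _ hw0]
    have hy4 : y ^ 4 = 1 := by rw [hy]; exact h4p τ
    have hy0 : y ≠ 0 := by
      intro h5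
      rw [h5] at hy4
      norm_num at hy4
    -- the unit `u = κ / w4`
    obtain ⟨u, hu⟩ : ∃ u : Om, u = kp (⊤ : Ideal (OO n t)) / w4 := ⟨_, rfl⟩
    rw [← hu] at hU
    have hu0 : u ≠ 0 := hU.ne_zero
    have e1 : τ u = (zs h : Om) / y * u := by
      rw [hu, map_div₀, hκ, hyc]
      field_simp
    have m1 : MP P ((zs h : Om) / y * u - u) := by
      rw [← e1]
      exact DI.VP.inertia hc.mem.1 hU.1
    have m2 : MP P ((zs h : Om) / y - 1) := by
      have e : (zs h : Om) / y - 1 = ((zs h : Om) / y * u - u) * u⁻¹ := by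
        field_simp
      rw [e]
      exact DI.MP.mul_right m1 hU.inv.1
    have hz4 : ((zs h : Om) / y) ^ 4 = 1 := by
      rw [div_pow, hy4, div_one]
      rcases (hzs h hc.cop).1 with h5 | h5
      · rw [h5]
        norm_num
      · rw [h5]
        norm_num
    have h7 := (hrt _ hz4).2.1 m2
    rw [hyc, (div_eq_one_iff_eq hy0).1 h7]
  · intro τ hi hτ
    refine ⟨?_, tc_img hτ⟩
    obtain ⟨-, -, -, -, -, o6, -, ⟨D', oD, oc⟩, -⟩ := o4 n t
    have hs : τ (toO (sD n t)) = -toO (sD n t) := by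
      rw [tc_img hτ, o6, toO_neg]
    have hss : toO (sD n t) ^ 2 = -(3 * (D' : Om)) := by
      rw [← toO_pow, sq, (o4 n t).2.2.2.2.1, toO_neg, toO_nat, oD]
      push_cast
      ring
    have hD : ¬ MP P (D' : Om) := by
      intro hM
      obtain ⟨x, y, hxy⟩ := Nat.isCoprime_iff_coprime.2 oc
      have h5 : MP P ((x : Om) * (D' : Om) + (y : Om) * 3) :=
        (DI.MP.mul_left (DI.VP.int x) hM).add (DI.MP.mul_left (DI.VP.int y) h3)
      have h6 := congrArg (Int.cast : ℤ → Om) hxy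
      push_cast at h6
      rw [h6] at h5
      exact DI.MP.one_not h5
    have h2 : ¬ MP P (2 : Om) := by
      intro h2
      have h := DI.MP.sub h3 h2
      have e : (3 : Om) - 2 = 1 := by norm_num
      rw [e] at h
      exact DI.MP.one_not h
    obtain ⟨y, hy⟩ : ∃ y : Om, y = τ w4 / w4 := ⟨_, rfl⟩
    have hyc : τ w4 = y * w4 := by rw [hy, div_mul_cancel₀ _ hw0]
    rw [← hy]
    have hy4 : y ^ 4 = 1 := by rw [hy]; exact h4p τ
    -- `q = √-D / w4 ^ 2`
    obtain ⟨q, hq⟩ : ∃ q : Om, q = toO (sD n t) / w4 ^ 2 := ⟨_, rfl⟩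
    have hq2 : q ^ 2 = -(D' : Om) := by
      rw [hq, div_pow, ← pow_mul, hw3, hss]
      ring
    have hqV : VP P q := by
      refine DI.VP.of_pow (by norm_num : 0 < 2) ?_
      rw [hq2]
      exact (DI.VP.nat D').neg
    have hτq : τ q = -(y ^ 2) * q := by
      rw [hq, map_div₀, map_pow, hs, hyc]
      have hy0 : y ≠ 0 := by
        intro h5
        rw [h5] at hy4
        norm_num at hy4
      field_simp
      linear_combination hy4
    have hy2 : (y ^ 2 - 1) * (y ^ 2 + 1) = 0 := by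
      linear_combination hy4
    rcases mul_eq_zero.1 hy2 with h5 | h5
    · exfalso
      have h6 := DI.VP.inertia hi hqV
      rw [hτq, sub_eq_zero.1 h5] at h6
      have e : -1 * q - q = (-1) * (2 * q) := by ring
      rw [e] at h6
      have h7 : MP P (2 * q) := by
        have := DI.MP.neg h6
        have e2 : -(-1 * (2 * q)) = 2 * q := by ring
        rwa [e2] at this
      have v2 : VP P (2 : Om) := by exact_mod_cast DI.VP.nat 2
      rcases DI.MP.mul_cases v2 hqV h7 with h8 | h8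
      · exact h2 h8
      · apply hD
        have h9 := DI.MP.mul_left hqV h8
        have e3 : (D' : Om) = -(q * q) := by
          rw [← sq, hq2, neg_neg]
        rw [e3]
        exact h9.neg
    · linear_combination h5

end Pool.Agent.DM.DU.GL
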