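import Pool.Agent.Lib.DU.GL.SpecB

/-!
# Theorem DU, part GL, module Tht: the logarithmic derivative of `Theta` (author helper28, after DM/GL, DR/GL)
-/

set_option autoImplicit false

open scoped Pointwise

noncomputable section

namespace Pool.Agent.DM.DU.GL

open Pool.Agent.MuZ Pool.Agent.FW Pool.Agent.DN Pool.Agent.DM Pool.Agent.DM.DU
open Pool.Agent.DI (io ofC io_inj exists_io io_ofC ofC_io VP MP UP TP ex)
open Pool.Agent.DI.GL (Fx StP mem_of_Fx Fx.mul Fx.inv Fx.one)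
open Pool.Agent.DT (kap cbr)
open Pool.Agent.DM.GL (GE vP pl pH IsR Un Sit3)
open Pool.Agent.DL (vl Pl Fi Fp Cn Cf dl Gen Dr LD)

variable {n t : ℕ}

private theorem Tht_NI [SqN n t] {m c : Ideal (OO n t)} {u : ℂ} (hu : u ∈ Lam (m * c)) :
    (NI m : ℂ) * u ∈ Lam c := by
  have h1 : (NI m : OO n t) ∈ m := by
    have h2 : (NI m : OO n t) ∈ sp (NI m : OO n t) := Ideal.mem_span_singleton_self _
    rw [← ((aO3 n t).2.2.1 m).2.2] at h2
    exact Ideal.mul_le_left h2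
  have h3 := lam_prod.1 hu _ h1
  rwa [toC_nat] at h3

private theorem Tht_cop [SqN n t] {c : Ideal (OO n t)} {u : ℂ} {i j : ℕ} (hij : i.Coprime j)
    (h1 : (j : ℂ) * u ∈ Lam c) (h2 : (i : ℂ) * u ∈ Lam c) : u ∈ Lam c := by
  obtain ⟨a, b, hab⟩ := Nat.isCoprime_iff_coprime.2 hij
  have hab' : (a : ℂ) * (i : ℂ) + (b : ℂ) * (j : ℂ) = 1 := by
    have := congrArg (fun w : ℤ => (w : ℂ)) hab
    push_cast at this
    exact this
  have e : u = (a : ℂ) * ((i : ℂ) * u) + (b : ℂ) * ((j : ℂ) * u) := by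
    linear_combination (-u) * hab'
  rw [e]
  refine lam_add ?_ ?_
  · rw [← toC_int (n := n) (t := t)]
    exact lam_mul _ h2
  · rw [← toC_int (n := n) (t := t)]
    exact lam_mul _ h1

private theorem Tht_fok [SqN n t] {f : ℕ} (hf : Fok f) {m : Ideal (OO n t)} (hm : PrI m 30) :
    (NI m).Coprime 30 ∧ Fok (f * NI m) := by
  have h1 : (NI m).Coprime 30 := ((aO6 n t).2.2.1 30 m (by norm_num)).1 hm
  have h2 : 0 < NI m := by
    rcases Nat.eq_zero_or_pos (NI m) with h | h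
    · rw [h] at h1
      norm_num at h1
    · exact h
  exact ⟨h1, ⟨Nat.mul_pos hf.pos h2, Dvd.dvd.mul_right hf.dvd _,
    Nat.Coprime.mul_left hf.cop (Nat.Coprime.coprime_dvd_right (by norm_num) h1)⟩⟩

/-- **Tht.** The logarithmic derivative of `Theta`. -/
theorem tTht : S_Tht := by
  intro hCv hD2 hD9 hCn hDer hLDr hIn hAct hPi hGen hOdq hTrh n t _ P hP f N z0 d hpt m c h hm0 hm
    hc hh hz
  have hPp : P.IsPrime := hP.1.1
  have hm2 : PrI m 2 := Eb.pri_dvd hm ⟨15, rfl⟩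
  obtain ⟨hNI, hf'⟩ := Tht_fok hpt.fok hm
  have q2 : (NI m).Coprime 2 := Nat.Coprime.coprime_dvd_right (by norm_num) hNI
  have q3 : (NI m).Coprime 3 := Nat.Coprime.coprime_dvd_right (by norm_num) hNI
  obtain ⟨SG, -, hG, hq0, hq1⟩ := gen0 hGen hP hpt
  have hW : VP P (vO (⊤ : Ideal (OO n t)) (z0 + d)) := by
    have h1 := ((hPi n t P hP f N z0 d hpt).1 1 (cop_one 3)).2.2.2.2.2.2
    rw [toC_one, one_mul] at h1
    exact h1.1
  obtain ⟨l1, l2, l3, -, l5, l6, -⟩ := hLDr P 3 2 _ _ _ hG (N - 1 / 4) _ hq0 hq1 hW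
  obtain ⟨-, -, -, d4, d5, -⟩ := hDer P 3 2 _ _ _ hG (N - 1 / 4) _ hq0 hq1 hW
  obtain ⟨-, c2, -⟩ := hCn P _ hPp hG.ine
  obtain ⟨-, -, -, -, -, e7, -⟩ := hD2 n t P hP c hc
  obtain ⟨g1, -⟩ := aB14 n t m c hm0 hc.ne hm2
  have hzc : z0 ∉ Lam (sp h * c) := fun h1 => hz (lam_mono h1)
  have hTr := hTrh n t P hP f N z0 d hpt c h hc hh hzc
  have hhz0 : toC h * z0 ∉ Lam (m * c) := by
    intro h1
    apply hz
    rw [mul_left_comm]
    exact lam_sp.2 h1
  -- translated points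
  have hpts : ∀ u ∈ Lam (m * c), ((f * NI m : ℕ) : ℂ) * (toC h * z0 + u) ∈ Lam c ∧
      toC h * z0 + u ∉ Lam c := by
    intro u hu
    constructor
    · have e : ((f * NI m : ℕ) : ℂ) * (toC h * z0 + u) =
          (NI m : ℂ) * (toC h * ((f : ℂ) * z0)) + (f : ℂ) * ((NI m : ℂ) * u) := by
        push_cast
        ring
      rw [e]
      exact lam_add (lam_nat _ (lam_mul h (lam_anti le_top hpt.z))) (lam_nat _ (Tht_NI hu))
    · intro h1
      apply hhz0
      have h2 : toC h * z0 = toC h * z0 + u - u := by ring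
      rw [h2]
      exact lam_sub (lam_mono h1) hu
  have hdd : (3 : ℂ) ^ N * (toC h * d) ∈ Lam c := by
    have e : (3 : ℂ) ^ N * (toC h * d) = toC h * ((3 : ℂ) ^ N * d) := by ring
    rw [e]
    exact lam_mul h (lam_anti le_top hpt.dd)
  have hq : ∀ u ∈ Lam (m * c), ¬ Qp P c (toC h * (z0 + d) + u) ∧ ¬ IK P c (toC h * (z0 + d) + u) ∧
      Tor n t (toC h * (z0 + d) + u) := by
    intro u hu
    obtain ⟨h1, h2⟩ := hpts u hu
    have h3 := hOdq n t P hP c hc (f * NI m) N (toC h * z0 + u) (toC h * d) hf' h1 h2 hdd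
    have e : toC h * z0 + u + toC h * d = toC h * (z0 + d) + u := by ring
    rw [e] at h3
    exact ⟨h3.1, h3.2.1, h3.2.2.1⟩
  -- the points of order prime to three
  have hpo : ∀ w : ℂ, ((f * NI m : ℕ) : ℂ) * w ∈ Lam c → w ∉ Lam c → ¬ Qp P c w ∧ ¬ IK P c w ∧
      Tor n t w ∧ Cn P (II n t P) (xO c w) := by
    intro w hw hwn
    obtain ⟨i1, i2, i3, -, -, -, -, i8, -⟩ := hOdq n t P hP c hc (f * NI m) N w 0 hf' hw hwn
      (by rw [mul_zero]; exact lam_zero _)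
    rw [add_zero] at i1 i2 i3
    exact ⟨i1, i2, i3, i8⟩
  have h0 := hq 0 (lam_zero _)
  rw [add_zero] at h0
  obtain ⟨-, hIK, hTor⟩ := h0
  have hgO := (hD9 n t P hP m c hm0 hc hm (toC h * (z0 + d)) hTor fun u hu => (hq u hu).1).2
  -- the factors
  have hfac : ∀ u ∈ hs m c, LDn n t P N z0 d
      ((xO c u - xO c (2 * u)) * (xO c (toC h * (z0 + d)) - xO c u)⁻¹)
      (0 + -((toO h * rO (⊤ : Ideal (OO n t)) c * vO c (toC h * (z0 + d)) - 0) /
        (xO c (toC h * (z0 + d)) - xO c u))) := by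
    intro u hu
    obtain ⟨hu1, hu2⟩ := g1.mem u hu
    have hNu := Tht_NI hu1
    have hfu : ((f * NI m : ℕ) : ℂ) * u ∈ Lam c := by
      have e : ((f * NI m : ℕ) : ℂ) * u = (f : ℂ) * ((NI m : ℂ) * u) := by
        push_cast
        ring
      rw [e]
      exact lam_nat _ hNu
    have hf2 : ((f * NI m : ℕ) : ℂ) * (2 * u) ∈ Lam c := by
      have e : ((f * NI m : ℕ) : ℂ) * (2 * u) = ((2 : ℕ) : ℂ) * (((f * NI m : ℕ) : ℂ) * u) := by
        push_cast
        ring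
      rw [e]
      exact lam_nat _ hfu
    have hf3 : ((f * NI m : ℕ) : ℂ) * (u + 2 * u) ∈ Lam c := by
      rw [mul_add]
      exact lam_add hfu hf2
    have hfn : ((f * NI m : ℕ) : ℂ) * (u - 2 * u) ∈ Lam c := by
      rw [mul_sub]
      exact lam_sub hfu hf2
    have n2 : 2 * u ∉ Lam c := by
      intro h1
      refine hu2 (Tht_cop (i := 2) q2.symm hNu ?_)
      rwa [Nat.cast_ofNat]
    have n3 : u + 2 * u ∉ Lam c := by
      intro h1
      refine hu2 (Tht_cop (i := 3) q3.symm hNu ?_)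
      have e : ((3 : ℕ) : ℂ) * u = u + 2 * u := by
        push_cast
        ring
      rwa [e]
    have nn : u - 2 * u ∉ Lam c := by
      intro h1
      apply hu2
      have e : u = -(u - 2 * u) := by ring
      rw [e]
      exact lam_neg h1
    obtain ⟨-, a2, a3, a4⟩ := hpo u hfu hu2
    obtain ⟨-, b2, b3, b4⟩ := hpo (2 * u) hf2 n2
    have hup' : UP P (xO c u - xO c (2 * u)) := e7 _ _ a3 b3 a2 b2 (hpo _ hf3 n3).1 (hpo _ hfn nn).1
    have hup : UP P (xO c (toC h * (z0 + d)) - xO c u) := by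
      refine e7 _ u hTor a3 hIK a2 (hq u hu1).1 ?_
      have h1 := (hq (-u) (lam_neg hu1)).1
      rwa [← sub_eq_add_neg] at h1
    have hcn : Cn P (II n t P) (xO c u - xO c (2 * u)) := (c2 _ _ a4 b4).2.1
    have hD := (d5 _ _ _ _ hTr (d4 _ a4)).2.1
    exact l2 _ _ _ _ (l1 _ hcn hup') (l3 _ _ (l6 _ _ hup hD))
  have hprod := l5 ℂ (hs m c) _ _ hfac
  have e : ∑ u ∈ hs m c, (0 + -((toO h * rO (⊤ : Ideal (OO n t)) c * vO c (toC h * (z0 + d)) - 0) /
        (xO c (toC h * (z0 + d)) - xO c u))) =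
      -(toO h * rO (⊤ : Ideal (OO n t)) c * gO m c (toC h * (z0 + d))) := by
    rw [hgO, Finset.mul_sum, ← Finset.sum_neg_distrib]
    refine Finset.sum_congr rfl fun u _ => ?_
    rw [div_eq_mul_inv]
    ring
  rw [e] at hprod
  have hTh : Theta m c (toC h * (z0 + d)) =
      ∏ u ∈ hs m c, (xO c u - xO c (2 * u)) * (xO c (toC h * (z0 + d)) - xO c u)⁻¹ := by
    obtain ⟨-, -, -, -, -, -, -, v8⟩ := hCv n t c hc
    rw [(v8 m hm0 hm).2.2 _ hTor]
    exact Finset.prod_congr rfl fun u _ => div_eq_mul_inv _ _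
  rw [hTh]
  exact hprod

end Pool.Agent.DM.DU.GL
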