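import Pool.Agent.Lib.DU.GL.Spec

/-!
# Theorem DU, part GL, module TrN: the trace over the norm classes
-/

set_option autoImplicit false

open scoped Pointwise

noncomputable section

namespace Pool.Agent.DM.DU.GL

open Pool.Agent.MuZ Pool.Agent.FW Pool.Agent.DN Pool.Agent.DM Pool.Agent.DM.DU
open Pool.Agent.DI (io ofC io_inj exists_io io_ofC ofC_io VP MP UP TP ex)
open Pool.Agent.DT (kap cbr)
open Pool.Agent.DM.GL (GE vP pl pH IsR Un)
open Pool.Agent.DL (vl Pl Fi Fp Cn Cf dl Gen Dr LD)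

variable {n t : ℕ}

private theorem TrN_nat {N : ℕ} {x : ℤ} (h : ((3 ^ N : ℕ) : ℤ) ∣ x) : (3 : ℤ) ^ N ∣ x := by
  push_cast at h
  exact h

/-- `x = y` and `y = z` modulo `m`. -/
private theorem TrN_tr {m x y z : ℤ} (h : m ∣ x - y) (h' : m ∣ y - z) : m ∣ x - z := by
  have e : x - z = (x - y) + (y - z) := by ring
  rw [e]
  exact dvd_add h h'

private theorem TrN_sy {m x y : ℤ} (h : m ∣ x - y) : m ∣ y - x := by
  rw [← neg_sub]
  exact (dvd_neg).2 h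

private theorem TrN_ml {m x y : ℤ} (h : m ∣ x - y) (c : ℤ) : m ∣ c * x - c * y := by
  rw [← mul_sub]
  exact h.mul_left c

/-- Lifting modulo `f` and `3 ^ N`. -/
private theorem TrN_lift {f : ℕ} (N : ℕ) (hf : f.Coprime 3) (u : OO n t) :
    ∃ u' : OO n t, ((3 ^ N : ℕ) : OO n t) ∣ u' - u ∧ (f : OO n t) ∣ u' - 1 := by
  have hcop : Nat.Coprime f (3 ^ N) := Nat.Coprime.pow_right N hf
  obtain ⟨x, y, h⟩ := Nat.isCoprime_iff_coprime.2 hcop
  have h' : (x : OO n t) * (f : OO n t) + (y : OO n t) * ((3 ^ N : ℕ) : OO n t) = 1 := by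
    have := congrArg (fun c : ℤ => (c : OO n t)) h
    push_cast at this ⊢
    exact this
  refine ⟨x * f * u + y * ((3 ^ N : ℕ) : OO n t), ?_, ?_⟩
  · exact ⟨y * (1 - u), by linear_combination u * h'⟩
  · exact ⟨x * (u - 1), by linear_combination h'⟩

private theorem TrN_three {N : ℕ} (hN : 1 ≤ N) {u u' : OO n t}
    (h : ((3 ^ N : ℕ) : OO n t) ∣ u' - u) (hu : Cop u 3) : Cop u' 3 := by
  refine cop_congr (j := 3) (a := u) ?_ hu
  rw [← neg_sub]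
  refine (dvd_neg).2 (dvd_trans ?_ h)
  exact_mod_cast dvd_pow_self (3 : OO n t) (by omega : N ≠ 0)

theorem tTrN : S_TrN := by
  classical
  intro hTrH hT0a hIn hRep hPi hSur hGen n t _ P hP f N z0 d hpt SH hSH f' hf' hff' A s hA1 hA2 hA3
    z hz
  have hpr := hP.1.1
  have hN := hpt.pos
  have hffO : (f : OO n t) ∣ (f' : OO n t) := by
    obtain ⟨c, hc⟩ := hff'
    exact ⟨c, by rw [hc]; push_cast; ring⟩
  obtain ⟨-, -, hPi3, -, hPi5⟩ := hPi n t P hP f N z0 d hpt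
  obtain ⟨⟨S, hS⟩, hG2, hG3, hG4⟩ := hGen n t P hP f N z0 d hpt
  obtain ⟨hG, -, hvS0, -⟩ := hG2 S hS
  have hvS : DL.vl P 3 (dl S (pH z0 d (1 : OO n t))) = N - 1 / 4 := hvS0
  obtain ⟨-, -, hInK, hIn0⟩ := hIn n t P hP
  obtain ⟨hIn1, -⟩ := hIn0 f' N hf' hN
  have hG5 := (hG4 f' hf' hff').1
  -- equal values
  have heq : ∀ h h' : OO n t, Cop h 3 → Cop h' 3 → pH z0 d h = pH z0 d h' →
      ((3 ^ N : ℕ) : OO n t) ∣ h - h' := fun h h' hh hh' he => (hG3 h h' hh hh').1 he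
  have hlift : ∀ u : OO n t, Cop u 3 → ∃ u' : OO n t, ((3 ^ N : ℕ) : OO n t) ∣ u' - u ∧
      (f' : OO n t) ∣ u' - 1 ∧ Cop u' 3 := by
    intro u hu
    obtain ⟨u', h1, h2⟩ := TrN_lift N hf'.cop u
    exact ⟨u', h1, h2, TrN_three hN h1 hu⟩
  -- the hypotheses of `TrH`
  have hmem : pH z0 d (1 : OO n t) ∈ SH := by
    refine (hSH _).2 ⟨1, ⟨?_, cop_one 3, ?_⟩, rfl⟩
    · rw [sub_self]
      exact dvd_zero _
    · rw [Nm_one, sub_self]
      exact dvd_zero _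
  have hsub : SH ⊆ S := by
    intro r hr
    obtain ⟨h, hh, hr'⟩ := (hSH r).1 hr
    exact (hS r).2 ⟨h, ⟨hh.1, hh.2.1⟩, hr'⟩
  have hFp : Fp (II n t P) (pH z0 d (1 : OO n t)) z := by
    intro σ hσ hσπ
    obtain ⟨h, hC⟩ := hIn1 σ hσ
    have h1 := ((hG5 h σ hC).2).1 hσπ
    refine hz σ h hC ⟨hC.one, hC.cop, ?_⟩
    have h2 := Nm_congr h1
    rw [Nm_one] at h2
    exact TrN_nat h2
  have hE : ∀ r ∈ SH, ∃ σ ∈ II n t P, σ (pH z0 d (1 : OO n t)) = r ∧ σ z = z ∧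
      ∀ r' ∈ SH, σ r' ∈ SH := by
    intro r hr
    obtain ⟨h, hh, rfl⟩ := (hSH r).1 hr
    obtain ⟨h', h1, h2, h3⟩ := hlift h hh.2.1
    obtain ⟨σ, hσ⟩ := hSur n t P hP f' N hf' hN h' h2 h3
    have hnm : (3 : ℤ) ^ N ∣ Nm h' - 1 := TrN_tr (TrN_nat (Nm_congr h1)) hh.2.2
    refine ⟨σ, hσ.mem, ?_, hz σ h' hσ ⟨h2, h3, hnm⟩, ?_⟩
    · rw [(hG5 h' σ hσ).1]
      exact hPi3 _ _ h1
    · intro r' hr'
      obtain ⟨u, hu, rfl⟩ := (hSH r').1 hr'
      rw [hPi5 f' h' σ hf' hff' hσ u]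
      refine (hSH _).2 ⟨h' * u, ⟨?_, cop_mul h3 hu.2.1, ?_⟩, rfl⟩
      · have e : h' * u - 1 = (h' - 1) * u + (u - 1) := by ring
        rw [e]
        exact dvd_add ((hffO.trans h2).mul_right _) hu.1
      · rw [Nm_mul]
        have e1 := TrN_ml hu.2.2 (Nm h')
        rw [mul_one] at e1
        exact TrN_tr e1 hnm
  have hcov : ∀ r ∈ S, ∃ a ∈ A, ∃ r' ∈ SH, s a r' = r := by
    intro r hr
    obtain ⟨u, hu, rfl⟩ := (hS r).1 hr
    obtain ⟨u', h1, h2, h3⟩ := hlift u hu.2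
    obtain ⟨a, ha, hNu⟩ := hA2 u' h3 h2
    obtain ⟨h, hC, hNa⟩ := hA1 a ha
    have hch : Cop h (f' * 3 ^ N) := by
      have e1 : Cop h f' := by
        refine cop_congr (j := f') (a := 1) ?_ (cop_one f')
        rw [← neg_sub]
        exact (dvd_neg).2 hC.one
      have e2 : Cop h 3 := hC.cop
      unfold Cop at e1 e2 ⊢
      push_cast
      exact e1.mul_right (e2.pow_right (n := N))
    obtain ⟨v, hv, hvd⟩ := cop_inv hch
    have hd3 : (f' : OO n t) ∣ h * v - 1 := by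
      refine dvd_trans ?_ hvd
      push_cast
      exact dvd_mul_right _ _
    have hd4 : ((3 ^ N : ℕ) : OO n t) ∣ h * v - 1 := by
      refine dvd_trans ?_ hvd
      push_cast
      exact dvd_mul_left _ _
    have hv1 : (f' : OO n t) ∣ v - 1 := by
      have e : v - 1 = (h * v - 1) - (h - 1) * v := by ring
      rw [e]
      exact dvd_sub hd3 (hC.one.mul_right v)
    have hv2 : Cop v 3 := by
      refine cop_dvd hv ?_
      refine Dvd.dvd.mul_left ?_ _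
      exact dvd_pow_self 3 (by omega)
    refine ⟨a, ha, pH z0 d (v * u'), (hSH _).2 ⟨v * u', ⟨?_, cop_mul hv2 h3, ?_⟩, rfl⟩, ?_⟩
    · have e : v * u' - 1 = (v - 1) * u' + (u' - 1) := by ring
      rw [e]
      exact dvd_add ((hffO.trans hv1).mul_right _) (hffO.trans h2)
    · rw [Nm_mul]
      have e1 := TrN_ml hNu (Nm v)
      have e2 := TrN_ml hNa (Nm v)
      have e3 : (3 : ℤ) ^ N ∣ Nm v * Nm h - 1 := by
        have h5 := Nm_congr hd4
        rw [Nm_mul, Nm_one, mul_comm (Nm h)] at h5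
        exact TrN_nat h5
      exact TrN_tr (TrN_tr e1 (TrN_sy e2)) e3
    · rw [hPi5 f' h _ hf' hff' hC (v * u')]
      apply hPi3
      have e : h * (v * u') - u = (h * v - 1) * u' + (u' - u) := by ring
      rw [e]
      exact dvd_add (hd4.mul_right _) h1
  have huni : ∀ a ∈ A, ∀ a' ∈ A, ∀ r ∈ SH, ∀ r' ∈ SH, s a r = s a' r' → a = a' := by
    intro a ha a' ha' r hr r' hr' he
    obtain ⟨h, hC, hNa⟩ := hA1 a ha
    obtain ⟨h', hC', hNa'⟩ := hA1 a' ha'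
    obtain ⟨u, hu, rfl⟩ := (hSH r).1 hr
    obtain ⟨u', hu', rfl⟩ := (hSH r').1 hr'
    rw [hPi5 f' h _ hf' hff' hC u, hPi5 f' h' _ hf' hff' hC' u'] at he
    have h1 := heq _ _ (cop_mul hC.cop hu.2.1) (cop_mul hC'.cop hu'.2.1) he
    have h2 := Nm_congr h1
    rw [Nm_mul, Nm_mul] at h2
    apply hA3 a ha a' ha'
    have e1 : (3 : ℤ) ^ N ∣ (Nm h * Nm u) - (Nm h' * Nm u') := TrN_nat h2
    have e2 := TrN_ml hu.2.2 (Nm h)
    have e3 := TrN_ml hu'.2.2 (Nm h')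
    rw [mul_one] at e2 e3
    have e4 : (3 : ℤ) ^ N ∣ Nm h - Nm h' := TrN_tr (TrN_tr (TrN_sy e2) e1) e3
    exact TrN_tr (TrN_tr (TrN_sy hNa) e4) hNa'
  have hl0 : ((3 : ℕ) : Om) ^ N ≠ 0 := pow_ne_zero _ hG.pl.nz
  have hvl : vl P 3 (((3 : ℕ) : Om) ^ N) = N := DL.vl_two_pow hG.pl N
  obtain ⟨-, hsD0, hsDv, -⟩ := hT0a.2.2.2 n t P hP
  have hs0 : ∀ i ∈ A, s i ∈ II n t P := fun a ha => by
    obtain ⟨h, hC, -⟩ := hA1 a ha
    exact hC.mem
  have hlF : Fi (II n t P) (((3 : ℕ) : Om) ^ N) := by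
    intro σ _
    rw [map_pow, map_natCast]
  constructor
  · intro hGE
    have hfin := hTrH P 3 2 (II n t P) S (pH z0 d (1 : OO n t)) hG SH z (((3 : ℕ) : Om) ^ N) ℕ A s
      hmem hsub hFp hE hs0 hcov huni hl0 hlF (by
        rw [hvl, hvS]
        refine DL.GE.mono hGE (le_of_eq ?_)
        ring)
    rwa [hvl] at hfin
  · intro hGE
    have hvl' : vl P 3 (((3 : ℕ) : Om) ^ N * toO (sD n t)) = N + 1 / 2 := by
      rw [DL.vl_mul hG.pl hl0 hsD0, hvl]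
      exact congrArg _ hsDv
    have hfin := hTrH P 3 2 (II n t P) S (pH z0 d (1 : OO n t)) hG SH z
      (((3 : ℕ) : Om) ^ N * toO (sD n t)) ℕ A s
      hmem hsub hFp hE hs0 hcov huni (mul_ne_zero hl0 hsD0) (by
        intro σ hσ
        rw [map_mul, hlF σ hσ, hInK σ hσ]) (by
        rw [hvl', hvS]
        refine DL.GE.mono hGE (le_of_eq ?_)
        ring)
    rwa [hvl'] at hfin

end Pool.Agent.DM.DU.GL
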