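import Pool.Agent.Lib.DU.GL.SpecB

/-!
# Theorem DU, part GL, module Trh: the derivation on `X_c(h z)` (author helper28, after DM/GL, DR/GL)
-/

set_option autoImplicit false

open scoped Pointwise

noncomputable section

namespace Pool.Agent.DM.DU.GL

open Pool.Agent.MuZ Pool.Agent.FW Pool.Agent.DN Pool.Agent.DM Pool.Agent.DM.DU
open Pool.Agent.DI (io ofC io_inj exists_io io_ofC ofC_io VP MP UP TP ex)
open Pool.Agent.DI.GL (Fx StP mem_of_Fx Fx.mul Fx.inv Fx.one)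
open Pool.Agent.DT (kap cbr)
open Pool.Agent.DM.GL (GE vP pl pH IsR Un Sit3)
open Pool.Agent.DL (vl Pl Fi Fp Cn Cf dl Gen Dr LD)

variable {n t : ℕ}

theorem tTrh : S_Trh := by
  classical
  intro d2 hCn hDer hT0a hIn hAct hPi hGen odq tru iso n t _ P hP f N z0 d hPt c h hc hh hz0
  have hPp : P.IsPrime := hP.1.1
  have hG : G30 (⊤ : Ideal (OO n t)) := ⟨top_ne_bot, top_sup_eq _⟩
  have hf0 : 0 < f := hPt.fok.pos
  have h3c : Cop h 3 := cop_dvd hh (by norm_num)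
  have hh0 : h ≠ 0 := by
    rintro rfl
    unfold Cop at h3c
    rw [Nm_zero, isCoprime_zero_left] at h3c
    have h4 := Int.isUnit_iff.1 h3c
    norm_num at h4
  -- the derivation
  obtain ⟨SG, -, gG, hq0, hq1⟩ := gen0 hGen hP hPt
  obtain ⟨-, -, -, -, -, -, uW⟩ := (hPi n t P hP f N z0 d hPt).1 1 (cop_one 3)
  rw [show z0 + toC (1 : OO n t) * d = z0 + d by rw [toC_one, one_mul]] at uW
  obtain ⟨-, -, -, D4, D5, -⟩ := hDer P 3 2 (II n t P) SG
    (pH z0 d (1 : OO n t)) gG (N - 1 / 4) (vO (⊤ : Ideal (OO n t)) (z0 + d)) hq0 hq1 uW.1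
  obtain ⟨c1, c2, -, c4, -⟩ := hCn P (II n t P) hPp (fun σ hσ => hσ.1)
  have c0 : Cn P (II n t P) 0 := by simpa using c1 0
  -- the ideal `a = h c`
  have hsp0 : sp h ≠ ⊥ := by
    rw [Ne, Ideal.span_singleton_eq_bot]
    exact hh0
  have ha0 : sp h * c ≠ ⊥ := mul_ne_zero hsp0 hc.ne
  obtain ⟨o1, -, o3, o4, -⟩ := aO6 n t
  have haPr : PrI (sp h * c) 30 := (o1 30 _ _).2 ⟨(o4 30 h (by norm_num)).2 hh, hc.cop⟩
  have haC : (NI (sp h * c)).Coprime 30 := (o3 30 _ (by norm_num)).1 haPr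
  have haO : Odd (NI (sp h * c)) := Nat.coprime_two_right.1 (Nat.Coprime.coprime_dvd_right (by norm_num) haC)
  have haN : ((NI (sp h * c) : ℕ) : OO n t) ∈ sp h * c := by
    have h3 := (aO3 n t).2.2.1 (sp h * c)
    have h4 : ((NI (sp h * c) : ℕ) : OO n t) ∈ (sp h * c) * cjI (sp h * c) := by
      rw [h3.2.2]
      exact Ideal.mem_span_singleton_self _
    have h5 : (sp h * c) * cjI (sp h * c) ≤ sp h * c := Ideal.mul_le_left
    exact h5 h4
  obtain ⟨f', hf'⟩ : ∃ f' : ℕ, f' = f * NI (sp h * c) := ⟨_, rfl⟩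
  have hff : f ∣ f' := by
    rw [hf']
    exact dvd_mul_right _ _
  have hf'o : Fok f' := by
    refine ⟨?_, hPt.fok.dvd.trans hff, ?_⟩
    · rw [hf']
      exact Nat.mul_pos hf0 haO.pos
    · rw [hf']
      exact Nat.Coprime.mul_left hPt.fok.cop (Nat.Coprime.coprime_dvd_right (by norm_num) haC)
  obtain ⟨R, hR, -⟩ := (aL3 n t (sp h * c) ⊤ ha0 top_ne_bot).2.2
  -- the points `u`
  have hu0 : ∀ u ∈ R, ((NI (sp h * c) : ℕ) : ℂ) * u ∈ Lam (⊤ : Ideal (OO n t)) := by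
    intro u hu
    have h3 := lam_prod.1 (hR.mem u hu) _ haN
    rwa [toC_nat] at h3
  have hu1 : ∀ u ∈ R, (f' : ℂ) * u ∈ Lam (⊤ : Ideal (OO n t)) := by
    intro u hu
    have h4 := lam_nat f (hu0 u hu)
    rw [hf']
    push_cast
    rw [mul_assoc]
    exact h4
  have hut : ∀ u ∈ R, 2 * u ∈ Lam (⊤ : Ideal (OO n t)) → u ∈ Lam (⊤ : Ideal (OO n t)) := by
    intro u hu h2u
    obtain ⟨j, hj⟩ := haO
    have e : u = ((NI (sp h * c) : ℕ) : ℂ) * u - (j : ℂ) * (2 * u) := by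
      rw [hj]
      push_cast
      ring
    rw [e]
    exact lam_sub (hu0 u hu) (lam_nat j h2u)
  have hu2 : ∀ u ∈ R, z0 + u ∉ Lam (⊤ : Ideal (OO n t)) := by
    intro u hu h3
    have h4 : z0 + u ∈ Lam ((sp h * c) * ⊤) := lam_mono h3
    have h5 := lam_sub h4 (hR.mem u hu)
    rw [add_sub_cancel_right, Ideal.mul_top] at h5
    exact hz0 h5
  have hDu : ∀ u ∈ R, Dn n t P N z0 d (xO (⊤ : Ideal (OO n t)) (z0 + d + u))
      (vO (⊤ : Ideal (OO n t)) (z0 + d + u)) := fun u hu =>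
    tru n t P hP f N z0 d hPt f' u hf'o hff (hu1 u hu) (hut u hu) (hu2 u hu)
  have hfz : (f' : ℂ) * z0 ∈ Lam (⊤ : Ideal (OO n t)) := by
    rw [hf', mul_comm f]
    push_cast
    rw [mul_assoc]
    exact lam_nat _ hPt.z
  have hOu : ∀ u ∈ R, Cn P (II n t P) (xO (⊤ : Ideal (OO n t)) (z0 + u)) := by
    intro u hu
    refine (odq n t P hP ⊤ hG f' N (z0 + u) d hf'o ?_ (hu2 u hu) hPt.dd).2.2.2.2.2.2.2.1
    rw [mul_add]
    exact lam_add hfz (hu1 u hu)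
  -- the point `h z0`
  have hcs : ∀ z : ℂ, z ∈ Lam (⊤ : Ideal (OO n t)) → z ∈ Lam c := by
    intro z hz
    have h3 : z ∈ Lam (c * ⊤) := lam_mono hz
    rwa [Ideal.mul_top] at h3
  have hq := odq n t P hP c hc f N (toC h * z0) (toC h * d) hPt.fok
    (by
      have e : (f : ℂ) * (toC h * z0) = toC h * (f * z0) := by ring
      rw [e]
      exact lam_mul h (hcs _ hPt.z))
    (fun h3 => hz0 (lam_sp.2 h3))
    (by
      have e : (3 : ℂ) ^ N * (toC h * d) = toC h * (3 ^ N * d) := by ring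
      rw [e]
      exact lam_mul h (hcs _ hPt.dd))
  have hzA : z0 + d ∉ Lam (sp h * c) := by
    intro h3
    have h4 := lam_sp.1 h3
    rw [mul_add] at h4
    exact hq.2.2.2.1 h4
  have hOz : Cn P (II n t P) (xO c (toC h * z0)) := hq.2.2.2.2.2.2.2.1
  -- the factor `r`
  obtain ⟨r, hr⟩ : ∃ r : Om, r = toO h * rO (⊤ : Ideal (OO n t)) c := ⟨_, rfl⟩
  have hU2 : UP P (rO (⊤ : Ideal (OO n t)) c) := by
    have h3 := (d2 n t P hP ⊤ hG).2.2.2.2.2.2 c hc.ne hc.cop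
    rwa [Ideal.mul_top] at h3
  obtain ⟨-, -, hGK, hIn2⟩ := hIn n t P hP
  have hO2 : Cn P (II n t P) (rO (⊤ : Ideal (OO n t)) c) := by
    refine ⟨hU2.1, fun τ hτ => ?_⟩
    obtain ⟨h', hcl⟩ := (hIn2 f N hPt.fok hPt.pos).1 τ hτ
    exact ((hAct n t P hP f N h' τ hPt.fok hPt.pos hcl).2 ⊤ hG).2.1 c hc
  have hUh : UP P (toO h) := (hT0a.2.2.2 n t P hP).2.2.2.1 h h3c
  have hOh : Cn P (II n t P) (toO h) := ⟨hUh.1, fun τ hτ => hGK τ hτ h⟩
  have hrU : UP P r := by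
    rw [hr]
    exact DI.UP.mul hUh hU2
  have hrO : Cn P (II n t P) r := by
    rw [hr]
    exact (c2 _ _ hOh hO2).2.2.1
  have hr2O : Cn P (II n t P) (r ^ 2) := by
    rw [pow_two]
    exact (c2 _ _ hrO hrO).2.2.1
  have hκ : Cn P (II n t P) (r ^ 2)⁻¹ := c4 _ hr2O (DI.UP.pow hrU 2)
  have hr0 : r ≠ 0 := DI.UP.ne_zero hrU
  -- the isogeny
  have hz0n : z0 ∉ Lam (⊤ : Ideal (OO n t)) := by
    intro h3
    apply hPt.zn
    have h4 := lam_nat 2 h3
    rwa [Nat.cast_ofNat] at h4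
  have hT0 : Tor n t z0 := by
    have h3 := (odq n t P hP ⊤ hG f N z0 0 hPt.fok hPt.z hz0n
      (by rw [mul_zero]; exact lam_zero _)).2.2.1
    rwa [add_zero] at h3
  have hT : Tor n t (z0 + d) := (odq n t P hP ⊤ hG f N z0 d hPt.fok hPt.z hz0n hPt.dd).2.2.1
  obtain ⟨i1, i2⟩ := iso n t c h hc hh R hR (z0 + d) z0 hT hT0 hzA hz0
  rw [← hr] at i1 i2
  -- the derivative of the sum
  have hsum : ∀ S : Finset ℂ, S ⊆ R → Dn n t P N z0 d
      (∑ u ∈ S, (xO (⊤ : Ideal (OO n t)) (z0 + d + u) - xO (⊤ : Ideal (OO n t)) (z0 + u)))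
      (∑ u ∈ S, vO (⊤ : Ideal (OO n t)) (z0 + d + u)) := by
    intro S
    induction S using Finset.induction_on with
    | empty =>
      intro _
      rw [Finset.sum_empty, Finset.sum_empty]
      exact D4 0 c0
    | insert a S ha ih =>
      intro hS
      have haR : a ∈ R := hS (Finset.mem_insert_self a S)
      rw [Finset.sum_insert ha, Finset.sum_insert ha]
      refine (D5 _ _ _ _ ?_ (ih fun x hx => hS (Finset.mem_insert_of_mem hx))).1
      have h3 := (D5 _ _ _ _ (hDu a haR) (D4 _ (hOu a haR))).2.1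
      rwa [sub_zero] at h3
  have hS := hsum R (Finset.Subset.refl R)
  have h3 := (D5 _ _ _ _ (D5 _ _ _ _ (D4 _ hκ) hS).2.2 (D4 _ hOz)).1
  rw [← i1, ← i2] at h3
  have e1 : (r ^ 2)⁻¹ * (r ^ 2 * (xO c (toC h * (z0 + d)) - xO c (toC h * z0))) + xO c (toC h * z0) =
      xO c (toC h * (z0 + d)) := by
    rw [inv_mul_cancel_left₀ (pow_ne_zero 2 hr0)]
    ring
  have e2 : (r ^ 2)⁻¹ * (r ^ 3 * vO c (toC h * (z0 + d))) +
      r ^ 2 * (xO c (toC h * (z0 + d)) - xO c (toC h * z0)) * 0 + 0 = r * vO c (toC h * (z0 + d)) := by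
    field_simp
    ring
  rw [e1, e2] at h3
  rw [← hr]
  exact h3

end Pool.Agent.DM.DU.GL
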