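import Pool.Agent.Lib.DU.GL.SpecB

/-!
# Theorem DU, part GL, module Tru: the derivation on `X(z + u)` (author helper28, after DM/GL, DR/GL)
-/

set_option autoImplicit false

open scoped Pointwise

noncomputable section

namespace Pool.Agent.DM.DU.GL

open Pool.Agent.MuZ Pool.Agent.FW Pool.Agent.DN Pool.Agent.DM Pool.Agent.DM.DU
open Pool.Agent.DI (io ofC io_inj exists_io io_ofC ofC_io VP MP UP TP ex)
open Pool.Agent.DI.GL (Fx StP mem_of_Fx Fx.mul Fx.inv Fx.one)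
open Pool.Agent.DT (kap cbr)
open Pool.Agent.DM.GL (GE vP pl pH IsR Un Sit3)
open Pool.Agent.DL (vl Pl Fi Fp Cn Cf dl Gen Dr LD)

variable {n t : ℕ}

private theorem der_congr {P : Ideal ZZ} {z0 d : ℂ} {x y x' y' : Om} {N : ℕ} (h : Dn n t P N z0 d x y)
    (hx : x = x') (hy : y = y') : Dn n t P N z0 d x' y' := by
  subst hx hy
  exact h

theorem tTru : S_Tru := by
  classical
  intro hXO hR2 hCn hDer hKum hIn hAct hPi hGen hOdq hKud n t _ P hP f N z0 d hp f' u hf' hff' hu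
    hu2 hz0u
  have hPp : P.IsPrime := hP.1.1
  have gt : G30 (⊤ : Ideal (OO n t)) := ⟨top_ne_bot, top_sup_eq _⟩
  have hX0 := hXO n t ⊤ gt
  -- the derivation
  obtain ⟨S, -, gG, hq0, hq1⟩ := gen0 hGen hP hp
  have g3 := (hGen n t P hP f N z0 d hp).2.2.2
  have e1d : z0 + toC (1 : OO n t) * d = z0 + d := by rw [toC_one, one_mul]
  obtain ⟨-, -, -, -, -, -, uW⟩ := (hPi n t P hP f N z0 d hp).1 1 (cop_one 3)
  rw [e1d] at uW
  have vW : VP P (vO (⊤ : Ideal (OO n t)) (z0 + d)) := uW.1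
  obtain ⟨-, -, -, d4, d5, -, -, -, d9, -⟩ := hDer P 3 2 (II n t P) S
    (pH z0 d (1 : OO n t)) gG (N - 1 / 4) (vO (⊤ : Ideal (OO n t)) (z0 + d)) hq0 hq1 vW
  obtain ⟨c1, c2, c3, -⟩ := hCn P (II n t P) hPp (fun σ hσ => hσ.1)
  -- the points
  have hff0 : (f' : ℂ) * z0 ∈ Lam (⊤ : Ideal (OO n t)) := by
    obtain ⟨c, rfl⟩ := hff'
    have e : ((f * c : ℕ) : ℂ) * z0 = (c : ℂ) * (f * z0) := by
      push_cast
      ring
    rw [e]
    exact lam_nat c hp.z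
  have hz0n : z0 ∉ Lam (⊤ : Ideal (OO n t)) := by
    intro h
    apply hp.zn
    have h1 := lam_nat 2 h
    rwa [Nat.cast_ofNat] at h1
  obtain ⟨-, -, tz, nz, -, -, -, oz0, -⟩ := hOdq n t P hP ⊤ gt f' N z0 d hf' hff0 hz0n hp.dd
  -- the derivative of `X(z)`
  have hX : Dn n t P N z0 d (xO (⊤ : Ideal (OO n t)) (z0 + d)) (vO (⊤ : Ideal (OO n t)) (z0 + d)) := by
    have h1 : Dn n t P N z0 d (pH z0 d (1 : OO n t) + xO (⊤ : Ideal (OO n t)) z0)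
        (vO (⊤ : Ideal (OO n t)) (z0 + d) + 0) := (d5 _ _ _ _ d9 (d4 _ oz0)).1
    refine der_congr h1 ?_ (add_zero _)
    unfold pH
    rw [e1d]
    ring
  by_cases huL : u ∈ Lam (⊤ : Ideal (OO n t))
  · exact der_congr hX (hX0.per (z0 + d) u huL).1.symm (hX0.per (z0 + d) u huL).2.symm
  have hzu : (f' : ℂ) * (z0 + u) ∈ Lam (⊤ : Ideal (OO n t)) := by
    rw [mul_add]
    exact lam_add hff0 hu
  obtain ⟨-, -, -, nzu, vX', vW', -, -, -⟩ := hOdq n t P hP ⊤ gt f' N (z0 + u) d hf' hzu hz0u hp.dd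
  obtain ⟨-, -, -, -, -, -, uV0, oU, oV⟩ := hOdq n t P hP ⊤ gt f' N u d hf' hu huL hp.dd
  have uV : UP P (vO (⊤ : Ideal (OO n t)) u) := (uV0 (fun h => huL (hu2 h))).2
  have tu : Tor n t u := (tor_iff top_ne_bot).2 ⟨f', hf'.pos, hu⟩
  have e1 : z0 + u + d = z0 + d + u := by ring
  rw [e1] at nzu vX' vW'
  have nzm : z0 + d - u ∉ Lam (⊤ : Ideal (OO n t)) := by
    intro h
    apply hp.dn
    refine lam_mul _ ?_
    have h3 : ((f' * 3 ^ (N - 1) : ℕ) : ℂ) * (z0 + d - u) ∈ Lam (⊤ : Ideal (OO n t)) := lam_nat _ h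
    have h4 : ((f' : ℕ) : ℂ) * (3 ^ (N - 1) * d) ∈ Lam (⊤ : Ideal (OO n t)) := by
      have e : ((f' : ℕ) : ℂ) * (3 ^ (N - 1) * d) = ((f' * 3 ^ (N - 1) : ℕ) : ℂ) * (z0 + d - u) -
          ((3 ^ (N - 1) : ℕ) : ℂ) * (f' * z0) + ((3 ^ (N - 1) : ℕ) : ℂ) * (f' * u) := by
        push_cast
        ring
      rw [e]
      exact lam_add (lam_sub h3 (lam_nat _ hff0)) (lam_nat _ hu)
    have h5 : ((3 : ℕ) : ℂ) * (3 ^ (N - 1) * d) ∈ Lam (⊤ : Ideal (OO n t)) := by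
      have e : ((3 : ℕ) : ℂ) * (3 ^ (N - 1) * d) = 3 ^ N * d := by
        have e2 : (3 : ℂ) ^ N = 3 * 3 ^ (N - 1) := by
          rw [← pow_succ']
          congr 1
          have := hp.pos
          omega
        rw [e2]
        push_cast
        ring
      rw [e]
      exact hp.dd
    have hc3 : IsCoprime ((f' : ℕ) : ℤ) ((3 : ℕ) : ℤ) := Nat.isCoprime_iff_coprime.2 hf'.cop
    obtain ⟨a, b, hab⟩ := hc3
    have hab' : (a : ℂ) * (f' : ℕ) + (b : ℂ) * ((3 : ℕ) : ℂ) = 1 := by exact_mod_cast hab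
    have hint : ∀ (j : ℤ) (x : ℂ), x ∈ Lam (⊤ : Ideal (OO n t)) → (j : ℂ) * x ∈ Lam (⊤ : Ideal (OO n t)) := by
      intro j x hx
      have h7 := lam_mul ((j : ℤ) : OO n t) hx
      rwa [toC_int] at h7
    have e : (3 : ℂ) ^ (N - 1) * d = (a : ℂ) * (((f' : ℕ) : ℂ) * (3 ^ (N - 1) * d)) +
        (b : ℂ) * (((3 : ℕ) : ℂ) * (3 ^ (N - 1) * d)) := by
      linear_combination (-((3 : ℂ) ^ (N - 1) * d)) * hab'
    rw [e]
    exact lam_add (hint a _ h4) (hint b _ h5)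
  obtain ⟨k1, k2, k3⟩ := hKud n t ⊤ gt (z0 + d) u tz tu nz huL nzu nzm _ _ _ _ _ _ _ _ _ _ rfl rfl rfl
    rfl rfl rfl rfl rfl rfl rfl
  -- the element `X'`
  have hFp := (g3 f' hf' hff').2 (xO (⊤ : Ideal (OO n t)) (z0 + d + u)) (by
    intro τ hτ
    have h8 := (((hAct n t P hP f' N 1 τ hf' hp.pos hτ).2 ⊤ gt).2.2.1 (z0 + d + u) (by
      have e : ((f' * 3 ^ N : ℕ) : ℂ) * (z0 + d + u) =
          ((3 ^ N : ℕ) : ℂ) * (f' * z0) + (f' : ℂ) * (3 ^ N * d) + ((3 ^ N : ℕ) : ℂ) * (f' * u) := by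
        push_cast
        ring
      rw [e]
      exact lam_add (lam_add (lam_nat _ hff0) (lam_nat _ hp.dd)) (lam_nat _ hu))).1
    rw [toC_one, one_mul] at h8
    exact h8)
  -- the constants
  have oc : Cn P (II n t P) (cO (⊤ : Ideal (OO n t))) := by
    refine ⟨?_, fun τ hτ => ?_⟩
    · exact (hR2 n t P hP ⊤ gt).1.1
    · obtain ⟨h, hh⟩ := ((hIn n t P hP).2.2.2 f N hp.fok hp.pos).1 τ hτ
      exact ((hAct n t P hP f N h τ hp.fok hp.pos hh).2 ⊤ gt).1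
  have c0 : Cn P (II n t P) 0 := by simpa using c1 0
  have c01 : Cn P (II n t P) 1 := by simpa using c1 1
  have c8 : Cn P (II n t P) 8 := by simpa using c1 8
  have c22 : Cn P (II n t P) 2 := by simpa using c1 2
  have b2 := (c2 _ _ c01 (c2 _ _ c8 oc).2.2.1).2.1
  have b4 := (c2 _ _ c22 (c3 _ 2 oc)).2.2.1
  have b8 := (c2 _ _ (c3 _ 4 oc) c0).2.2.2
  have key := hKum P 3 2 (II n t P) S (pH z0 d (1 : OO n t)) gG (N - 1 / 4)
    (vO (⊤ : Ideal (OO n t)) (z0 + d)) hq0 hq1 vW (xO (⊤ : Ideal (OO n t)) (z0 + d))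
    (xO (⊤ : Ideal (OO n t)) (z0 + d + u)) (xO (⊤ : Ideal (OO n t)) u) (vO (⊤ : Ideal (OO n t)) (z0 + d))
    (vO (⊤ : Ideal (OO n t)) (z0 + d + u)) (vO (⊤ : Ideal (OO n t)) u) 1
    (1 - 8 * cO (⊤ : Ideal (OO n t))) (2 * cO (⊤ : Ideal (OO n t)) ^ 2) 0
    (-cO (⊤ : Ideal (OO n t)) ^ 4) oU oV c01 b2 b4 c0 b8 uV uW hFp vX' vW'
    (der_congr hX rfl (one_mul _).symm) k1 k2 k3
  exact der_congr key rfl (one_mul _)

end Pool.Agent.DM.DU.GL
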