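import Pool.Agent.Lib.DU.GL.SpecB

/-!
# Theorem DU, part GL, module `Un4`: the logarithmic derivative of the elliptic unit (helper66)
-/

set_option autoImplicit false

open scoped Pointwise

noncomputable section

namespace Pool.Agent.DM.DU.GL

open Pool.Agent.MuZ Pool.Agent.FW Pool.Agent.DN Pool.Agent.DM Pool.Agent.DM.DU
open Pool.Agent.DI (io ofC io_inj exists_io io_ofC ofC_io VP MP UP TP ex)
open Pool.Agent.DI.GL (Fx StP mem_of_Fx Fx.mul Fx.inv Fx.one)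
open Pool.Agent.DT (kap cbr)
open Pool.Agent.DM.GL (GE vP pl pH IsR Un Sit3)
open Pool.Agent.DL (vl Pl Fi Fp Cn Cf dl Gen Dr LD)

variable {n t : ℕ}

private theorem un4_pri [SqN n t] {f M : ℕ} {a : Ideal (OO n t)} (h : PrI a f) (hd : M ∣ f) :
    PrI a M := by
  obtain ⟨g, rfl⟩ := hd
  exact (((aO6 n t).2.1 M g a).1 h).1

private theorem un4_ne [SqN n t] {h : OO n t} (hh : Cop h 3) : h ≠ 0 := by
  rintro rfl
  unfold Cop at hh
  rw [Nm_zero, isCoprime_zero_left, Int.isUnit_iff] at hh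
  omega

theorem tUn4 : S_Un4 := by
  intro fix ldr o4 g3 pi sur gen mnf tht n t _ P hP f N m T hm hN hT z0 d hPt SH hSH c hc hc2
  have hPp : P.IsPrime := hP.1.1
  have hf0 : 0 < f := hm.pos
  have h30 : 30 ∣ 3 * f := by
    obtain ⟨e, he⟩ := hm.dvd
    exact ⟨2 * e, by omega⟩
  have hcf : PrI c f := un4_pri hc2 (Dvd.intro_left _ rfl)
  have hG : G30 c := ⟨hc, un4_pri hc2 h30⟩
  have hm30 : PrI m 30 := un4_pri hm.prm h30
  have hmf : PrI m f := un4_pri hm.prm (Dvd.intro_left _ rfl)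
  obtain ⟨S, hS, hG0, hq0, hq⟩ := gen0 gen hP hPt.toPt
  have hW : VP P (vO (⊤ : Ideal (OO n t)) (z0 + d)) := by
    have h3 := ((pi n t P hP f N z0 d hPt.toPt).1 1 (un_one (n := n) (t := t) f).2).2.2.2.2.2.2
    rw [toC_one, one_mul] at h3
    exact h3.1
  have hLD : LDn n t P N z0 d (uN f N m T c) (SN f N m T c) := by
    have h1 : ∀ h ∈ T, LDn n t P N z0 d (Theta m c (toC h / (f * 3 ^ N : ℕ)))
        (-(toO h * rO (⊤ : Ideal (OO n t)) c * gO m c (toC h / (f * 3 ^ N : ℕ)))) := by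
      intro h hh
      have hH : Cop h (3 * f) := (hT.mem h hh).1.1
      have hh3 : Cop h 3 := cop_dvd hH (Dvd.intro _ rfl)
      have hhf : Cop h f := cop_dvd hH (Dvd.intro_left _ rfl)
      have hh30 : Cop h 30 := cop_dvd hH h30
      have hne := un4_ne hh3
      have hsp : sp h ≠ ⊥ := fun h3 => hne (Ideal.span_singleton_eq_bot.1 h3)
      have ha : m * (sp h * c) ≠ ⊥ := mul_ne_zero hm.ne (mul_ne_zero hsp hc)
      have hpa : PrI (m * (sp h * c)) f := by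
        rw [(aO6 n t).1, (aO6 n t).1]
        exact ⟨hmf, ((aO6 n t).2.2.2.1 f h hf0).2 hhf, hcf⟩
      have h3 := tht n t P hP f N z0 d hPt.toPt m c h hm.ne hm30 hG hh30 (hPt.pri _ ha hpa)
      rwa [hPt.eq, mul_one_div] at h3
    have h3 := (ldr P 3 2 _ S _ hG0 _ _ hq0 hq hW).2.2.2.2.1 (OO n t) T _ _ h1
    have e : SN f N m T c = ∑ h ∈ T,
        -(toO h * rO (⊤ : Ideal (OO n t)) c * gO m c (toC h / (f * 3 ^ N : ℕ))) := by
      unfold SN
      rw [Finset.mul_sum, ← Finset.sum_neg_distrib]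
      refine Finset.sum_congr rfl fun h _ => ?_
      ring
    rw [e]
    exact h3
  refine ⟨hLD, ?_⟩
  have hM := (g3 n t f m N T hm hN hT c hc hc2).1
  obtain ⟨hm1, hdn, hd0, hd1⟩ := genH gen hP hPt.toPt (fun h hh => hn_un o4 (f := f) (N := N) h hh)
    (hn_one f N) hSH
  have h4 := fix P 3 2 _ S _ hG0 _ (dv n t P z0 d SH) _ SH hW hm1 hd0 hd1 le_rfl _ _ hLD.2.2.2
    (fun r hr => by
      obtain ⟨h, hh, rfl⟩ := (hSH r).1 hr
      have hu := hn_un o4 (f := f) (N := N) h hh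
      obtain ⟨σ, hσ⟩ := sur n t P hP f N hm.toFok (by omega) h hu.1 hu.2
      exact ⟨σ, hσ.mem, ((gen n t P hP f N z0 d hPt.toPt).2.2.2 f hm.toFok (dvd_refl f)).1 h σ hσ |>.1,
        (mnf n t P hP f hm.toFok).1 f N h σ (by omega) hm.toFok (dvd_refl f) hσ hh _ hM⟩)
  have h5 := DL.GE.mul_left (pl hP) (DI.UP.inv hLD.1).1 h4
  rwa [inv_mul_cancel_left₀ (DI.UP.ne_zero hLD.1)] at h5

end Pool.Agent.DM.DU.GL
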