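import Pool.Agent.Lib.DL.All
import Pool.Agent.Lib.DU.E.AllZ
import Pool.Agent.Lib.DU.O.O4
import Pool.Agent.Lib.DU.O.L6
import Pool.Agent.Lib.DM.G.AllZ
import Pool.Agent.Lib.DM.E.BC
import Pool.Agent.Lib.DM.GL.Rou
import Pool.Agent.Lib.DM.GL.Cpt3
import Pool.Agent.Lib.DM.GL.Ga3
import Pool.Agent.Lib.DM.GL.Cu
import Pool.Agent.Lib.DU.GL.Act
import Pool.Agent.Lib.DU.GL.Chi
import Pool.Agent.Lib.DU.GL.Dta
import Pool.Agent.Lib.DU.GL.Gen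
import Pool.Agent.Lib.DU.GL.HD
import Pool.Agent.Lib.DU.GL.In
import Pool.Agent.Lib.DU.GL.Iso
import Pool.Agent.Lib.DU.GL.Kud
import Pool.Agent.Lib.DU.GL.LSA
import Pool.Agent.Lib.DU.GL.LSg
import Pool.Agent.Lib.DU.GL.Mnf
import Pool.Agent.Lib.DU.GL.Odq
import Pool.Agent.Lib.DU.GL.Pi
import Pool.Agent.Lib.DU.GL.Pnt
import Pool.Agent.Lib.DU.GL.Rep
import Pool.Agent.Lib.DU.GL.Res
import Pool.Agent.Lib.DU.GL.SitU
import Pool.Agent.Lib.DU.GL.Sub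
import Pool.Agent.Lib.DU.GL.Sur
import Pool.Agent.Lib.DU.GL.T0a
import Pool.Agent.Lib.DU.GL.T0g
import Pool.Agent.Lib.DU.GL.T1g
import Pool.Agent.Lib.DU.GL.T2g
import Pool.Agent.Lib.DU.GL.Tau
import Pool.Agent.Lib.DU.GL.Tc
import Pool.Agent.Lib.DU.GL.Tht
import Pool.Agent.Lib.DU.GL.TrN
import Pool.Agent.Lib.DU.GL.Trh
import Pool.Agent.Lib.DU.GL.Tru
import Pool.Agent.Lib.DU.GL.Un4

/-!
# Theorem DU, part GL: complete, no hypotheses (author helper89)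
-/

set_option autoImplicit false

noncomputable section

namespace Pool.Agent.DM.DU.GL

open Pool.Agent.DN Pool.Agent.DM

theorem aIn : GLIn where
  O4 := zO4
  B7 := DM.aB7
  XOm := DM.zXOm
  R1 := DM.zR1
  D1 := mD1
  D2 := DU.zD2
  D8 := DM.G.zD8
  D10 := DU.zD10
  Kp := DU.zKp
  E1 := DS.zE1
  E4a := DU.zE4a
  E6 := DS.zE6
  E10 := DM.zE10 DS.zD1

theorem aRou : DM.GL.C_Rou := DM.GL.tRou

theorem aCu : DM.GL.C_Cu := DM.GL.tCu DM.GL.tCpt3 DM.GL.tGa3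

theorem aInB : GLInB where
  BC := DM.aBC
  Cv := DM.zCv
  E11 := DU.zE11
  R2 := DU.zR2
  D9 := DU.zD9
  E9 := DM.zE9 DS.zD1
  GM := DM.G.zGM
  G3 := DM.G.zG3
  Rou := aRou
  Cu := aCu

theorem aOut : GLOut :=
  asmGL DL.aOut aIn tT0a tIn tAct tRep tPi tSur tGen tHD tTrN tTc tT0g tT1g tT2g

theorem aOutB : GLOutB :=
  asmGLB DL.aOut aIn aInB aOut tOdq tKud tTru tIso tTrh tTht tPnt tMnf tUn4 tSub tSitU tTau tDta tRes tChi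
    tLSg tLSA

/-- `S_T0`. -/
theorem zT0 : S_T0 := aOut.T0

/-- `S_T1`. -/
theorem zT1 : S_T1 := aOut.T1

/-- `S_T2`. -/
theorem zT2 : S_T2 := aOut.T2

end Pool.Agent.DM.DU.GL
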