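import Pool.Agent.Lib.DU.GL.Spec

/-!
# Theorem DU, part GL: the abstract theory applies; the total different (S_Gen) (helper9; edit of `DR/GL/Gen.lean`)
-/

set_option autoImplicit false

open scoped Pointwise

noncomputable section

namespace Pool.Agent.DM.DU.GL

open Pool.Agent.MuZ Pool.Agent.FW Pool.Agent.DN Pool.Agent.DM Pool.Agent.DM.DU
open Pool.Agent.DI (io ofC io_inj exists_io io_ofC ofC_io VP MP UP TP ex)
open Pool.Agent.DT (kap cbr)
open Pool.Agent.DM.GL (GE vP pl pH IsR Un)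
open Pool.Agent.DL (vl Pl Fi Fp Cn Cf dl Gen Dr LD)

variable {n t : ℕ}

/-! ## The weights -/

private def Gen_c : ℕ → ℚ
  | 0 => 1
  | i + 1 => 2 * 3 ^ i

private theorem Gen_c_zero : Gen_c 0 = 1 := rfl

private theorem Gen_c_succ (i : ℕ) : Gen_c (i + 1) = 2 * 3 ^ i := rfl

private theorem Gen_tel (j : ℕ) : ∑ i ∈ Finset.range (j + 1), Gen_c i = 3 ^ j := by
  induction j with
  | zero => simp [Gen_c]
  | succ j ih =>
    rw [Finset.sum_range_succ, ih, Gen_c_succ]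
    ring

private theorem Gen_geo (q : ℕ → Prop) [DecidablePred q] {j M : ℕ} (hj : j < M) (hq : ∀ i, q i ↔ i ≤ j) :
    ∑ i ∈ Finset.range M, (if q i then Gen_c i else 0) = 3 ^ j := by
  rw [← Finset.sum_filter, ← Gen_tel j]
  congr 1
  ext i
  rw [Finset.mem_filter, Finset.mem_range, Finset.mem_range, hq]
  omega

private theorem Gen_low (M m : ℕ) (hm : m ≤ M) :
    ∑ i ∈ Finset.range m, Gen_c (i + 1) * ((3 : ℚ) ^ (M - i) - 1) = 2 * m * 3 ^ M - (3 ^ m - 1) := by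
  induction m with
  | zero => simp
  | succ m ih =>
    rw [Finset.sum_range_succ, ih (by omega), Gen_c_succ]
    have e : (3 : ℚ) ^ M = 3 ^ m * 3 ^ (M - m) := by
      rw [← pow_add]
      congr 1
      omega
    rw [pow_succ 3 m]
    push_cast
    linear_combination (-2 : ℚ) * e

/-- The exact level. -/
private theorem Gen_lev {v : OO n t} {M : ℕ} (h : v ∉ pp n t ^ M) :
    ∃ j : ℕ, j < M ∧ v ∈ pp n t ^ j ∧ v ∉ pp n t ^ (j + 1) := by
  classical
  have hex : ∃ m : ℕ, v ∉ pp n t ^ m := ⟨M, h⟩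
  have h1 := Nat.find_spec hex
  have h2 : Nat.find hex ≤ M := Nat.find_min' hex h
  have h0 : Nat.find hex ≠ 0 := by
    intro h0
    rw [h0, pow_zero, Ideal.one_eq_top] at h1
    exact h1 Submodule.mem_top
  refine ⟨Nat.find hex - 1, by omega, ?_, ?_⟩
  · have h3 := Nat.find_min hex (m := Nat.find hex - 1) (by omega)
    exact not_not.1 h3
  · have e : Nat.find hex - 1 + 1 = Nat.find hex := by omega
    rw [e]
    exact h1

private theorem Gen_dm {a h h' : OO n t} (h1 : a ∣ h - 1) (h2 : a ∣ h' - 1) : a ∣ h * h' - 1 := by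
  have e : h * h' - 1 = (h - 1) * h' + (h' - 1) := by ring
  rw [e]
  exact dvd_add (h1.mul_right _) h2

/-- Equal conjugates. -/
private theorem Gen_eq (hRep : C_Rep) (hPi : C_Pi) [Ram3 n t] {P : Ideal ZZ} (hP : Ab3 P) {f N : ℕ}
    {z0 d : ℂ} (hpt : Pt n t f N z0 d) {h h' : OO n t} (c : Cop h 3) (c' : Cop h' 3) :
    pH z0 d h = pH z0 d h' ↔ ((3 ^ N : ℕ) : OO n t) ∣ h - h' := by
  obtain ⟨-, -, p5, p6, -⟩ := hPi n t P hP f N z0 d hpt
  obtain ⟨-, -, q3, -, -⟩ := hRep n t N hpt.pos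
  constructor
  · intro he
    by_contra hn
    have h1 : h - h' ∉ pp n t ^ (2 * N) := fun h2 => hn ((q3 _ N).1 h2)
    obtain ⟨j, hj, hj1, hj2⟩ := Gen_lev h1
    exact (p6 h h' j c c' hj hj1 hj2).1 he
  · exact p5 h h'

open Classical in
private theorem Gen_val (hRep : C_Rep) (hPi : C_Pi) [Ram3 n t] {P : Ideal ZZ} (hP : Ab3 P) {f N : ℕ}
    {z0 d : ℂ} (hpt : Pt n t f N z0 d) {h0 h : OO n t} (c0 : Cop h0 3) (c1 : Cop h 3)
    (hn : ¬ ((3 ^ N : ℕ) : OO n t) ∣ h - h0) :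
    pH z0 d h0 - pH z0 d h ≠ 0 ∧ vl P 3 (pH z0 d h0 - pH z0 d h) * (4 * 3 ^ (2 * N - 1)) =
      ∑ i ∈ Finset.range (2 * N), (if h - h0 ∈ pp n t ^ i then Gen_c i else 0) := by
  have := hP.1.1
  obtain ⟨-, -, -, p6, -⟩ := hPi n t P hP f N z0 d hpt
  obtain ⟨-, -, q3, -, -⟩ := hRep n t N hpt.pos
  have h2 : Pl P 3 := pl hP
  have h1 : h - h0 ∉ pp n t ^ (2 * N) := fun h2 => hn ((q3 _ N).1 h2)
  obtain ⟨j, hj, hj1, hj2⟩ := Gen_lev h1
  obtain ⟨h3, h4⟩ := p6 h h0 j c1 c0 hj hj1 hj2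
  change vl P 3 _ = _ at h4
  have h5 : pH z0 d h - pH z0 d h0 ≠ 0 := sub_ne_zero.2 h3
  have e1 : pH z0 d h0 - pH z0 d h = -(pH z0 d h - pH z0 d h0) := by ring
  refine ⟨by rw [e1]; exact neg_ne_zero.2 h5, ?_⟩
  rw [e1, DL.vl_neg h2 h5, h4, Gen_geo _ hj]
  · have e : (3 : ℚ) ^ (2 * N - 1) = 3 ^ j * 3 ^ (2 * N - 1 - j) := by
      rw [← pow_add]
      congr 1
      omega
    rw [e]
    have h6 : (3 : ℚ) ^ (2 * N - 1 - j) ≠ 0 := pow_ne_zero _ (by norm_num)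
    field_simp
  · intro i
    constructor
    · intro hi
      by_contra hc
      exact hj2 (Ideal.pow_le_pow_right (by omega : j + 1 ≤ i) hi)
    · intro hi
      exact Ideal.pow_le_pow_right hi hj1

open Classical in
/-- The total different. -/
private theorem Gen_tot (hRep : C_Rep) (hPi : C_Pi) [Ram3 n t] {P : Ideal ZZ} (hP : Ab3 P) {f N : ℕ}
    {z0 d : ℂ} (hpt : Pt n t f N z0 d) {T : Finset (OO n t)} (hT : IsR N (Un f) T) {h0 : OO n t}
    (h0T : h0 ∈ T) :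
    ∏ h ∈ T.erase h0, (pH z0 d h0 - pH z0 d h) ≠ 0 ∧
      vl P 3 (∏ h ∈ T.erase h0, (pH z0 d h0 - pH z0 d h)) = N - 1 / 4 := by
  have hpr : P.IsPrime := hP.1.1
  have h2 : Pl P 3 := pl hP
  obtain ⟨-, -, -, -, q5⟩ := hRep n t N hpt.pos
  obtain ⟨-, q6⟩ := q5 f hpt.fok.pos hpt.fok.cop
  obtain ⟨c1, c3⟩ := q6 T hT
  have hall : ∀ h ∈ T.erase h0, pH z0 d h0 - pH z0 d h ≠ 0 ∧
      vl P 3 (pH z0 d h0 - pH z0 d h) * (4 * 3 ^ (2 * N - 1)) =
        ∑ i ∈ Finset.range (2 * N), (if h - h0 ∈ pp n t ^ i then Gen_c i else 0) := by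
    intro h hh
    obtain ⟨hne, hhT⟩ := Finset.mem_erase.1 hh
    refine Gen_val hRep hPi hP hpt (hT.mem _ h0T).2 (hT.mem _ hhT).2 fun hd => ?_
    exact hne (hT.uni h hhT h0 h0T hd)
  refine ⟨Finset.prod_ne_zero_iff.2 fun h hh => (hall h hh).1, ?_⟩
  have hcnt : ∀ i, ∑ h ∈ T.erase h0, (if h - h0 ∈ pp n t ^ i then Gen_c i else 0) =
      Gen_c i * (((T.filter (fun h => h - h0 ∈ pp n t ^ i)).card : ℚ) - 1) := by
    intro i
    rw [← Finset.sum_filter, Finset.sum_const, nsmul_eq_mul, mul_comm]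
    congr 1
    have e : (T.erase h0).filter (fun h => h - h0 ∈ pp n t ^ i) =
        (T.filter (fun h => h - h0 ∈ pp n t ^ i)).erase h0 := by
      ext h
      simp only [Finset.mem_filter, Finset.mem_erase]
      tauto
    have hmem : h0 ∈ T.filter (fun h => h - h0 ∈ pp n t ^ i) := by
      rw [Finset.mem_filter, sub_self]
      exact ⟨h0T, Submodule.zero_mem _⟩
    rw [e, Finset.card_erase_of_mem hmem, Nat.cast_pred (Finset.card_pos.2 ⟨h0, hmem⟩)]
  have hv : vl P 3 (∏ h ∈ T.erase h0, (pH z0 d h0 - pH z0 d h)) * (4 * 3 ^ (2 * N - 1)) =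
      ∑ i ∈ Finset.range (2 * N), Gen_c i *
        (((T.filter (fun h => h - h0 ∈ pp n t ^ i)).card : ℚ) - 1) := by
    rw [DL.vl_prod h2 _ _ fun h hh => (hall h hh).1, Finset.sum_mul,
      Finset.sum_congr rfl fun h hh => (hall h hh).2, Finset.sum_comm]
    exact Finset.sum_congr rfl fun i _ => hcnt i
  obtain ⟨M, hM⟩ : ∃ M, 2 * N = M + 1 := ⟨2 * N - 1, by have := hpt.pos; omega⟩
  have hM1 : 2 * N - 1 = M := by omega
  have hc0 : ((T.filter (fun h => h - h0 ∈ pp n t ^ 0)).card : ℚ) = 2 * 3 ^ M := by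
    have e : T.filter (fun h => h - h0 ∈ pp n t ^ 0) = T := by
      refine Finset.filter_true_of_mem fun h _ => ?_
      rw [pow_zero, Ideal.one_eq_top]
      exact Submodule.mem_top
    rw [e, c1, hM1]
    push_cast
    rfl
  have hci : ∀ i ∈ Finset.range M, Gen_c (i + 1) *
      (((T.filter (fun h => h - h0 ∈ pp n t ^ (i + 1))).card : ℚ) - 1) =
        Gen_c (i + 1) * ((3 : ℚ) ^ (M - i) - 1) := by
    intro i hi
    rw [Finset.mem_range] at hi
    rw [c3 h0 h0T (i + 1) (by omega) (by omega), hM, show M + 1 - (i + 1) = M - i by omega]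
    push_cast
    rfl
  rw [hM, Finset.sum_range_succ', Finset.sum_congr rfl hci, Gen_low M M le_rfl, hc0, Gen_c_zero,
    Nat.add_sub_cancel] at hv
  have hN : (N : ℚ) = (M + 1) / 2 := by
    have h3 : ((2 * N : ℕ) : ℚ) = ((M + 1 : ℕ) : ℚ) := by rw [hM]
    push_cast at h3
    linarith
  have hpos : 4 * (3 : ℚ) ^ M ≠ 0 := by positivity
  apply mul_right_cancel₀ hpos
  rw [hv, hN]
  ring

theorem tGen : S_Gen := by
  classical
  intro hIn hRep hPi hSur n t _ P hP f N z0 d hpt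
  have hpr : P.IsPrime := hP.1.1
  have h2 : Pl P 3 := pl hP
  have hPi' := hPi n t P hP f N z0 d hpt
  obtain ⟨p1, -, p5, -, p7⟩ := hPi'
  have hRep' := hRep n t N hpt.pos
  obtain ⟨q1, -, -, -, q5⟩ := hRep'
  obtain ⟨i1, -, -, iN⟩ := hIn n t P hP
  obtain ⟨T, hT⟩ := q1 (Un (n := n) (t := t) f)
  have hUn1 : Un (n := n) (t := t) f 1 := ⟨by rw [sub_self]; exact dvd_zero _, cop_one 3⟩
  have hUm : ∀ h h' : OO n t, Un f h → Un f h' → Un f (h * h') := fun h h' a b =>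
    ⟨Gen_dm a.1 b.1, cop_mul a.2 b.2⟩
  have hVP : ∀ h : OO n t, Cop h 3 → VP P (pH z0 d h) := by
    intro h hh
    obtain ⟨hne, hv, -⟩ := p1 h hh
    change vl P 3 _ = _ at hv
    refine (DL.vl_nonneg h2 hne).1 ?_
    rw [hv]
    positivity
  have hinj : ∀ h ∈ T, ∀ h' ∈ T, pH z0 d h = pH z0 d h' → h = h' := fun h hh h' hh' he =>
    hT.uni h hh h' hh' ((Gen_eq hRep hPi hP hpt (hT.mem h hh).2 (hT.mem h' hh').2).1 he)
  have hcls : ∀ (f' : ℕ), Fok f' → f ∣ f' → ∀ (h : OO n t) (σ : Gal(Om/ℚ)), Cls P f' N h σ →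
      (σ (pH z0 d (1 : OO n t)) = pH z0 d h ∧
        (σ (pH z0 d (1 : OO n t)) = pH z0 d (1 : OO n t) ↔ ((3 ^ N : ℕ) : OO n t) ∣ h - 1)) := by
    intro f' hf' hff h σ hc
    have e1 := p7 f' h σ hf' hff hc 1
    rw [mul_one] at e1
    exact ⟨e1, by rw [e1]; exact Gen_eq hRep hPi hP hpt hc.cop (cop_one 3)⟩
  refine ⟨⟨T.image (pH z0 d), ?_⟩, ?_, ?_, ?_⟩
  · intro x
    rw [Finset.mem_image]
    constructor
    · rintro ⟨h, hh, rfl⟩
      exact ⟨h, hT.mem h hh, rfl⟩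
    · rintro ⟨h, hh, rfl⟩
      obtain ⟨h1, h1T, h1d⟩ := hT.ex h hh
      exact ⟨h1, h1T, (p5 h h1 h1d).symm⟩
  · intro S hS
    have hST : S = T.image (pH z0 d) := by
      ext x
      rw [hS x, Finset.mem_image]
      constructor
      · rintro ⟨h, hh, rfl⟩
        obtain ⟨h1, h1T, h1d⟩ := hT.ex h hh
        exact ⟨h1, h1T, (p5 h h1 h1d).symm⟩
      · rintro ⟨h, hh, rfl⟩
        exact ⟨h, hT.mem h hh, rfl⟩
    have hcard : S.card = 2 * 3 ^ (2 * N - 1) := by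
      rw [hST, Finset.card_image_of_injOn (fun a ha b hb => hinj a ha b hb)]
      exact ((q5 f hpt.fok.pos hpt.fok.cop).2 T hT).1
    have hmemS : pH z0 d (1 : OO n t) ∈ S := (hS _).2 ⟨1, hUn1, rfl⟩
    obtain ⟨h1, h1T, h1d⟩ := hT.ex 1 hUn1
    have hpi1 : pH z0 d (1 : OO n t) = pH z0 d h1 := p5 1 h1 h1d
    obtain ⟨w1, w2⟩ := Gen_tot hRep hPi hP hpt hT h1T
    have hprod : dl S (pH z0 d (1 : OO n t)) = ∏ h ∈ T.erase h1, (pH z0 d h1 - pH z0 d h) := by
      unfold DL.dl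
      have e : S.erase (pH z0 d h1) = (T.erase h1).image (pH z0 d) := by
        ext r
        rw [hST]
        simp only [Finset.mem_erase, Finset.mem_image]
        constructor
        · rintro ⟨hr, h, hh, rfl⟩
          exact ⟨h, ⟨fun e => hr (by rw [e]), hh⟩, rfl⟩
        · rintro ⟨h, ⟨hne, hh⟩, rfl⟩
          exact ⟨fun e => hne (hinj h hh h1 h1T e), h, hh, rfl⟩
      rw [hpi1, e, Finset.prod_image]
      intro a ha b hb hab
      exact hinj a (Finset.mem_of_mem_erase ha) b (Finset.mem_of_mem_erase hb) hab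
    have hvS : ∀ r ∈ S, VP P r := by
      intro r hr
      obtain ⟨h, hh, rfl⟩ := (hS r).1 hr
      exact hVP h hh.2
    have hv0 : ∀ r ∈ S, r ≠ pH z0 d (1 : OO n t) → pH z0 d (1 : OO n t) - r ≠ 0 ∧
        0 ≤ vl P 3 (pH z0 d (1 : OO n t) - r) := by
      intro r hr hne
      have h3 : pH z0 d (1 : OO n t) - r ≠ 0 := sub_ne_zero.2 (Ne.symm hne)
      exact ⟨h3, (DL.vl_nonneg h2 h3).2 (DI.VP.sub (hVP 1 (cop_one 3)) (hvS r hr))⟩
    refine ⟨?_, hcard, by rw [hprod]; exact w2, ?_⟩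
    · refine ⟨hpr, h2, fun σ hσ => (Subgroup.mem_inf.1 hσ).1, two_pos, ?_, hmemS, ?_, ?_, ?_, (p1 1 (cop_one 3)).1, ?_⟩
      · intro x hx hx0
        obtain ⟨j, hj⟩ := i1 x hx hx0
        change vl P 3 x = _ at hj
        exact ⟨j, by rw [hj, Nat.cast_ofNat]⟩
      · intro σ hσ r hr
        obtain ⟨j1, -⟩ := iN f N hpt.fok hpt.pos
        obtain ⟨h, hh, rfl⟩ := (hS r).1 hr
        obtain ⟨h0, hc⟩ := j1 σ hσ
        rw [p7 f h0 σ hpt.fok dvd_rfl hc h]
        exact (hS _).2 ⟨h0 * h, hUm h0 h ⟨hc.one, hc.cop⟩ hh, rfl⟩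
      · intro r hr
        obtain ⟨h, hh, rfl⟩ := (hS r).1 hr
        obtain ⟨τ, hτ⟩ := hSur n t P hP f N hpt.fok hpt.pos h hh.1 hh.2
        exact ⟨τ, hτ.mem, (hcls f hpt.fok dvd_rfl h τ hτ).1⟩
      · intro σ hσ hfix r hr
        obtain ⟨j1, -⟩ := iN f N hpt.fok hpt.pos
        obtain ⟨h, hh, rfl⟩ := (hS r).1 hr
        obtain ⟨h0, hc⟩ := j1 σ hσ
        rw [p7 f h0 σ hpt.fok dvd_rfl hc h]
        have h3 := (hcls f hpt.fok dvd_rfl h0 σ hc).2.1 hfix
        refine p5 _ _ ?_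
        have e : h0 * h - h = (h0 - 1) * h := by ring
        rw [e]
        exact h3.mul_right _
      · have hv := (p1 1 (cop_one 3)).2.1
        change vl P 3 _ = _ at hv
        rw [hv, hcard]
        push_cast
        ring
    · intro C hC hC1
      have hsub : S.filter (fun x => ∃ h : OO n t, C h ∧ pH z0 d h = x) ⊆ S := Finset.filter_subset _ _
      refine ⟨S.filter (fun x => ∃ h : OO n t, C h ∧ pH z0 d h = x), ?_, hsub, ?_, ?_, ?_, ?_⟩
      · intro x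
        rw [Finset.mem_filter]
        constructor
        · rintro ⟨-, h⟩
          exact h
        · rintro ⟨h, hh, rfl⟩
          exact ⟨(hS _).2 ⟨h, hC h hh, rfl⟩, h, hh, rfl⟩
      · rw [Finset.mem_filter]
        exact ⟨hmemS, 1, hC1, rfl⟩
      · unfold DL.dl
        refine Finset.prod_ne_zero_iff.2 fun r hr => ?_
        obtain ⟨h3, h4⟩ := Finset.mem_erase.1 hr
        exact (hv0 r (hsub h4) h3).1
      · unfold DL.dl
        show 0 ≤ vl P 3 _
        rw [DL.vl_prod h2 _ _ fun r hr => (hv0 r (hsub (Finset.mem_erase.1 hr).2) (Finset.mem_erase.1 hr).1).1]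
        exact Finset.sum_nonneg fun r hr => (hv0 r (hsub (Finset.mem_erase.1 hr).2) (Finset.mem_erase.1 hr).1).2
      · rw [← w2, ← hprod]
        unfold DL.dl
        show vl P 3 _ ≤ _
        rw [DL.vl_prod h2 _ _ fun r hr => (hv0 r (hsub (Finset.mem_erase.1 hr).2) (Finset.mem_erase.1 hr).1).1,
          DL.vl_prod h2 _ _ fun r hr => (hv0 r (Finset.mem_erase.1 hr).2 (Finset.mem_erase.1 hr).1).1]
        refine Finset.sum_le_sum_of_subset_of_nonneg (Finset.erase_subset_erase _ hsub) ?_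
        intro r hr _
        exact (hv0 r (Finset.mem_erase.1 hr).2 (Finset.mem_erase.1 hr).1).2
  · intro h h' c c'
    exact Gen_eq hRep hPi hP hpt c c'
  · intro f' hf' hff
    refine ⟨hcls f' hf' hff, ?_⟩
    intro x hx σ hσ hfix
    obtain ⟨j1, -, j3, -⟩ := iN f' N hf' hpt.pos
    obtain ⟨h0, hc⟩ := j1 σ hσ
    have h3 := (hcls f' hf' hff h0 σ hc).2.1 hfix
    refine hx σ (j3 σ h0 1 hc (by rw [sub_self]; exact dvd_zero _) ?_)
    rw [← neg_sub]
    exact (dvd_neg).2 h3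

end Pool.Agent.DM.DU.GL
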