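import Pool.Agent.Lib.DM.GL.Spec
import Pool.Agent.Lib.DU.IfaceC

/-!
# Theorem DU (`p = 3`, `3` ramified), part GL, first file (author helper89): the tower at a prime above `3`; part T

`P` above `3`; `II n t P = P.inertia ∩ Gal(Om/K)` acts on the points of order `f 3^N` (`Fok f`) as the group of the `h = 1` modulo `f`, prime to `3`, modulo `3^N` (`2 * 3^(2N-1)` classes).
`z = z0 + d`, `z0` of order prime to `3`, `2 z0 ∉ O`, `d` of exact order `pp^(2N)`: `π = pH z0 d 1 = X(z) - X(z0)` has the valuation `1/(4 3^(2N-1))`, its conjugates are the numbers `pH z0 d h = X(z0 + h d) - X(z0)`, and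
`v(pH z0 d h - pH z0 d h') = 1/(4 3^(2N-1-j))` if `h - h'` is in `pp^j`, not in `pp^(j+1)`. The abstract theory (`DL/Spec.lean`, proved) applies with `p = 3`, `e = 2`: `C_Gen`. The total different is `N - 1/4`. There are no fields: `x` is in
`K0(π)` iff it is fixed by the elements of `II` of class `1`. The framing is that of `DM` (`DM/Defs.lean`).

TEMPLATES (proved): `DM/GL/X.lean` (helper85; 3 inert: same framing, `Cls`, `Pt`, `pH`) and `DR/GL/X.lean` (helper89; 2 ramified: the same structure with `e = 2`, levels `pp^j`, `Orb`). The docstrings name the file to be adapted.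

Tools: `DL/Va.lean` (the valuation `vP P x = DL.vl P 3 x`, `v(3) = 1`; `GE P q x`: `v(x) ≥ q` or `x = 0`; lemmas `DL.vl_mul`, `DL.vl_inv`, `DL.vl_div`, `DL.vl_pow`, `DL.vl_prod`, `DL.vl_add`, `DL.vl_add_lt`, `DL.vl_nonneg`, `DL.vl_pos`,
`DL.vl_zero_iff`, `DL.vl_of_up`, `DL.vl_inertia`, `DL.vl_eq`, `DL.GE.add`, `.sub`, `.neg`, `.mul`, `.mul_left`, `.mul_right`, `.sum`, `.mono`, `.vp_iff`, `.tp_iff`, `.mp`, `.inertia`, `.div`; the first argument is `pl hP : DL.Pl P 3` for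
`hP : Ab3 P`), the instance `P.IsPrime`: `have := hP.1.1`; `hP.2 : MP P 3`. `DN/Base.lean` (`nat_dvd_iff`, `cop_..`, `lam_..`, `toC_..`, `toO_..`, `tor_..`), `DI/Val.lean` (`DI.VP.add`, `DI.UP.mul`, `DI.VP.inertia`, ...). Parts O, L, B of `DN` are proved for all `[SqN n t]`:
`aO1`, `aO2`, `aO3`, `aO5` - `aO11`, `aL1` - `aL5`, `aB1` .. The statements `S_O4`, `S_D2`, `S_D9`, `S_D10`, `S_R2`, `S_Kp`, `S_E4a` are those of `DU/Iface.lean`; `S_B7`, `S_XOm`, `S_R1`, `S_D1`, `S_D8`, `S_E10` those of `DM`; `DS.S_E1`, `DS.S_E6` those of `DS/Iface.lean`.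

RULES: the statement `S_X` is to be proved as `theorem tX : S_X` in the module `Pool/Agent/Lib/DU/GL/X.lean` with the first
lines `import Pool.Agent.Lib.DU.GL.Spec`, `set_option autoImplicit false`, `open scoped Pointwise`, `noncomputable section`,
`namespace Pool.Agent.DM.DU.GL` and the `open` lines of this file. Auxiliary declarations are `private`. Every `C_X` is a statement, `S_X` the
implication from the statements used to `C_X`. All modules are independent.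
-/

set_option autoImplicit false

open scoped Pointwise

noncomputable section

namespace Pool.Agent.DM.DU.GL

open Pool.Agent.MuZ Pool.Agent.FW Pool.Agent.DN Pool.Agent.DM Pool.Agent.DM.DU
open Pool.Agent.DI (io ofC io_inj exists_io io_ofC ofC_io VP MP UP TP ex)
open Pool.Agent.DT (kap cbr)
open Pool.Agent.DM.GL (GE vP pl pH IsR Un)
open Pool.Agent.DL (vl Pl Fi Fp Cn Cf dl Gen Dr LD)

variable {n t : ℕ}

/-! ## Definitions -/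

/-- The inertia elements in `Gal(Om/K)`. -/
def II (n t : ℕ) (P : Ideal ZZ) : Subgroup Gal(Om/ℚ) := P.inertia Gal(Om/ℚ) ⊓ GK n t

/-- The element `s` of `II` acts on the torsion of level `f 3 ^ N` as `h`, `h = 1` modulo `f`. -/
structure Cls (P : Ideal ZZ) (f N : ℕ) (h : OO n t) (s : Gal(Om/ℚ)) : Prop where
  mem : s ∈ II n t P
  one : (f : OO n t) ∣ h - 1
  cop : Cop h 3
  psi : Psi s (f * 3 ^ N) (sp h)

/-- The point `z0 + d`: `z0` of order prime to `3`, not of order two, `d` of exact order `pp ^ (2 N)`. -/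
structure Pt (n t f N : ℕ) (z0 d : ℂ) : Prop where
  fok : Fok f
  pos : 1 ≤ N
  z : (f : ℂ) * z0 ∈ Lam (⊤ : Ideal (OO n t))
  zn : 2 * z0 ∉ Lam (⊤ : Ideal (OO n t))
  dd : (3 : ℂ) ^ N * d ∈ Lam (⊤ : Ideal (OO n t))
  dn : toC (sD n t) * ((3 : ℂ) ^ (N - 1) * d) ∉ Lam (⊤ : Ideal (OO n t))

/-- `S` is the set of the `pH z0 d h`, `h` with the property `C`. -/
def Orb (z0 d : ℂ) (C : OO n t → Prop) (S : Finset Om) : Prop :=
  ∀ x : Om, x ∈ S ↔ ∃ h : OO n t, C h ∧ pH z0 d h = x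

/-- The group `H_N`: `h = 1` modulo `f` and modulo `pp`, `N h = 1` modulo `3 ^ N`. -/
def Hn (f N : ℕ) (h : OO n t) : Prop :=
  (f : OO n t) ∣ h - 1 ∧ h - 1 ∈ pp n t ∧ (3 : ℤ) ^ N ∣ Nm h - 1

/-- The full group: `h = 1` modulo `f`, `h` prime to `3`, `N h = 1` modulo `3 ^ N`. -/
def Hm (f N : ℕ) (h : OO n t) : Prop :=
  (f : OO n t) ∣ h - 1 ∧ Cop h 3 ∧ (3 : ℤ) ^ N ∣ Nm h - 1

/-- The subgroup of the `h` which are `1` modulo `27`. -/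
def Hs (f N : ℕ) (h : OO n t) : Prop := Hn f N h ∧ (27 : OO n t) ∣ h - 1

/-- **The derivation** modulo `3 ^ (N - 1/4)`: `X(z) ↦ W(z)`, `z = z0 + d`. -/
abbrev Dn (n t : ℕ) (P : Ideal ZZ) (N : ℕ) (z0 d : ℂ) (x y : Om) : Prop :=
  Dr P 3 (II n t P) (pH z0 d (1 : OO n t)) (N - 1 / 4) (vO (⊤ : Ideal (OO n t)) (z0 + d)) x y

/-- The logarithmic derivative of units. -/
abbrev LDn (n t : ℕ) (P : Ideal ZZ) (N : ℕ) (z0 d : ℂ) (x y : Om) : Prop :=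
  LD P 3 (II n t P) (pH z0 d (1 : OO n t)) (N - 1 / 4) (vO (⊤ : Ideal (OO n t)) (z0 + d)) x y

/-! ## Constants -/

/-- Valuations of constants; fourth roots of unity. -/
def C_T0a : Prop :=
  w4 ^ 4 = 3 ∧ w4 ≠ 0 ∧
  (∀ P : Ideal ZZ, Ab3 P → vP P w4 = 1 / 4 ∧ VP P w4 ∧
    ∀ y : Om, y ^ 4 = 1 → UP P y ∧ (MP P (y - 1) → y = 1) ∧ ∀ τ ∈ P.inertia Gal(Om/ℚ), τ y = y) ∧
  ∀ (n t : ℕ) [Ram3 n t] (P : Ideal ZZ), Ab3 P →
    UP P (toO (sD n t) ^ 2 / 3) ∧ toO (sD n t) ≠ 0 ∧ vP P (toO (sD n t)) = 1 / 2 ∧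
    (∀ v : OO n t, Cop v 3 → UP P (toO v)) ∧ (∀ v ∈ pp n t, GE P (1 / 2) (toO v)) ∧
    (∀ v : OO n t, VP P ((toO v - zs v) / toO (sD n t)) ∧ GE P (1 / 2) (toO v - zs v)) ∧
    ∀ v : OO n t, Cop v 3 → (zs v = 1 ∨ zs v = -1) ∧ (zs v = 1 ↔ v - 1 ∈ pp n t)

/-- (130 lines) **T0a** (from O4). PROOF. `w4`: `Om` is algebraically closed (`IsAlgClosed.exists_pow_nat_eq`), so the condition in the definition holds (`Exists.choose_spec`); `4 v(w4) = v(3) = 1` (`DL.vl_pow`, `DL.vl_eq`), `VP` by `DI.VP.of_pow` or `DL.vl_nonneg`. Fourth roots of unity: `UP`; `(y - 1) (1 + y + y² + y³) = 0` and `1 + y + y² + y³ - 4 ∈ P` if `y - 1 ∈ P`, `4` is not in `P` (`4 - 3 = 1`), so `y = 1`.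
INERTIA: `x = τ y / y`, `x ^ 4 = 1`, `MP P (τ y - y)` (`DI.VP.inertia`), so `x = 1`. `sD`: `sD * sD = -Dk` (S_O4), `Dk = 3 D'`, `D'` prime to `3`, so `toO sD ^ 2 / 3 = -D'`, an integer prime to `3`: `UP`; `vP = 1/2` by `DL.vl_eq` (`b = 2`, `a = 1`). `Cop v 3`: `toO v * toO (cjO v) = Nm v` (`aO2`), an integer prime to `3`; both factors are integral: `UP`.
`v ∈ pp = span {3, sD}` (`Ideal.mem_span_pair`): `v = 3 x + sD y` (`sD y` or `y sD`), `GE` by `DL.GE.add`, `DL.GE.mul`. `v - zs v ∈ pp` (S_O4); dividing by `toO sD` (`3 / toO sD = -toO sD/D'`, or `DL.GE.div`, `DL.GE.vp_iff`). Last item: `Cop v 3 ↔ v ∉ pp`, `zs v = 0 ↔ v ∈ pp`; `zs v = 1`: `v - 1 ∈ pp` (S_O4); conversely `v - 1 ∈ pp` gives `zs v = zs 1 = 1`. -/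
def S_T0a : Prop := S_O4 → C_T0a

/-! ## Inertia elements and points -/

/-- The elements of `II` have classes. -/
def C_In : Prop :=
  ∀ (n t : ℕ) [Ram3 n t] (P : Ideal ZZ), Ab3 P →
    (∀ x : Om, Fi (II n t P) x → x ≠ 0 → ∃ j : ℤ, vP P x = j / 2) ∧
    (∀ τ ∈ P.inertia Gal(Om/ℚ), ∀ σ ∈ II n t P, τ⁻¹ * σ * τ ∈ II n t P) ∧
    (∀ τ ∈ II n t P, ∀ v : OO n t, τ (toO v) = toO v) ∧
    ∀ f N : ℕ, Fok f → 1 ≤ N →
    (∀ τ ∈ II n t P, ∃ h : OO n t, Cls P f N h τ) ∧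
    (∀ (τ : Gal(Om/ℚ)) (h h' : OO n t), Cls P f N h τ → Cls P f N h' τ → ((3 ^ N : ℕ) : OO n t) ∣ h - h') ∧
    (∀ (τ : Gal(Om/ℚ)) (h h' : OO n t), Cls P f N h τ → (f : OO n t) ∣ h' - 1 →
      ((3 ^ N : ℕ) : OO n t) ∣ h' - h → Cls P f N h' τ) ∧
    (∀ (τ τ' : Gal(Om/ℚ)) (h h' : OO n t), Cls P f N h τ → Cls P f N h' τ' → Cls P f N (h * h') (τ * τ')) ∧
    Cls P f N (1 : OO n t) 1 ∧
    (∀ (τ : Gal(Om/ℚ)) (h h' : OO n t), Cls P f N h τ → (f : OO n t) ∣ h' - 1 →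
      ((3 ^ N : ℕ) : OO n t) ∣ h * h' - 1 → Cls P f N h' τ⁻¹) ∧
    (∀ τ : Gal(Om/ℚ), Cls P f N (1 : OO n t) τ ↔
      τ ∈ II n t P ∧ Psi τ (f * 3 ^ N) (⊤ : Ideal (OO n t))) ∧
    ∀ (τ : Gal(Om/ℚ)) (h : OO n t) (f' N' : ℕ), Cls P f N h τ → Fok f' → f' ∣ f → 1 ≤ N' → N' ≤ N →
      Cls P f' N' h τ

/-- (170 lines) **In** (from DL.K2, DS.E1, E4a). Adapt `DM/GL/In.lean`; there the inertia elements are in `GK` (first claim), here `II` is defined as the intersection, and S_E4a gives `Ray f a ⊤` for `τ ∈ II` (`N := f * 3 ^ N`, `N' := f`). The first three items: (i) DL.C_K2 with `p = 3`, `G = GK n t`: `GK n t` has index at most two: for `g ∉ GK n t`: `g (wO) = t - wO`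
(`wO ^ 2 = t wO - n`; `mem_GK_iff`), so `g g' (wO) = wO` if `g, g' ∉ GK n t`; `II n t P` is `P.inertia ⊓ GK n t` by definition. See `DR/GL/In.lean`. (ii) `P.inertia` is a subgroup; `τ (wO)` is `wO` or `t - wO`, `σ` fixes both, so `τ⁻¹ σ τ` fixes `wO`. (iii) `GK_toO`. -/
def S_In : Prop := DL.C_K2 → DS.S_E1 → S_E4a → C_In

/-- The action on points. -/
def C_Act : Prop :=
  ∀ (n t : ℕ) [Ram3 n t] (P : Ideal ZZ), Ab3 P → ∀ (f N : ℕ) (h : OO n t) (τ : Gal(Om/ℚ)), Fok f → 1 ≤ N →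
    Cls P f N h τ → (∀ ζ : Om, ζ ^ 3 ^ N = 1 → τ ζ = ζ ^ (Nm h).toNat) ∧ ∀ b : Ideal (OO n t), G30 b →
      τ (cO b) = cO b ∧ (∀ c : Ideal (OO n t), G30 c → τ (rO b c) = rO b c) ∧
      (∀ z : ℂ, ((f * 3 ^ N : ℕ) : ℂ) * z ∈ Lam b →
        τ (xO b z) = xO b (toC h * z) ∧ τ (vO b z) = vO b (toC h * z)) ∧
      (∀ z : ℂ, (f : ℂ) * z ∈ Lam b → τ (xO b z) = xO b z ∧ τ (vO b z) = vO b z) ∧
      ∀ m : Ideal (OO n t), m ≠ ⊥ → PrI m 30 → NI m ∣ f →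
        ∀ z : ℂ, ((f * 3 ^ N : ℕ) : ℂ) * z ∈ Lam b → z ∉ Lam (m * b) →
          τ (gO m b z) = gO m b (toC h * z) ∧ τ (Theta m b z) = Theta m b (toC h * z)

/-- (130 lines) **Act** (from B7, R1, XOm, D8, DS.E6, E10). Adapt `DM/GL/Act.lean` word for word (`τ ∈ GK` is now `Cls.mem.2`; `S_In` is not needed). -/
def S_Act : Prop := S_B7 → S_R1 → S_XOm → S_D8 → DS.S_E6 → S_E10 → C_Act

open Classical in
/-- Finite sets of representatives modulo `3 ^ N`; `pp`-adic levels. -/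
def C_Rep : Prop :=
  ∀ (n t : ℕ) [Ram3 n t] (N : ℕ), 1 ≤ N → (∀ C : OO n t → Prop, ∃ T : Finset (OO n t), IsR N C T) ∧
    (∀ (C : OO n t → Prop) (T T' : Finset (OO n t)), IsR N C T → IsR N C T' → T.card = T'.card) ∧
    (∀ (v : OO n t) (i : ℕ), (v ∈ pp n t ^ (2 * i) ↔ ((3 ^ i : ℕ) : OO n t) ∣ v)) ∧
    (∀ (v u : OO n t) (j : ℕ), Cop u 3 → (u * v ∈ pp n t ^ j ↔ v ∈ pp n t ^ j)) ∧
    ∀ f : ℕ, 0 < f → f.Coprime 3 →
      (∀ v : OO n t, ∃ v' : OO n t, (f : OO n t) ∣ v' - 1 ∧ ((3 ^ N : ℕ) : OO n t) ∣ v' - v) ∧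
      ∀ T : Finset (OO n t), IsR N (Un f) T → T.card = 2 * 3 ^ (2 * N - 1) ∧
        ∀ h0 ∈ T, ∀ j : ℕ, 1 ≤ j → j ≤ 2 * N →
          (T.filter (fun h => h - h0 ∈ pp n t ^ j)).card = 3 ^ (2 * N - j)

/-- (230 lines) **Rep** (from O4). Items (1), (2), (5): as in `DM/GL/Rep.lean` (copy). (3), (4): as in `DR/GL/Rep.lean`: `pp * pp = sp 3` (S_O4), so `pp ^ (2 i) = sp (3 ^ i)`, `Ideal.mem_span_singleton`. (4) `u v ∈ pp^j` implies `v ∈ pp^j` for `u ∉ pp` (`Cop u 3 ↔ u ∉ pp`): `sp u ⊔ pp = ⊤` (`pp` is maximal: prime and not `⊥`; or: `zs u = ± 1`, so `1 - zs u * u ∈ pp`),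
so `sp u ⊔ pp ^ j = ⊤` (`Ideal.IsCoprime.pow_right`): `1 = a u + b`, `v = a (u v) + b v`. COUNTING (adapt `DR/GL/Rep.lean`): the condition modulo `f` can always be satisfied, so count pairs modulo `3^N`. `Cop v 3` iff `v ∉ pp` iff `zs v ≠ 0`; exactly one of `v, v + 1, v + 2` is in `pp` (`v - zs v ∈ pp`, `1 ∉ pp`): a third of the pairs is in `pp`: `card T = 9^N - 9^N/3 = 2 * 3^(2N-1)`.
`j = 2 i`, `1 ≤ i`: `3^i ∣ h - h0`: the classes of `h0 + 3^i u`, `u` modulo `3^(N-i)`: `9^(N-i)`. `j = 2 i + 1`, `i < N`: `h - h0 = 3^i u` with `u ∈ pp` (from (3) and `pp ^ (2 i + 1) = sp (3^i) * pp`), `u` modulo `3^(N-i)`: a third of the pairs modulo `3^(N-i)`: `9^(N-i)/3 = 3^(2N - j)` (for `i = 0`: `h0 + u`, `u ∈ pp`, is prime to `3` automatically; for `i ≥ 1` too). -/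
def S_Rep : Prop := S_O4 → C_Rep

/-- Valuations at the conjugates. -/
def C_Pi : Prop :=
  ∀ (n t : ℕ) [Ram3 n t] (P : Ideal ZZ), Ab3 P → ∀ (f N : ℕ) (z0 d : ℂ), Pt n t f N z0 d →
    (∀ h : OO n t, Cop h 3 → pH z0 d h ≠ 0 ∧ vP P (pH z0 d h) = 1 / (4 * 3 ^ (2 * N - 1)) ∧
      Tor n t (z0 + toC h * d) ∧ z0 + toC h * d ∉ Lam (⊤ : Ideal (OO n t)) ∧
      ¬ IK P (⊤ : Ideal (OO n t)) (2 * (z0 + toC h * d)) ∧
      VP P (xO (⊤ : Ideal (OO n t)) (z0 + toC h * d)) ∧ UP P (vO (⊤ : Ideal (OO n t)) (z0 + toC h * d))) ∧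
    VP P (xO (⊤ : Ideal (OO n t)) z0) ∧
    (∀ h h' : OO n t, ((3 ^ N : ℕ) : OO n t) ∣ h - h' → pH z0 d h = pH z0 d h') ∧
    (∀ (h h' : OO n t) (j : ℕ), Cop h 3 → Cop h' 3 → j < 2 * N → h - h' ∈ pp n t ^ j →
      h - h' ∉ pp n t ^ (j + 1) →
      pH z0 d h ≠ pH z0 d h' ∧ vP P (pH z0 d h - pH z0 d h') = 1 / (4 * 3 ^ (2 * N - 1 - j))) ∧
    ∀ (f' : ℕ) (h : OO n t) (τ : Gal(Om/ℚ)), Fok f' → f ∣ f' → Cls P f' N h τ → ∀ h' : OO n t,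
      τ (pH z0 d h') = pH z0 d (h * h')

/-- (210 lines) **Pi** (from O4, XOm, D1, D2, D10, Act, Rep). Adapt `DM/GL/Pi.lean` (points, `IK`, `UP`, the action) and `DR/GL/Pi.lean` (the `pp`-orders). POINTS: `z = z0 + h d`; `2 z` is not `P`-primary: suppose `Qp P ⊤ (2 z)`: take `α = f` (`¬ MP P (toO f)`: `f` prime to `3`), `β = 3^N`: `3^N (2 z) ∈ O`, so `3^N (2 z0) ∈ O`, and `f z0 ∈ O`: `2 z0 ∈ O`, contradiction to `Pt.zn`.
So `¬ IK P ⊤ (2 z)` (S_D2 (5)), `UP (vO ..)` (S_D2 (4)), `¬ IK P ⊤ z` (S_D1: `IK` is stable under `toC 2`), `VP (xO ..)` (S_D2 (3)), `z ∉ O` (S_D1 (2)). The same with `h = 0`: `¬ IK P ⊤ (2 z0)`, `VP (xO ⊤ z0)`. ORDERS: the annihilator `J = {v | v d ∈ O}` of `d` modulo `O = Lam ⊤` is an ideal which contains `3^N`, i.e. `sp (3^N) = pp^(2N)`, and does not contain `sD * 3^(N-1)`, which is in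
`pp^(2N-1)` (`sD ∈ pp`). By S_O4 (last item) `J = pp^i * a'` with `PrI a' 3`, and `pp^(2N) ≤ J` gives `a' = ⊤`, `i ≤ 2N`; `J ≠ pp^(2N)` would give `pp^(2N-1) ≤ J`: contradiction. So `v d ∈ O ↔ v ∈ pp^(2N)`. Hence for `v ∈ pp^j`, `v ∉ pp^(j+1)` (`j < 2N`): `v d ∈ Lam (pp^(2N-j))` (all `u ∈ pp^(2N-j)`: `u v ∈ pp^(2N)`), `v d ∉ Lam (pp^(2N-j-1))`
(otherwise `sD^(2N-j-1) v ∈ pp^(2N)`, but `sp sD = pp * c`, `c` prime to `3` (S_O4): use Rep (4), or write `sp v = pp^j a''`, `PrI a'' 3`). See `DR/GL/Pi.lean`. S_D10 at `z0` with `j := 2N - 1` and the point `h d`: `UP (pH^(4 * 3^(2N-1))/3)`: `≠ 0`, `vP` (`DL.vl_eq` with `b = 4 * 3^(2N-1)`, `a = 1`). DIFFERENCES: `z0 + h d = (z0 + h' d) + (h - h') d`,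
`(h - h') d` has exact order `pp^(2N-j)`: S_D10 at `z0 + h' d` with `j := 2N - 1 - j`. Equal classes: `(h - h') d ∈ O`: `XOm.cng`. THE ACTION: Act for `b = ⊤`, `f' 3^N` kills `z0 + h' d`: `τ (xO ⊤ (z0 + h' d)) = xO ⊤ (h (z0 + h' d))`, `h z0 - z0 = (h - 1) z0 ∈ O` (`f ∣ f' ∣ h - 1`), so it is `xO ⊤ (z0 + h h' d)`; `τ (xO ⊤ z0) = xO ⊤ z0`. -/
def S_Pi : Prop := S_O4 → S_XOm → S_D1 → S_D2 → S_D10 → C_Act → C_Rep → C_Pi

/-- **Total ramification**: every class is the class of an element of `II`. -/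
def C_Sur : Prop :=
  ∀ (n t : ℕ) [Ram3 n t] (P : Ideal ZZ), Ab3 P → ∀ f N : ℕ, Fok f → 1 ≤ N →
    ∀ h : OO n t, (f : OO n t) ∣ h - 1 → Cop h 3 → ∃ τ : Gal(Om/ℚ), Cls P f N h τ

/-- (140 lines) **Sur** (from O4, In, Rep, Pi). Adapt `DM/GL/Sur.lean`. PROOF. `z0 = 1/f`, `d = 1/3^N`: `Pt n t f N z0 d` (`lam_top`; `2/f ∉ O`: as in `DM/GL/Sur.lean`; `sD * 3^(N-1)/3^N = sD/3 ∉ O`: otherwise `sD = 3 u`, second coordinate: `2 = 3 u.im`). `T` with `IsR N (Un f) T` (Rep), `card T = 2 * 3^(2N-1)`. `A = {h ∈ T | ∃ τ, Cls P f N h τ}`,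
nonempty (In (5)). `x = ∏_(h ∈ A) pH z0 d h ≠ 0`, `v(x) = card A/(4 * 3^(2N-1))`. `x` is fixed by every `τ ∈ II` (as in `DM/GL/Sur.lean`). In (i): `v(x) = j/2`, so `card A = 2 * 3^(2N-1) * j`, `0 < card A ≤ card T`: `A = T`. So every `h ∈ T` is a class, then every `h` with `Un f h` (In (3)). -/
def S_Sur : Prop := S_O4 → C_In → C_Rep → C_Pi → C_Sur

/-- **Gen.** The abstract theory applies. -/
def C_Gen : Prop :=
  ∀ (n t : ℕ) [Ram3 n t] (P : Ideal ZZ), Ab3 P → ∀ (f N : ℕ) (z0 d : ℂ), Pt n t f N z0 d →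
    (∃ S : Finset Om, Orb z0 d (Un (n := n) (t := t) f) S) ∧
    (∀ S : Finset Om, Orb z0 d (Un (n := n) (t := t) f) S →
      Gen P 3 2 (II n t P) S (pH z0 d (1 : OO n t)) ∧ S.card = 2 * 3 ^ (2 * N - 1) ∧
      vP P (dl S (pH z0 d (1 : OO n t))) = N - 1 / 4 ∧
      ∀ C : OO n t → Prop, (∀ h, C h → Un f h) → C 1 → ∃ S' : Finset Om, Orb z0 d C S' ∧ S' ⊆ S ∧
        pH z0 d (1 : OO n t) ∈ S' ∧ dl S' (pH z0 d (1 : OO n t)) ≠ 0 ∧
        0 ≤ vP P (dl S' (pH z0 d (1 : OO n t))) ∧ vP P (dl S' (pH z0 d (1 : OO n t))) ≤ N - 1 / 4) ∧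
    (∀ h h' : OO n t, Cop h 3 → Cop h' 3 → (pH z0 d h = pH z0 d h' ↔ ((3 ^ N : ℕ) : OO n t) ∣ h - h')) ∧
    ∀ f' : ℕ, Fok f' → f ∣ f' →
      (∀ (h : OO n t) (σ : Gal(Om/ℚ)), Cls P f' N h σ → σ (pH z0 d (1 : OO n t)) = pH z0 d h ∧
        (σ (pH z0 d (1 : OO n t)) = pH z0 d (1 : OO n t) ↔ ((3 ^ N : ℕ) : OO n t) ∣ h - 1)) ∧
      ∀ x : Om, (∀ σ : Gal(Om/ℚ), Cls P f' N (1 : OO n t) σ → σ x = x) →
        Fp (II n t P) (pH z0 d (1 : OO n t)) x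

/-- (220 lines) **Gen** (from In, Rep, Pi, Sur). Adapt `DR/GL/Gen.lean` (the same structure, `2` is now `3`). PROOF. `π_h = pH z0 d h`, it depends only on `h` modulo `3^N`, and for `h, h'` prime to `3`: `π_h = π_h'` iff `3^N ∣ h - h'` (Pi (4), (3): if not `3^N ∣ h - h'`, i.e. `h - h' ∉ pp^(2N)` (Rep (3)), let `j < 2N` be maximal with `h - h' ∈ pp^j`). `S`: the image under `π` of a system `T` for `Un f` (Rep);
injective, so `card S = 2 * 3^(2N-1)`. `Gen`: `prime`, `pl hP`, `ine`, `pos`, `val`: In (i); `mem`: `h = 1`; `stab`: `σ ∈ II` has a class `h0` (In (1)), `σ π_h = π_(h0 h)` (Pi (5)); `tra`: Sur, `σ π_1 = π_h`; `ab`: `σ π_1 = π_(h0) = π_1` gives `3^N ∣ h0 - 1`, `σ π_h = π_(h0 h) = π_h`; `ne`, `vpi`: Pi (1), `1/(4 * 3^(2N-1)) = 1/(2 * (2 * 3^(2N-1)))`.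
DIFFERENT: `vP (dl S π) = ∑_(h ∈ T, h ≠ h1) v(π_(h1) - π_h)`, `h1 ∈ T` with `3^N ∣ h1 - 1` (`DL.vl_prod`). The number of `h ∈ T` with `h - h1 ∉ pp` is `2 * 3^(2N-1) - 3^(2N-1) = 3^(2N-1)` (Rep, `j = 1`), each with the valuation `1/(4 * 3^(2N-1))` (`j = 0`): together `1/4`. The number of `h ∈ T` with `h - h1 ∈ pp^j`, `∉ pp^(j+1)` (`1 ≤ j < 2N`) is
`3^(2N-j) - 3^(2N-j-1) = 2 * 3^(2N-1-j)`, each with the valuation `1/(4 * 3^(2N-1-j))`: together `1/2`; the sum is `1/4 + (2N-1)/2 = N - 1/4`. `S'`: `S.filter`; `dl S' π ∣ dl S π` with integral quotient: differences of elements of `S` are integral, not `0`. LAST ITEMS. `Cls P f' N h σ`: `σ π_1 = π_(h * 1)` (Pi (5)). `x` fixed by class `1`: `σ ∈ II`, `σ π = π`: `Cls P f' N h0 σ` (In (1) for `f'`),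
so `3^N ∣ h0 - 1`, `Cls P f' N 1 σ` (In (3)): `σ x = x`. -/
def S_Gen : Prop := C_In → C_Rep → C_Pi → C_Sur → C_Gen

/-! ## The group `H_N` -/

/-- **HD.** The number `D(H) = v(dl SH π)` is at most `2` and nearly the same for the groups `Hm`, `Hn`, `Hs`. -/
def C_HD : Prop :=
  ∀ (n t : ℕ) [Ram3 n t] (P : Ideal ZZ), Ab3 P → ∀ (f N : ℕ) (z0 d : ℂ), Pt n t f N z0 d → 4 ≤ N →
    ∀ SM SH SH2 : Finset Om, Orb z0 d (Hm (n := n) (t := t) f N) SM → Orb z0 d (Hn (n := n) (t := t) f N) SH →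
      Orb z0 d (Hs (n := n) (t := t) f N) SH2 →
      vP P (dl SH (pH z0 d (1 : OO n t))) ≤ 2 ∧
      vP P (dl SM (pH z0 d (1 : OO n t))) ≤ vP P (dl SH (pH z0 d (1 : OO n t))) + 3 ^ 6 / 3 ^ N ∧
      vP P (dl SH (pH z0 d (1 : OO n t))) ≤ vP P (dl SH2 (pH z0 d (1 : OO n t))) + 3 ^ 6 / 3 ^ N

/-- (240 lines) **HD** (from O4, Rep, Pi). Compare `DR/GL/HD.lean`. PROOF. `T` a system for `Hn f N` modulo `3^N` (Rep), `h1 ∈ T` with `3^N ∣ h1 - 1`; `SH` is the image of `T` under the injective map `h ↦ π_h` (Pi (3), (4), Rep (3); `Hn f N h` implies `Cop h 3`: `h - 1 ∈ pp`, `h ∉ pp`, S_O4), `D(H) = ∑_(h ∈ T, h ≠ h1) v(π_(h1) - π_h)`, a term with `h - h1 ∈ pp^j`, `∉ pp^(j+1)` is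
`1/(4 * 3^(2N-1-j)) = 3^j/(4 * 3^(2N-1))`. `SH2` is the image of the `h ∈ T` with `27 ∣ h - 1` (a system for `Hs f N`). COUNT. `n_i = #{h ∈ T : 3^i ∣ h - 1}` for `1 ≤ i ≤ N`. (a) `n_i ≤ 3^(N-i)`: the map `(h, a) ↦ h (1 + 3^i f a)`, `a < 3^(N-i)`, into the classes modulo `3^N` of the elements `1` modulo `3^i` and modulo `f` (there are `9^(N-i)`: Rep with `j = 2 i`, the element `h0` congruent to `1`)
is injective: equal classes have equal norms modulo `3^N`, `N h = N h' = 1`: `(1 + 3^i f a)^2 = (1 + 3^i f b)^2`, i.e. `3^i f (a - b)(2 + 3^i f (a + b)) = 0` modulo `3^N`; the last factor and `f` are prime to `3`: `3^(N-i) ∣ a - b`, `a = b`; then `h = h'` modulo `3^N` (`1 + 3^i f a` is prime to `3`: cancel). So `n_i 3^(N-i) ≤ 9^(N-i)`. (b) `card T ≤ 3^N`: the same with `(h, a) ↦ h (1 + 3 f a)`,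
`a < 3^(N-1)`, into the `3^(2N-1)` classes of the `Un f` which are `1` modulo `pp` (Rep, `j = 1`). SUMS. (1) The terms with not `3 ∣ h - 1` (`h - 1 ∈ pp`, level `1`; at most `3^N`) are `3/(4 * 3^(2N-1))`: together at most `3^(2-N)/4`. The terms with `3^i ∣ h - 1`, not `3^(i+1) ∣ h - 1` (level `2 i` or `2 i + 1`, at most `3^(N-i)`) are at most `3^(2i+1)/(4 * 3^(2N-1))`:
`D(H) ≤ 3^(2-N)/4 + ∑_(i=1)^(N-1) 3^(i+2-N)/4 ≤ 1 + 9/8 ≤ 9/4`-like; more precisely `∑_(i=1)^(N-1) 3^i ≤ 3^N/2`, so `D(H) ≤ 9/(4 * 3^N) + 9/8 ≤ 2`. (2) `SM`: a system `T'` for `Hm f N`: `T` and the `h ∈ T'` with `h - 1 ∉ pp`; multiplication by a fixed such element (if there is one; modulo `3^N`, `cop_inv`) shows that there are at most `card T ≤ 3^N` of them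
(the product or quotient of two elements `h, h'` of `Hm` with `zs h = zs h' = -1` is in `Hn`: `zs` is multiplicative, S_O4), each term is `1/(4 * 3^(2N-1))` (level `0`): together `≤ 3^(1-N)`. (3) `D(H) - D(H2)`: the terms with not `27 ∣ h - 1`: level at most `5`: at most `card T * 3^5/(4 * 3^(2N-1)) ≤ 3^(6-N)`. -/
def S_HD : Prop := S_O4 → C_Rep → C_Pi → C_HD

/-! ## Traces -/

/-- **TrN.** The trace over the norm classes of an element fixed by the elements of `II` with class in `Hm`. -/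
def C_TrN : Prop :=
  ∀ (n t : ℕ) [Ram3 n t] (P : Ideal ZZ), Ab3 P → ∀ (f N : ℕ) (z0 d : ℂ), Pt n t f N z0 d →
    ∀ (SM : Finset Om), Orb z0 d (Hm (n := n) (t := t) f N) SM → ∀ (f' : ℕ), Fok f' → f ∣ f' →
    ∀ (A : Finset ℕ) (s : ℕ → Gal(Om/ℚ)),
      (∀ a ∈ A, ∃ h : OO n t, Cls P f' N h (s a) ∧ (3 : ℤ) ^ N ∣ Nm h - a) →
      (∀ h : OO n t, Cop h 3 → (f' : OO n t) ∣ h - 1 → ∃ a ∈ A, (3 : ℤ) ^ N ∣ Nm h - a) →
      (∀ a ∈ A, ∀ a' ∈ A, (3 : ℤ) ^ N ∣ (a : ℤ) - a' → a = a') →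
      ∀ z : Om, (∀ (σ : Gal(Om/ℚ)) (h : OO n t), Cls P f' N h σ → Hm f' N h → σ z = z) →
        (GE P (1 / 4 + vP P (dl SM (pH z0 d (1 : OO n t)))) z → GE P N (∑ a ∈ A, s a z)) ∧
        (GE P (3 / 4 + vP P (dl SM (pH z0 d (1 : OO n t)))) z → GE P (N + 1 / 2) (∑ a ∈ A, s a z))

/-- (160 lines) **TrN** (from DL.TrH, T0a, In, Rep, Pi, Sur, Gen). Adapt `DR/GL/TrN.lean` (`Hn`, with the norms `± 1`, is now `Hm`; one sign). PROOF. `DL.C_TrH` with `l = 3^N` (`vl = N`), respectively `l = 3^N * toO (sD n t)` (`vl = N + 1/2`: T0a; `Fi`: In (iii)), `S` from Gen: the exponent is `N - (N - 1/4) + v(dl SM π)`, respectively `N + 1/2 - (N - 1/4) + v(dl SM π)`. `Fp z`: Gen (last item, with `f'`): an element of class `1`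
for `f'` satisfies `Hm f' N 1`. `r ∈ SM`: `r = π_h`, `Hm f N h`; `h'` congruent to `h` modulo `3^N` and to `1` modulo `f'` (Rep (5)), `Cop h' 3`, `Cls P f' N h' σ` (Sur), `σ π = π_(h') = r`, `Hm f' N h'` (`Nm_congr`), `σ z = z`, and `σ π_u = π_(h' u) ∈ SM` for `Hm f N u`. COVER: `r = π_u ∈ S`, `Un f u`, `u'` congruent to `u` modulo `3^N`, `1` modulo `f'`; `a ∈ A` with `Nm u' = a` modulo `3^N`,
`Cls P f' N h (s a)`, `Nm h = a`: let `h v = 1` modulo `3^N f'` (`cop_inv`), `r' = π_(v u')`: `Hm f N (v u')` and `s a r' = π_(h v u') = π_u`. UNIQUENESS: `s_a π_u = s_(a') π_(u')` with `Hm u`, `Hm u'`: `3^N ∣ h u - h' u'` (Gen (3)), norms: `a = a'` modulo `3^N`. -/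
def S_TrN : Prop := DL.C_TrH → C_T0a → C_In → C_Rep → C_Pi → C_Sur → C_Gen → C_TrN

/-! ## Part T -/

/-- The action of inertia on `w4`. -/
def C_Tc : Prop :=
  ∀ (n t : ℕ) [Ram3 n t] (P : Ideal ZZ), Ab3 P →
    (∀ (f N : ℕ) (h : OO n t) (τ : Gal(Om/ℚ)), Fok f → 1 ≤ N → Cls P f N h τ → τ w4 = zs h * w4) ∧
    ∀ τ ∈ P.inertia Gal(Om/ℚ), τ ∉ GK n t →
      (τ w4 / w4) ^ 2 = -1 ∧ ∀ v : OO n t, τ (toO v) = toO (cjO v)

/-- (110 lines) **Tc** (from O4, B7, Kp, Act, T0a). FIRST: adapt `DM/GL/Tc.lean`. `κ = kp ⊤ = 1/(toO sD * vO ⊤ T3)`, `κ ≠ 0`. `3 * T3 = sD ∈ Lam ⊤`, so `τ (vO ⊤ T3) = vO ⊤ (toC h * T3)` (Act) `= vO (sp h * ⊤) T3` (S_B7, first item, `4 ∣ h - 1`; apply `ofC`), `τ (toO sD) = toO sD` (`GK_toO`), so `τ κ = kp (sp h * ⊤) = zs h * kp ⊤` (S_Kp (1): `4 ∣ h - 1`, `Cop h 30`: `Cop h 3` and `20 ∣ f ∣ h - 1`, `cop_congr`).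
`u = κ / w4` is a unit (S_Kp (2)), so `MP P (τ u - u)`; `y = τ w4 / w4`, `y ^ 4 = 1`; `τ u = zs h u / y`: `MP P (zs h / y - 1)`, and `(zs h / y)^4 = 1` (`zs h = ± 1`: T0a), so `zs h = y` (T0a). SECOND: `τ ∉ GK`: `τ (wO) = t - wO` (a root of `y² = t y - n`, not `wO`: `mem_GK_iff`), so `τ (toO v) = toO (cjO v)`, `τ (toO sD) = -toO sD` (S_O4: `cjO sD = -sD`). `y = τ w4 / w4`, `y ^ 4 = 1`,
`y² = τ (w4²) / w4²`. `q = toO sD / w4²` : `q ^ 2 = -D'` (`toO sD ^ 2 = -3 D'`, `w4^4 = 3`), an integer prime to `3`, `τ q = ± q`; if `τ q = -q` then `2 q ∈ P` (`DI.VP.inertia`), `4 q² = -4 D' ∈ P`: contradiction (`D'` prime to `3`). So `τ q = q`: `-toO sD / τ (w4²) = toO sD / w4²`, `y² = -1`. -/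
def S_Tc : Prop := S_O4 → S_B7 → S_Kp → C_Act → C_T0a → C_Tc

/-- (90 lines) **T0g**: `S_T0` (from K0, O4, T0a). PROOF. `w4`, the first and the third item: T0a. EXISTENCE of `τ`: otherwise `toO sD` is fixed by all `τ ∈ P.inertia` (`GK_toO`), so `vl P 3 (toO sD) = j`, `j : ℤ` (DL.C_K0): but it is `1/2`. ROOTS OF UNITY: `ζ ^ 3 = 1`, `ζ ≠ 1`: `ζ² + ζ + 1 = 0`, `δ = (2 ζ + 1) * toO sD / 3`: `(2 ζ + 1)² = -3`, `toO sD² = -3 D'`, so `δ² = D'` and `τ δ = ± δ`.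
`VP P δ` (`DI.VP.of_pow`); `τ δ = -δ` would give `2 δ ∈ P` (`DI.VP.inertia`), `4 D' ∈ P`: contradiction (`D'` is prime to `3`). So `τ δ = δ`, and `τ (2 ζ + 1) = 2 ζ + 1` iff `τ (toO sD) = toO sD` (`δ ≠ 0`) iff `τ ∈ GK` (`toO sD = 2 wO - t`, `mem_GK_iff`, `GK_toO`). -/
def S_T0g : Prop := DL.C_K0 → S_O4 → C_T0a → S_T0

/-- (50 lines) **T1g**: `S_T1` (from In, Sur, Tc). Compare `DM/GL/gT1.lean`. `Cls P F0 N h σ` is the conjunction of `mem`, `one`, `cop`, `psi` (`II n t P = P.inertia ⊓ GK n t`). -/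
def S_T1g : Prop := C_In → C_Sur → C_Tc → S_T1

/-- (100 lines) **T2g**: `S_T2` (from DL.TrH, In, Rep, Pi, Gen, T0a). Adapt `DM/GL/gT2.lean` (with `e = 2`, `I = II n t P`, `S` from Gen). PROOF. `f := F0`, `z0 = 1/F0`, `d = 1/3^N`: `Pt n t F0 N z0 d` (see `S_Sur`). DL.C_TrH with `SH = {π}`, `z = y`, `l = 3 ^ N`, `T = A`, `s`: `vl l - vl (dl S π) + vl (dl {π} π) = N - (N - 1/4) + 0`: the hypothesis is `GE P (1/4) y`, from `VP P (y / w4)` and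
`vP P w4 = 1/4` (T0a). `Fp y`: Gen, last item with `f' = F0` (In (7)). The conclusion is `TP` by `DL.GE.tp_iff`. -/
def S_T2g : Prop := DL.C_TrH → C_T0a → C_In → C_Rep → C_Pi → C_Gen → S_T2

/-! ## The composition -/

/-- The inputs of part GL. -/
structure GLIn : Prop where
  O4 : S_O4
  B7 : S_B7
  XOm : S_XOm
  R1 : S_R1
  D1 : S_D1
  D2 : S_D2
  D8 : S_D8
  D10 : S_D10
  Kp : S_Kp
  E1 : DS.S_E1
  E4a : S_E4a
  E6 : DS.S_E6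
  E10 : S_E10

/-- The output of part GL, first file. -/
structure GLOut : Prop where
  T0a : C_T0a
  In : C_In
  Act : C_Act
  Rep : C_Rep
  Pi : C_Pi
  Sur : C_Sur
  Gen : C_Gen
  HD : C_HD
  TrN : C_TrN
  Tc : C_Tc
  T0 : S_T0
  T1 : S_T1
  T2 : S_T2

theorem asmGL (o : DL.Out) (i : GLIn) (t0a : S_T0a) (inn : S_In) (act : S_Act) (rep : S_Rep) (pi : S_Pi)
    (sur : S_Sur) (gen : S_Gen) (hd : S_HD) (trn : S_TrN) (tc : S_Tc) (t0 : S_T0g) (t1 : S_T1g)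
    (t2 : S_T2g) : GLOut :=
  have T0a := t0a i.O4
  have In := inn o.K2 i.E1 i.E4a
  have Act := act i.B7 i.R1 i.XOm i.D8 i.E6 i.E10
  have Rep := rep i.O4
  have Pi := pi i.O4 i.XOm i.D1 i.D2 i.D10 Act Rep
  have Sur := sur i.O4 In Rep Pi
  have Gen := gen In Rep Pi Sur
  have Tc := tc i.O4 i.B7 i.Kp Act T0a
  { T0a := T0a
    In := In
    Act := Act
    Rep := Rep
    Pi := Pi
    Sur := Sur
    Gen := Gen
    HD := hd i.O4 Rep Pi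
    TrN := trn o.TrH T0a In Rep Pi Sur Gen
    Tc := Tc
    T0 := t0 o.K0 i.O4 T0a
    T1 := t1 In Sur Tc
    T2 := t2 o.TrH T0a In Rep Pi Gen }

end Pool.Agent.DM.DU.GL
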