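import Pool.Agent.Lib.DU.GL.Spec
import Pool.Agent.Lib.DM.GL.SpecB

/-!
# Theorem DU (`p = 3`, `3` ramified), part GL, second file (author helper89): the elliptic units and the local step

`z = z0 + d = 1/(f 3^N)` (`PtN`). `Dn` is the derivation modulo `3^(N - 1/4)` of `GL/Spec.lean` (`X(z) ↦ W(z)` for the curve `ℂ / O`), `LDn` its logarithmic form. This file: the derivation on the numbers
`X(z + u)`, `X_c(h z)`, `Theta(c, h z)` and on the elliptic units `uN f N m T c`, the semilinear action of the inertia elements outside of `Gal(Om/K)`, the cube root in `L'_N`; the results are `LSA`, `Sub` (used by the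
part LS). `dv .. SH` is the valuation of the different of the orbit `SH`. IDEA (helper66, helper36): `τ` in the inertia group with `ζ ↦ ζ⁻¹`, not in `Gal(Om/K)`; `w τ(w)` is a cube up to a small error (the class of `ζ` cancels), and
`D(τ x) = r τ(D x)` with `r = -ι` modulo `P`, `ι = τ(w4)/w4`, `ι² = -1`.

TEMPLATES (proved or in work): `DM/GL/X.lean` (helper85, `DM/GL/SpecB.lean`; 3 inert, same framing) and `DR/GL/X.lean` (helper89, `DR/GL/SpecB.lean`; 2 ramified, same structure). `Der`, `LD`, `Cn P a` of `DM/GL` are now `Dn`, `LDn`, `Cn P (II n t P) a`; the precision is `q = N - 1/4`; use `gen0` (below) for the structure `DL.Gen`.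

Tools: see `GL/Spec.lean`. `gen0`, `genH`, `genE` (below). `DT.GL.tStb`, `tArch`, `tIu`, `tPw`, `tKap`, `tApp` .. (modules `DT/GL/Stb.lean`, ..) are proved.

RULES: the statement `S_X` is to be proved as `theorem tX : S_X` in the module `Pool/Agent/Lib/DU/GL/X.lean` with the first
lines `import Pool.Agent.Lib.DU.GL.SpecB`, `set_option autoImplicit false`, `open scoped Pointwise`, `noncomputable section`,
`namespace Pool.Agent.DM.DU.GL` and the `open` lines of this file. Auxiliary declarations are `private`. Every `C_X` is a statement, `S_X` the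
implication from the statements used to `C_X`. All modules are independent.
-/

set_option autoImplicit false

open scoped Pointwise

noncomputable section

namespace Pool.Agent.DM.DU.GL

open Pool.Agent.MuZ Pool.Agent.FW Pool.Agent.DN Pool.Agent.DM Pool.Agent.DM.DU
open Pool.Agent.DI (io ofC io_inj exists_io io_ofC ofC_io VP MP UP TP ex)
open Pool.Agent.DI.GL (Fx StP mem_of_Fx Fx.mul Fx.inv Fx.one)
open Pool.Agent.DT (kap cbr)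
open Pool.Agent.DM.GL (GE vP pl pH IsR Un Sit3)
open Pool.Agent.DL (vl Pl Fi Fp Cn Cf dl Gen Dr LD)

variable {n t : ℕ}

/-! ## Definitions -/

/-- The point `z = z0 + d = 1/(f 3^N)`. -/
structure PtN (n t f N : ℕ) (z0 d : ℂ) : Prop extends Pt n t f N z0 d where
  eq : z0 + d = 1 / (f * 3 ^ N : ℕ)
  pri : ∀ a : Ideal (OO n t), a ≠ ⊥ → PrI a f → z0 ∉ Lam a
  cz : (starRingEnd ℂ) z0 = z0
  cd : (starRingEnd ℂ) d = d

/-- The valuation of the different of the orbit `SH`. -/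
abbrev dv (n t : ℕ) (P : Ideal ZZ) (z0 d : ℂ) (SH : Finset Om) : ℚ := vP P (dl SH (pH z0 d (1 : OO n t)))

/-- The logarithmic derivative of the elliptic unit: `-(fr(c)/fr(1)) ∑ h g(c, h z_N)`. -/
def SN (f N : ℕ) (m : Ideal (OO n t)) (T : Finset (OO n t)) (c : Ideal (OO n t)) : Om :=
  -(rO (⊤ : Ideal (OO n t)) c * ∑ h ∈ T, toO h * gO m c (toC h / (f * 3 ^ N : ℕ)))

/-- The sum `∑ χ(c) (fr(c)/fr(1)) ∑ h g(c, h z_N)`. -/
def SS (f N : ℕ) (m : Ideal (OO n t)) (χ : Ideal (OO n t) → Om) (T : Finset (OO n t))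
    (D : Finset (Ideal (OO n t))) : Om :=
  ∑ c ∈ D, χ c * (rO (⊤ : Ideal (OO n t)) c * ∑ h ∈ T, toO h * gO m c (toC h / (f * 3 ^ N : ℕ)))

/-! ## Simple facts -/

theorem Orb.ext {z0 d : ℂ} {C : OO n t → Prop} {S S' : Finset Om} (h : Orb z0 d C S) (h' : Orb z0 d C S') :
    S = S' := Finset.ext fun x => (h x).trans (h' x).symm

theorem cop_one' (N : ℕ) : Cop (1 : OO n t) N := by
  unfold Cop
  rw [Nm_one]
  exact isCoprime_one_left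

theorem un_one (f : ℕ) : Un f (1 : OO n t) := ⟨by rw [sub_self]; exact dvd_zero _, cop_one' 3⟩

theorem hn_one (f N : ℕ) : Hn f N (1 : OO n t) :=
  ⟨(un_one f).1, by rw [sub_self]; exact Submodule.zero_mem _, by rw [Nm_one, sub_self]; exact dvd_zero _⟩

theorem hm_one (f N : ℕ) : Hm f N (1 : OO n t) :=
  ⟨(un_one f).1, cop_one' 3, by rw [Nm_one, sub_self]; exact dvd_zero _⟩

theorem hs_one (f N : ℕ) : Hs f N (1 : OO n t) := ⟨hn_one f N, by rw [sub_self]; exact dvd_zero _⟩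

theorem hm_un {f N : ℕ} (h : OO n t) (hh : Hm f N h) : Un f h := ⟨hh.1, hh.2.1⟩

theorem hn_hm [Ram3 n t] (o : S_O4) {f N : ℕ} (h : OO n t) (hh : Hn f N h) : Hm f N h := by
  obtain ⟨-, -, -, -, -, -, -, -, h1, -, -, -, -, -, -, h2, -⟩ := o n t
  refine ⟨hh.1, ?_, hh.2.2⟩
  rw [h1]
  intro h3
  have h4 : (1 : OO n t) ∈ pp n t := by
    have e : (1 : OO n t) = h - (h - 1) := by ring
    rw [e]
    exact Ideal.sub_mem _ h3 hh.2.1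
  have h5 : ¬ Cop (1 : OO n t) 3 := by
    rw [h1]
    exact not_not.mpr h4
  exact h5 (cop_one' 3)

theorem hn_un [Ram3 n t] (o : S_O4) {f N : ℕ} (h : OO n t) (hh : Hn f N h) : Un f h := hm_un h (hn_hm o h hh)

theorem hs_un [Ram3 n t] (o : S_O4) {f N : ℕ} (h : OO n t) (hh : Hs f N h) : Un f h := hn_un o h hh.1

/-- The abstract theory applies: `S` is the orbit of `π = pH z0 d 1`. -/
theorem gen0 [Ram3 n t] (g : C_Gen) {P : Ideal ZZ} (hP : Ab3 P) {f N : ℕ} {z0 d : ℂ}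
    (hp : Pt n t f N z0 d) : ∃ S : Finset Om, Orb z0 d (Un (n := n) (t := t) f) S ∧
      Gen P 3 2 (II n t P) S (pH z0 d (1 : OO n t)) ∧ (0 : ℚ) ≤ N - 1 / 4 ∧
      (N : ℚ) - 1 / 4 ≤ vl P 3 (dl S (pH z0 d (1 : OO n t))) := by
  obtain ⟨⟨S, hS⟩, h2, -⟩ := g n t P hP f N z0 d hp
  obtain ⟨h3, -, h4, -⟩ := h2 S hS
  have h1 : (1 : ℚ) ≤ N := by exact_mod_cast hp.pos
  exact ⟨S, hS, h3, by linarith, h4.ge⟩

/-- The orbits of subgroups. -/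
theorem genH [Ram3 n t] (g : C_Gen) {P : Ideal ZZ} (hP : Ab3 P) {f N : ℕ} {z0 d : ℂ}
    (hp : Pt n t f N z0 d) {C : OO n t → Prop} (hC : ∀ h, C h → Un f h) (h1 : C 1) {SH : Finset Om}
    (hH : Orb z0 d C SH) : pH z0 d (1 : OO n t) ∈ SH ∧ dl SH (pH z0 d (1 : OO n t)) ≠ 0 ∧
      0 ≤ dv n t P z0 d SH ∧ dv n t P z0 d SH ≤ N - 1 / 4 := by
  obtain ⟨⟨S, hS⟩, h2, -⟩ := g n t P hP f N z0 d hp
  obtain ⟨-, -, -, h3⟩ := h2 S hS
  obtain ⟨S', a1, a2, a3, a4, a5, a6⟩ := h3 C hC h1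
  obtain rfl := a1.ext hH
  exact ⟨a3, a4, a5, a6⟩

/-- The orbit of a group exists. -/
theorem genE [Ram3 n t] (g : C_Gen) {P : Ideal ZZ} (hP : Ab3 P) {f N : ℕ} {z0 d : ℂ}
    (hp : Pt n t f N z0 d) {C : OO n t → Prop} (hC : ∀ h, C h → Un f h) (h1 : C 1) :
    ∃ SH : Finset Om, Orb z0 d C SH := by
  obtain ⟨⟨S, hS⟩, h2, -⟩ := g n t P hP f N z0 d hp
  obtain ⟨-, -, -, h3⟩ := h2 S hS
  obtain ⟨S', a1, -⟩ := h3 C hC h1
  exact ⟨S', a1⟩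

/-! ## Points -/

/-- The points `z + d`, `z` of order prime to `3` (`z ∉ Lam b`), `d` of order a power of `3` (also `d = 0`). -/
def C_Odq : Prop :=
  ∀ (n t : ℕ) [Ram3 n t] (P : Ideal ZZ), Ab3 P → ∀ b : Ideal (OO n t), G30 b → ∀ (f N : ℕ) (z d : ℂ), Fok f →
    (f : ℂ) * z ∈ Lam b → z ∉ Lam b → (3 : ℂ) ^ N * d ∈ Lam b →
    ¬ Qp P b (z + d) ∧ ¬ IK P b (z + d) ∧ Tor n t (z + d) ∧ z + d ∉ Lam b ∧ VP P (xO b (z + d)) ∧
      VP P (vO b (z + d)) ∧ (2 * z ∉ Lam b → UP P (vO b (z + d)) ∧ UP P (vO b z)) ∧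
      Cn P (II n t P) (xO b z) ∧ Cn P (II n t P) (vO b z)

/-- (90 lines) **Odq** (from D2, In, Act). Adapt `DM/GL/Odq.lean` (proof in the docstring of `DM.GL.S_Odq`; `Cn P a` is now `Cn P (II n t P) a`; the numbering of S_D2 is different: (3) `VP`, (4) `UP`, (5) `¬ Qp → ¬ IK`). -/
def S_Odq : Prop := S_D2 → C_In → C_Act → C_Odq

/-- The Kummer relation between `X(z)` and `X(z + u)`, its discriminant and its derivative (`b₂ = 1 - 8 c`, `b₄ = 2 c²`, `b₆ = 0`, `b₈ = -c⁴`). -/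
def C_Kud : Prop :=
  ∀ (n t : ℕ) [Ram3 n t] (b : Ideal (OO n t)), G30 b → ∀ z u : ℂ, Tor n t z → Tor n t u → z ∉ Lam b →
    u ∉ Lam b → z + u ∉ Lam b → z - u ∉ Lam b → ∀ X X' U W W' V b2 b4 b6 b8 : Om, X = xO b z →
      X' = xO b (z + u) → U = xO b u → W = vO b z → W' = vO b (z + u) → V = vO b u → b2 = 1 - 8 * cO b →
      b4 = 2 * cO b ^ 2 → b6 = 0 → b8 = -cO b ^ 4 →
      (X - U) ^ 2 * X' ^ 2 - (2 * X * U * (X + U) + b2 * (X * U) + b4 * (X + U) + b6) * X' +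
        (X ^ 2 * U ^ 2 - b4 * (X * U) - b6 * (X + U) - b8) = 0 ∧
      2 * (X - U) ^ 2 * X' - (2 * X * U * (X + U) + b2 * (X * U) + b4 * (X + U) + b6) = -(W * V) ∧
      (2 * (X - U) * X' ^ 2 - (4 * X * U + 2 * U ^ 2 + b2 * U + b4) * X' +
        (2 * X * U ^ 2 - b4 * U - b6)) * W = W * V * W'

/-- (120 lines) **Kud** (from BC, R1). The proof is that of `DM/GL/Kud.lean` word for word (`Ine3` is now `Ram3`; the proof is in the docstring of `DM.GL.S_Kud`). -/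
def S_Kud : Prop := S_BC → S_R1 → C_Kud

/-! ## The derivation on `X(z + u)` and `X_c(h z)` -/

/-- Translation by points of order prime to `3`. -/
def C_Tru : Prop :=
  ∀ (n t : ℕ) [Ram3 n t] (P : Ideal ZZ), Ab3 P → ∀ (f N : ℕ) (z0 d : ℂ), Pt n t f N z0 d →
    ∀ (f' : ℕ) (u : ℂ), Fok f' → f ∣ f' → (f' : ℂ) * u ∈ Lam (⊤ : Ideal (OO n t)) →
      (2 * u ∈ Lam (⊤ : Ideal (OO n t)) → u ∈ Lam (⊤ : Ideal (OO n t))) →
      z0 + u ∉ Lam (⊤ : Ideal (OO n t)) →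
      Dn n t P N z0 d (xO (⊤ : Ideal (OO n t)) (z0 + d + u)) (vO (⊤ : Ideal (OO n t)) (z0 + d + u))

/-- (120 lines) **Tru** (from XOm, R2, DL.Cn, DL.Der, DL.Kum, In, Act, Pi, Gen, Odq, Kud). Adapt `DM/GL/Tru.lean` (proof in the docstring of `DM.GL.S_Tru`; the structure `DL.Gen` from `gen0`, `q = N - 1/4`, `VP P (vO ⊤ (z0 + d))`: Pi (1) with `h = 1`). The only change: `z - u ∉ Lam ⊤`: otherwise `f' (z - u) ∈ Lam ⊤` and `f' z0, f' u ∈ Lam ⊤` give `f' d ∈ Lam ⊤`, and with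
`3^N d ∈ Lam ⊤` (`f'` prime to `3`) `d ∈ Lam ⊤`, so `sD 3^(N-1) d ∈ Lam ⊤` (`lam_mul`), against `Pt.dn`. `cO ⊤` is `P`-integral: S_R2 (1). -/
def S_Tru : Prop :=
  S_XOm → S_R2 → DL.C_Cn → DL.C_Der → DL.C_Kum → C_In → C_Act → C_Pi → C_Gen → C_Odq → C_Kud → C_Tru

/-- The formulas for the isogeny. `R` is a system for `Lam (h c) / O`. -/
def C_Iso : Prop :=
  ∀ (n t : ℕ) [Ram3 n t] (c : Ideal (OO n t)) (h : OO n t), G30 c → Cop h 30 → ∀ R : Finset ℂ,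
    IsSys (sp h * c) (⊤ : Ideal (OO n t)) R → ∀ z z' : ℂ, Tor n t z → Tor n t z' → z ∉ Lam (sp h * c) →
    z' ∉ Lam (sp h * c) →
    (toO h * rO (⊤ : Ideal (OO n t)) c) ^ 2 * (xO c (toC h * z) - xO c (toC h * z')) =
      ∑ u ∈ R, (xO (⊤ : Ideal (OO n t)) (z + u) - xO (⊤ : Ideal (OO n t)) (z' + u)) ∧
    (toO h * rO (⊤ : Ideal (OO n t)) c) ^ 3 * vO c (toC h * z) =
      ∑ u ∈ R, vO (⊤ : Ideal (OO n t)) (z + u)

/-- (60 lines) **Iso** (from XOm). The proof is that of `DM/GL/Iso.lean` word for word (`Ine3` is now `Ram3`). -/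
def S_Iso : Prop := S_XOm → C_Iso

/-- Isogenies and multiplication: the lattice `Lam c` and the point `h z`. -/
def C_Trh : Prop :=
  ∀ (n t : ℕ) [Ram3 n t] (P : Ideal ZZ), Ab3 P → ∀ (f N : ℕ) (z0 d : ℂ), Pt n t f N z0 d →
    ∀ (c : Ideal (OO n t)) (h : OO n t), G30 c → Cop h 30 → z0 ∉ Lam (sp h * c) →
      Dn n t P N z0 d (xO c (toC h * (z0 + d)))
        (toO h * rO (⊤ : Ideal (OO n t)) c * vO c (toC h * (z0 + d)))

/-- (110 lines) **Trh** (from D2, DL.Cn, DL.Der, T0a, In, Act, Pi, Gen, Odq, Tru, Iso). Adapt `DM/GL/Trh.lean` (proof in the docstring of `DM.GL.S_Trh`; `UP P (toO h)`: T0a; `toO h` is fixed by `II`: In (iii)). -/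
def S_Trh : Prop :=
  S_D2 → DL.C_Cn → DL.C_Der → C_T0a → C_In → C_Act → C_Pi → C_Gen → C_Odq → C_Tru → C_Iso → C_Trh

/-- **Tht.** The logarithmic derivative of `Theta`. -/
def C_Tht : Prop :=
  ∀ (n t : ℕ) [Ram3 n t] (P : Ideal ZZ), Ab3 P → ∀ (f N : ℕ) (z0 d : ℂ), Pt n t f N z0 d →
    ∀ (m c : Ideal (OO n t)) (h : OO n t), m ≠ ⊥ → PrI m 30 → G30 c → Cop h 30 →
      z0 ∉ Lam (m * (sp h * c)) →
        LDn n t P N z0 d (Theta m c (toC h * (z0 + d)))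
          (-(toO h * rO (⊤ : Ideal (OO n t)) c * gO m c (toC h * (z0 + d))))

/-- (150 lines) **Tht** (from Cv, D2, D9, DL.Cn, DL.Der, DL.LDr, In, Act, Pi, Gen, Odq, Trh). Adapt `DM/GL/Tht.lean` (proof in the docstring of `DM.GL.S_Tht`; S_D2 (6) gives the units `xO c z - xO c z'`). -/
def S_Tht : Prop :=
  S_Cv → S_D2 → S_D9 → DL.C_Cn → DL.C_Der → DL.C_LDr → C_In → C_Act → C_Pi → C_Gen → C_Odq → C_Trh → C_Tht

/-! ## The elliptic units -/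

/-- The point `1/(f 3^N)`. -/
def C_Pnt : Prop :=
  ∀ (n t : ℕ) [Ram3 n t] (f N : ℕ), Fok f → 1 ≤ N → ∃ z0 d : ℂ, PtN n t f N z0 d

/-- (80 lines) **Pnt**. Adapt `DM/GL/Pnt.lean` or `DR/GL/Pnt.lean`. PROOF. `a0 3^N + c0 f = 1` (integers; `f` prime to `3`), `z0 = a0/f`, `d = c0/3^N`, both are real (`cz`, `cd`): `z0 + d = (a0 3^N + c0 f)/(f 3^N)`. `f z0 = a0`, `3^N d = c0` are in `Lam ⊤` (`lam_top`, `toC_int`). `z0 ∈ Lam a`, `PrI a f`: `1 = x + f y`, `x ∈ a`: `x z0 = toC u`, `f y z0 = toC (a0 y)`, so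
`z0 = toC (u + a0 y)`, `a0 = f (u + a0 y)` in `O` (`toC_inj`), so `f ∣ a0` in `ℤ` (`nat_dvd_iff`), impossible since `c0 f + a0 3^N = 1`, `20 ∣ f`. `Pt.zn`: `2 z0 = toC (2 a0)/f ∈ Lam ⊤` gives `f ∣ 2 a0`, so `f ∣ 2` (`a0` is prime to `f`), impossible. `Pt.dn`: `sD 3^(N-1) d = toC (sD) c0/3 = toC u` would give `c0 sD = 3 u` in `O`, the second coordinate: `2 c0 = 3 u.im`, so
`3 ∣ c0`; but `c0 f = 1 - a0 3^N` is prime to `3`. -/
def S_Pnt : Prop := C_Pnt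

/-- Inertia and the fields `L'`, `L'_N`. -/
def C_Mnf : Prop :=
  ∀ (n t : ℕ) [Ram3 n t] (P : Ideal ZZ), Ab3 P → ∀ f : ℕ, Fok f →
    (∀ (f' N : ℕ) (h : OO n t) (τ : Gal(Om/ℚ)), 1 ≤ N → Fok f' → f ∣ f' → Cls P f' N h τ → Hn f' N h →
      ∀ x ∈ Mn n t f N, τ x = x) ∧
    (∀ (N : ℕ) (h : OO n t) (τ : Gal(Om/ℚ)), 1 ≤ N → Cls P f N h τ → (3 : OO n t) ∣ h - 1 →
      ∀ x ∈ Mf n t f, τ x = x) ∧
    ∀ (N : ℕ) (z0 d : ℂ), Pt n t f N z0 d → ∀ x ∈ Mn n t f N, Fp (II n t P) (pH z0 d (1 : OO n t)) x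

/-- (90 lines) **Mnf** (from O4, GM, In, Gen). Adapt `DM/GL/Mnf.lean`. PROOF. (1) `τ ∈ GK` (`Cls.mem`), `Cls P f N h τ` (In (8)), so `Psi τ (f 3^N) (sp h)`. `HPN f N (sp h)`: `v = h` (`h ≠ 0` by `Cop h 3`), `Ray` reflexive (`aO7`); `HN f N h`: the norm (`Hn`), `Hf f h`: `Cop h (3 f)` (`Cop h 3`, and `cop_congr` with `1` for `f`), and with `j = 1`: `h = 1 + x`, `x ∈ pp`:
`h ^ 3 - 1 = 3 x + 3 x ^ 2 + x ^ 3`, `x * x ∈ pp * pp = sp 3` (S_O4), so `3 ∣ h ^ 3 - 1`, `f ∣ h ^ 3 - 1`, `3 f ∣ h ^ 3 - 1` (`f` prime to `3`). S_GM (the claim on `Psi τ (f 3^N) a`, direction `←`). (2) `Cls P f 1 h τ` (In (8)), `Psi τ (f * 3 ^ 1) (sp h)`, `3 f ∣ h - 1`: `Ray (3 f) (sp h) ⊤` (`aO7` (8)), `HP f ⊤` and invariance (S_GM (1)); S_GM (the claim on `Psi τ (3 f) a`, `←`).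
(3) Gen, last item with `f' = f`: an element of class `1` satisfies `Hn f N 1` (`hn_one`): (1). -/
def S_Mnf : Prop := S_O4 → S_GM → C_In → C_Gen → C_Mnf

/-- **Un4.** The logarithmic derivative of the elliptic unit, and its valuation. -/
def C_Un4 : Prop :=
  ∀ (n t : ℕ) [Ram3 n t] (P : Ideal ZZ), Ab3 P → ∀ (f N : ℕ) (m : Ideal (OO n t)) (T : Finset (OO n t)),
    FM f m → 2 ≤ N → IsRep f N T → ∀ z0 d : ℂ, PtN n t f N z0 d → ∀ SH : Finset Om,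
    Orb z0 d (Hn (n := n) (t := t) f N) SH → ∀ c : Ideal (OO n t), c ≠ ⊥ → PrI c (3 * f) →
      LDn n t P N z0 d (uN f N m T c) (SN f N m T c) ∧ GE P (dv n t P z0 d SH) (SN f N m T c)

/-- (110 lines) **Un4** (from DL.Fix, DL.LDr, O4, G3, Pi, Sur, Gen, Mnf, Tht). Adapt `DR/GL/Un4.lean` (or `DM/GL/Un4.lean`). PROOF. `uN f N m T c = ∏_(h ∈ T) Theta m c (toC h / (f 3^N))`, `toC h / (f 3^N) = toC h * (z0 + d)`. `h ∈ T`: `HN f N h`, so `Cop h (3 f)`, `Cop h 30` (`30 ∣ 3 f`). `a = m * (sp h * c)` is nonzero and prime to `f` (`aO6`), so `z0 ∉ Lam a` (`PtN.pri`). `G30 c`, `PrI m 30` (`aO6` (2)).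
Tht for each `h`, `DL.C_LDr` (5) (structure from `gen0`; `VP P (vO ⊤ (z0 + d))`: Pi (1)); the sum of the logarithmic derivatives is `SN` (`Finset.mul_sum`, `Finset.sum_neg_distrib`). VALUATION: `genH` for `C = Hn f N` (`hn_un`, `hn_one`). `r ∈ SH`: `r = pH z0 d h`, `Hn f N h`; Sur: `Cls P f N h σ`, so `σ π = r` (Gen (4) with `f' = f`) and `σ (uN ..) = uN ..` (Mnf (1);
`uN ∈ Mn n t f N`: S_G3 (1)). `DL.C_Fix` with `S' = SH`, `q' = dv n t P z0 d SH` (`≤ N - 1/4`): `GE q' (uN * SN)`; `uN` is a unit (`GE.mul_left` with the inverse). -/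
def S_Un4 : Prop :=
  DL.C_Fix → DL.C_LDr → S_O4 → S_G3 → C_Pi → C_Sur → C_Gen → C_Mnf → C_Tht → C_Un4

/-- **Sub.** The sums over the subgroup `Hs`. -/
def C_Sub : Prop :=
  ∀ (n t : ℕ) [Ram3 n t] (P : Ideal ZZ), Ab3 P → ∀ (f N : ℕ) (m : Ideal (OO n t)), FM f m → 3 ≤ N →
    ∀ z0 d : ℂ, PtN n t f N z0 d → ∀ SH2 : Finset Om, Orb z0 d (Hs (n := n) (t := t) f N) SH2 →
    ∀ T : Finset (OO n t), IsR N (Hs (f * NI m) N) T → ∀ (c : Ideal (OO n t)) (v : OO n t), FB f c →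
      Cop v (3 * f) →
      GE P (dv n t P z0 d SH2)
        (∑ h ∈ T, toO (h * v) * (rO (⊤ : Ideal (OO n t)) c * gO m c (toC (h * v) / (f * 3 ^ N : ℕ))))

/-- (150 lines) **Sub** (from DL.Fix, DL.LDr, O4, D8, In, Act, Rep, Pi, Sur, Gen, Tht). Adapt `DR/GL/Sub.lean`. PROOF. `z = z0 + d`, `f' = f * NI m` (`Fok f'`, `f ∣ f'`). `x = ∏_(h ∈ T) Theta m c (toC (h * v) * z)`. As in Un4 (Tht for `h * v`: `Cop (h * v) 30`, `m * (sp (h v) * c)` nonzero and prime to `f`: `h = 1` modulo `f`; `DL.C_LDr` (5)): `LDn x (-(the sum))`. FIX: `genH` for `C = Hs f N`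
(`hs_un`, `hs_one`). `r ∈ SH2`: `r = pH z0 d h`, `Hs f N h`. `h'` congruent to `h` modulo `3^N` and to `1` modulo `f'` (Rep (5)), `Hs f' N h'` (`Nm_congr`; `27 ∣ h' - 1` as `3 ≤ N`; `h' - 1 ∈ pp`: `3 ∈ pp`); Sur for `f'`: `Cls P f' N h' σ`. `σ π = π_(h')` (Gen (4)) `= π_h` (Gen (3)). `σ (Theta m c (h'' v z)) = Theta m c (h' h'' v z)` (Act for `f'`: `NI m ∣ f'`,
`(f' 3^N)(h'' v z) = toC (h'' v NI m) ∈ Lam c`, `h'' v z ∉ Lam (m c)`). `h' h''` has `Hs f' N` (a group: `h' h'' - 1 = h' (h'' - 1) + (h' - 1)`), let `h3 ∈ T` be its representative: `3^N ∣ h' h'' - h3` and `f ∣ h' h'' - h3`, so `f 3^N` divides it and `h' h'' v z - h3 v z ∈ Lam ⊤ ⊆ Lam c`: the same value of `Theta` (S_D8 (2)). `h'' ↦ h3` is injective on `T` (`3^N ∣ h' (h'' - h4)`, `cop_inv`, `IsR.uni`), so a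
bijection, `σ x = x`. `DL.C_Fix` with `S' = SH2`, `q' = dv n t P z0 d SH2`: `GE q' (x * (-sum))`; divide by the unit `-x`. -/
def S_Sub : Prop :=
  DL.C_Fix → DL.C_LDr → S_O4 → S_D8 → C_In → C_Act → C_Rep → C_Pi → C_Sur → C_Gen → C_Tht → C_Sub

/-! ## The tower `L'_N` -/

/-- The abstract tower applies. -/
def C_SitU : Prop :=
  ∀ (n t : ℕ) [Ram3 n t] (P : Ideal ZZ), Ab3 P → ∀ f : ℕ, Fok f → Sit3 (Mf n t f) (Mn n t f) P

/-- (90 lines) **SitU** (from GM, Act, Sur, Mnf). PROOF. `prime`, `three`: `hP.1.1`, `hP.2`. `lnx`: S_GM (last). `iul`: `u % 3 = 1`; `k = max m 1`. `e = (3^k + 1)/2`, `s = u^e`: `s² = u * u^(3^k)`, and `u^(3^k) = 1` modulo `3^k` (induction: `x = 1` modulo `3^i` implies `x³ = 1` modulo `3^(i+1)`), `s % 3 = 1`. Change `s` modulo `3^k` so that `f ∣ s - 1` (`f` prime to `3`): an integer `s'`, `h = (s' : O)`: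
`f ∣ h - 1`, `3 ∣ h - 1`, `Cop h 3` (`Nm h = s'²`), Sur: `ι` with `Cls P f k h ι`; `ι ∈ P.inertia` (`Cls.mem`), `ι` fixes `Mf n t f` (Mnf (2)). Act (1): `ι ζ = ζ ^ (Nm h).toNat` for `ζ ^ 3^k = 1`, and `(s'²).toNat = u` modulo `3^k`; `z ^ 3^m = 1` gives `z ^ 3^k = 1`. -/
def S_SitU : Prop := S_GM → C_Act → C_Sur → C_Mnf → C_SitU

/-- Inertia elements with `ζ ↦ ζ⁻¹` exist, they are not in `Gal(Om/K)`. -/
def C_Tau : Prop :=
  ∀ (n t : ℕ) [Ram3 n t] (P : Ideal ZZ), Ab3 P → ∀ N : ℕ, 1 ≤ N →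
    (∃ τ ∈ P.inertia Gal(Om/ℚ), ∀ ζ : Om, ζ ^ 3 ^ N = 1 → τ ζ = ζ⁻¹) ∧
    ∀ τ ∈ P.inertia Gal(Om/ℚ), (∀ ζ : Om, ζ ^ 3 ^ N = 1 → τ ζ = ζ⁻¹) → τ ∉ GK n t

/-- (50 lines) **Tau** (from T0). PROOF. (1) `DT.GL.tIu : DT.GL.C_Iu` (import `Pool.Agent.Lib.DT.GL.Iu`) with `u = 3^N - 1` (prime to `3`), `m = N`: `z ^ (3^N - 1) = z⁻¹`. (2) Let `ζ` be a primitive cube root of unity (`DT.zet 3`, `DT.GL.zet3_prim`-like), `ζ ^ 3^N = 1`, `τ ζ = ζ⁻¹ ≠ ζ`, `ζ ≠ 1`: S_T0 (last item). -/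
def S_Tau : Prop := S_T0 → C_Tau

/-- **Dta.** The semilinear action of the inertia elements outside of `Gal(Om/K)`. -/
def C_Dta : Prop :=
  ∀ (n t : ℕ) [Ram3 n t] (P : Ideal ZZ), Ab3 P → ∀ (f N : ℕ) (z0 d : ℂ), PtN n t f N z0 d →
    ∀ τ ∈ P.inertia Gal(Om/ℚ), τ ∉ GK n t → ∃ r : Om, Cn P (II n t P) r ∧ GE P (1 / 2) (r + τ w4 / w4) ∧
      (∀ x y : Om, Dn n t P N z0 d x y → Dn n t P N z0 d (τ x) (r * τ y)) ∧
      ∀ x y : Om, LDn n t P N z0 d x y → LDn n t P N z0 d (τ x) (r * τ y)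

/-- (110 lines) **Dta** (from DL.Cn, DL.Der, DL.Cj, E11, D2, T0a, In, Act, Pi, Gen, Odq, Trh). Compare `DR/GL/Dta.lean`. PROOF. `M = f 3^N` (`60 ∣ M`). S_E11 (1): `PsiC τ M a`, `G30 a`; `a` is prime to `15 M` (`PsiC.cop`), so to `f` (`aO6` (2)). `cjI ⊤ = ⊤`, `a * ⊤ = a`. `τ (xO ⊤ z) = xO a z`, `τ (vO ⊤ z) = vO a z` for `z = z0 + d` and `z = z0` (S_E11 (1); they are real: `PtN.cz`, `cd`). `r = rO ⊤ a`.
Trh with `c := a`, `h := 1` (`toC 1 = 1`, `toO 1 = 1`, `sp 1 * a = a`; `z0 ∉ Lam a`: `PtN.pri`): `Dn (xO a (z0 + d)) (r * vO a (z0 + d))`; `Cn (xO a z0)`: Odq with `b = a`, `d := 0` (`f z0 ∈ Lam ⊤ ⊆ Lam a`). So `τ π = xO a (z0 + d) - xO a z0` has the derivative `r * τ (vO ⊤ (z0 + d))` (`DL.C_Der` (4), (5)): the hypothesis of `DL.C_Cj` (structure from `gen0`, `q = N - 1/4`; `VP P (vO ⊤ (z0 + d))`: Pi (1);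
`τ⁻¹ σ τ ∈ II`: In (ii)). `Cn r`: S_D2 (7) (`b = ⊤`, `a * ⊤ = a`: `UP P r`), Act (`τ' (rO ⊤ a) = rO ⊤ a` for `τ' ∈ II`, with a class for `f, N`: In (1)). `GE (1/2) (r + τ w4 / w4)`: S_E11 (2): `(τ w4 / w4 + r) / toO sD` is integral, `vP (toO sD) = 1/2` (T0a). -/
def S_Dta : Prop :=
  DL.C_Cn → DL.C_Der → DL.C_Cj → S_E11 → S_D2 → C_T0a → C_In → C_Act → C_Pi → C_Gen → C_Odq → C_Trh → C_Dta

/-- **Res.** If the Kummer character of the unit `w` of `L'_N` vanishes on `DD` then its logarithmic derivative `y` satisfies `v(y + r τ y) ≥ 1 + D(H)`. -/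
def C_Res : Prop :=
  ∀ (n t : ℕ) [Ram3 n t] (P : Ideal ZZ), Ab3 P → ∀ (f N : ℕ) (z0 d : ℂ), PtN n t f N z0 d → 4 ≤ N →
    ∀ SH : Finset Om, Orb z0 d (Hn (n := n) (t := t) f N) SH → ∀ τ ∈ P.inertia Gal(Om/ℚ),
    (∀ ζ : Om, ζ ^ 3 ^ N = 1 → τ ζ = ζ⁻¹) → ∀ r : Om,
    (∀ x y : Om, LDn n t P N z0 d x y → LDn n t P N z0 d (τ x) (r * τ y)) →
    ∀ w ∈ Mn n t f N, (∀ g : Gal(Om/ℚ), DT.GL.DD (Mn n t f) P g → kap w g = 0) → ∀ y : Om,
      LDn n t P N z0 d w y → GE P (1 + dv n t P z0 d SH) (y + r * τ y)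

/-- (140 lines) **Res** (from DL.Cn, DL.Der, DL.LDr, DL.Fix, DL.Rt, O4, E9, HD, Pi, Sur, Gen, Mnf, Cu, SitU). Compare `DR/GL/ResA.lean`, `DM/GL/Res.lean`. PROOF. `ζ` a primitive root of order `3^N` (`HasEnoughRootsOfUnity.exists_primitiveRoot` or `DT.zet (3^N)`). `w` is a unit (`LDn`, first component). DM.GL.C_Cu with SitU: `j`, and for `M = N`: `r0 ∈ Mn n t f N`, `VP P r0`, `w ζ^j = r0^3 + 3^N s0`, `VP P s0`.
Apply `τ` and multiply (`ζ^j * τ (ζ^j) = 1`): `w * τ w = (r0 * τ r0)^3 + 3^N s`, `s = s0 τ (r0^3) + r0^3 τ s0 + 3^N s0 τ s0`, `VP P s` (`VP.inertia_vp`). `u = r0 * τ r0`; `w, τ w, u, s` are in `Mn n t f N` (S_E9 (2); `s = (w τ w - u^3)/3^N`). FACT F: if `x ∈ Mn n t f N`, `VP P x` then there is `y` with `Dn x y` and `GE (dv SH) y`: `DL.C_Der` (8) (`Fp x`: Mnf (3)), and `DL.C_Fix` with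
`S' = SH` (`genH`, `hn_un`, `hn_one`; `r' ∈ SH`: `r' = pH z0 d h`, Sur `σ`, `σ π = r'` (Gen (4)), `σ x = x` (Mnf (1))). So `Dn u yu`, `GE (dv SH) yu`; `Fp s`. `DL.C_LDr` (2): `LDn (w * τ w) (y + r * τ y)`. `DL.C_Rt` with `c = 1`, `yc = 0` (`Der` (4)), `D = dv SH`, `M = N`, `q = N - 1/4`, `vl P 3 1 = 0`: `GE (min (1 + dv - 0/3) (min (N - 0) (N - 1/4 - 0))) (y + r * τ y + 0/1)`, and `dv ≤ 2` (HD; `SM`, `SH2` by
`genE` with `hm_un`, `hs_un`), `4 ≤ N`: the minimum is `1 + dv`. -/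
def S_Res : Prop :=
  DL.C_Cn → DL.C_Der → DL.C_LDr → DL.C_Fix → DL.C_Rt → S_O4 → S_E9 → C_HD → C_Pi → C_Sur → C_Gen → C_Mnf →
    DM.GL.C_Cu → C_SitU → C_Res

/-! ## The result -/

/-- The character `χ`: integrality, inertia, principal ideals. -/
def C_Chi : Prop :=
  ∀ (n t : ℕ) [Ram3 n t] (P : Ideal ZZ), Ab3 P → ∀ (f : ℕ) (χ : Ideal (OO n t) → Om), Fok f →
    IsChi (3 * f) χ →
    (∀ b : Ideal (OO n t), VP P (χ b) ∧ ∀ τ ∈ P.inertia Gal(Om/ℚ), τ (χ b) = χ b) ∧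
    (∀ h : OO n t, Hf f h → χ (sp h) = 1) ∧
    ∀ k : ℕ, Ty P f χ k → ∀ v : OO n t, (f : OO n t) ∣ v - 1 → Cop v 3 → χ (sp v) = (zs v : Om) ^ k

/-- (90 lines) **Chi** (from T0a, Rou). Compare `DR/GL/Chi.lean`. `DM.GL.C_Rou` is about roots of unity of order prime to `3`. PROOF. (1) `χ b` is `0` or `χ b ^ m' = 1`, `m'` prime to `3` (`IsChi.zero`, `IsChi.cop`). (2) `h ≠ 0`, `3 f ∣ h^(3^j) - 1`: `Ray (3 f) (sp (h^(3^j))) ⊤` (`aO7` (8)), `χ (sp h)^(3^j) = χ (sp (h^(3^j))) = χ ⊤ = 1` (`IsChi.mul`, `IsChi.ray`; `χ ⊤ = χ ⊤ ^ 2`, `χ ⊤ ≠ 0`),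
and `χ (sp h) ^ m' = 1` (`pow_gcd_eq_one`). (3) `Ty`: `MP P (χ (sp v) - toO v ^ k)`, and `MP P (toO v - zs v)` (T0a: `GE (1/2)`), so `MP P (χ (sp v) - (zs v)^k)`; `zs v = ± 1` (T0a), `y = χ (sp v) * (zs v)^k` satisfies `y ^ (2 m') = 1` and `MP P (y - 1)`: Rou gives `y = 1`. -/
def S_Chi : Prop := C_T0a → DM.GL.C_Rou → C_Chi

/-- **LSg.** The linear algebra: from statements on units to the sum. `Λ` is an additive operator. -/
def C_LSg : Prop :=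
  ∀ (n t : ℕ) [Ram3 n t] (P : Ideal ZZ), Ab3 P → ∀ (f N : ℕ) (m : Ideal (OO n t)) (χ : Ideal (OO n t) → Om)
    (T : Finset (OO n t)) (D : Finset (Ideal (OO n t))) (z0 d : ℂ) (SH : Finset Om) (q : ℚ) (Λ : Om →+ Om),
    FM f m → IsChi (3 * f) χ → 2 ≤ N → IsRep f N T → PtN n t f N z0 d →
    Orb z0 d (Hn (n := n) (t := t) f N) SH → (∀ c ∈ D, c ≠ ⊥ ∧ PrI c (3 * f)) →
    (∀ g : Gal(Om/ℚ), IsD n t f P g → MP P (∑ c ∈ D, χ c * ((kap (uN f N m T c) g).val : Om))) →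
    (∀ (q' : ℚ) (x : Om), GE P q' x → GE P q' (Λ x)) →
    (∀ (c : Ideal (OO n t)) (x : Om), Λ (χ c * x) = χ c * Λ x) → q ≤ 1 + dv n t P z0 d SH →
    (∀ w ∈ Mn n t f N, (∀ g : Gal(Om/ℚ), DT.GL.DD (Mn n t f) P g → kap w g = 0) → ∀ y : Om,
      LDn n t P N z0 d w y → GE P q (Λ y)) →
    GE P (dv n t P z0 d SH) (SS f N m χ T D) ∧ GE P q (Λ (SS f N m χ T D))

/-- (180 lines) **LSg** (from DL.LDr, G3, GM, Pi, Gen, Un4, Chi). Adapt `DR/GL/LSg.lean` with the imports of `DM/GL/LSS.lean` (`Pool.Agent.Lib.DT.GL.RR`, `.Lin`, `.Kap`, `.Arch`: `DT.GL.tRR DT.GL.tArch : DT.GL.C_RR`, `DT.GL.tLin`, `DT.GL.tKap`; `kap = DT.kap`, `zet 3`). PROOF. Un4 for `c ∈ D`: `LDn (u c) (s c)`, `GE (dv SH) (s c)`, `u c = uN f N m T c`, `s c = SN f N m T c`. `VP P (χ c)` (Chi (1)).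
First claim: `∑ χ c * s c = -SS`. Second: Lin for `χ`: `k, b, e` (`e i c : ℕ`). For `c ∈ D` the element `ρ c = χ c - ∑ i, e i c * χ (b i)` is in `Algebra.adjoin ℤ (Set.range χ)` and in `M_P`, so `TP P 3 (ρ c)` (RR). `w i = ∏_(c ∈ D) u c ^ e i c`: in `Mn n t f N`, a unit (S_G3 (1), (3)). For `g` with `DD (Mn n t f) P g` (this is `IsD n t f P g`; then `g (u c) = u c`, and `g (zet 3) = zet 3`: S_GM (last) for a
primitive root of order `3^1`): `kap (w i) g = 0` as in `DM/GL/LSS.lean` (the docstring of `DM.GL.S_LSS`). `DL.C_LDr` (4), (5) (structure from `gen0`, `VP P (vO ⊤ (z0 + d))`: Pi (1)): `LDn (w i) (Y i)`, `Y i = ∑_(c ∈ D) e i c * s c`; the last hypothesis: `GE q (Λ (Y i))`. `∑ χ c * s c = ∑ ρ c * s c + ∑ i, χ (b i) * Y i`; `Λ` of the first sum is `GE (1 + dv)` (`GE 1 (ρ c)`: `GE.tp_iff`; `GE.mul`; the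
third property of `Λ`), so `GE q`; `Λ (χ (b i) * Y i) = χ (b i) * Λ (Y i)`. So `GE q (Λ (-SS))`, `Λ (-x) = -Λ x`. -/
def S_LSg : Prop := DL.C_LDr → S_G3 → S_GM → C_Pi → C_Gen → C_Un4 → C_Chi → C_LSg

/-- **LSA.** The local step: from the Kummer characters to the sum `SS = ∑ χ(c) (fr(c)/fr(1)) ∑ h g(c, h z_N)`. -/
def C_LSA : Prop :=
  ∀ (n t : ℕ) [Ram3 n t] (P : Ideal ZZ), Ab3 P → ∀ (f N : ℕ) (m : Ideal (OO n t)) (χ : Ideal (OO n t) → Om)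
    (T : Finset (OO n t)) (D : Finset (Ideal (OO n t))) (z0 d : ℂ) (SH : Finset Om),
    FM f m → IsChi (3 * f) χ → 4 ≤ N → IsRep f N T → PtN n t f N z0 d →
    Orb z0 d (Hn (n := n) (t := t) f N) SH → (∀ c ∈ D, c ≠ ⊥ ∧ PrI c (3 * f)) →
    (∀ g : Gal(Om/ℚ), IsD n t f P g → MP P (∑ c ∈ D, χ c * ((kap (uN f N m T c) g).val : Om))) →
    GE P (dv n t P z0 d SH) (SS f N m χ T D) ∧
    ∀ τ ∈ P.inertia Gal(Om/ℚ), (∀ ζ : Om, ζ ^ 3 ^ N = 1 → τ ζ = ζ⁻¹) →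
      GE P (1 / 2 + dv n t P z0 d SH) (SS f N m χ T D - τ w4 / w4 * τ (SS f N m χ T D))

/-- (70 lines) **LSA** (from Tau, Dta, Res, Chi, LSg). Compare `DR/GL/LSA.lean`. PROOF. Let `τ` be as in the second claim (it exists: Tau (1); so the first claim comes from the second part). `τ ∉ GK` (Tau (2)), Dta: `r`; LSg with `Λ x = x + r * τ x` (an additive map; `τ (χ c) = χ c`: Chi (1); `GE.inertia`, `VP P r`), `q = 1 + dv` and Res: `GE dv S`, `GE (1 + dv) (S + r τ S)`, `S = SS ..`. `GE dv (τ S)`,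
`GE (1/2 + dv) ((r + τ w4 / w4) * τ S)`; `S - τ w4 / w4 * τ S = (S + r τ S) - (r + τ w4 / w4) * τ S`. -/
def S_LSA : Prop := C_Tau → C_Dta → C_Res → C_Chi → C_LSg → C_LSA

/-! ## The composition -/

/-- The inputs of this part (besides `GLIn`, `GLOut`). -/
structure GLInB : Prop where
  BC : S_BC
  Cv : S_Cv
  E11 : S_E11
  R2 : S_R2
  D9 : S_D9
  E9 : S_E9
  GM : S_GM
  G3 : S_G3
  Rou : DM.GL.C_Rou
  Cu : DM.GL.C_Cu

/-- The output of this file. -/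
structure GLOutB : Prop where
  Odq : C_Odq
  Tht : C_Tht
  Pnt : C_Pnt
  Mnf : C_Mnf
  Sub : C_Sub
  Tau : C_Tau
  Chi : C_Chi
  LSA : C_LSA

theorem asmGLB (l : DL.Out) (i : GLIn) (j : GLInB) (o : GLOut) (odq : S_Odq) (kud : S_Kud)
    (tru : S_Tru) (iso : S_Iso) (trh : S_Trh) (tht : S_Tht) (pnt : S_Pnt) (mnf : S_Mnf) (un4 : S_Un4)
    (sub : S_Sub) (situ : S_SitU) (tau : S_Tau) (dta : S_Dta) (res : S_Res)
    (chi : S_Chi) (lsg : S_LSg) (lsa : S_LSA) : GLOutB :=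
  have Odq := odq i.D2 o.In o.Act
  have Tru := tru i.XOm j.R2 l.Cn l.Der l.Kum o.In o.Act o.Pi o.Gen Odq (kud j.BC i.R1)
  have Trh := trh i.D2 l.Cn l.Der o.T0a o.In o.Act o.Pi o.Gen Odq Tru (iso i.XOm)
  have Tht := tht j.Cv i.D2 j.D9 l.Cn l.Der l.LDr o.In o.Act o.Pi o.Gen Odq Trh
  have Mnf := mnf i.O4 j.GM o.In o.Gen
  have Un4 := un4 l.Fix l.LDr i.O4 j.G3 o.Pi o.Sur o.Gen Mnf Tht
  have Sub := sub l.Fix l.LDr i.O4 i.D8 o.In o.Act o.Rep o.Pi o.Sur o.Gen Tht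
  have SitU := situ j.GM o.Act o.Sur Mnf
  have Tau := tau o.T0
  have Dta := dta l.Cn l.Der l.Cj j.E11 i.D2 o.T0a o.In o.Act o.Pi o.Gen Odq Trh
  have Res := res l.Cn l.Der l.LDr l.Fix l.Rt i.O4 j.E9 o.HD o.Pi o.Sur o.Gen Mnf j.Cu SitU
  have Chi := chi o.T0a j.Rou
  have LSg := lsg l.LDr j.G3 j.GM o.Pi o.Gen Un4 Chi
  { Odq := Odq
    Tht := Tht
    Pnt := pnt
    Mnf := Mnf
    Sub := Sub
    Tau := Tau
    Chi := Chi
    LSA := lsa Tau Dta Res Chi LSg }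

end Pool.Agent.DM.DU.GL
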