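import Pool.Agent.Lib.DU.GL.SpecB

/-!
# Theorem DU, part GL: the sums over the subgroup `Hs` (S_Sub) (helper9; edit of `DR/GL/Sub.lean`)
-/

set_option autoImplicit false

open scoped Pointwise

noncomputable section

namespace Pool.Agent.DM.DU.GL

open Pool.Agent.MuZ Pool.Agent.FW Pool.Agent.DN Pool.Agent.DM Pool.Agent.DM.DU
open Pool.Agent.DI (io ofC io_inj exists_io io_ofC ofC_io VP MP UP TP ex)
open Pool.Agent.DI.GL (Fx StP mem_of_Fx Fx.mul Fx.inv Fx.one)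
open Pool.Agent.DT (kap cbr)
open Pool.Agent.DM.GL (GE vP pl pH IsR Un Sit3)
open Pool.Agent.DL (vl Pl Fi Fp Cn Cf dl Gen Dr LD)

variable {n t : ℕ}

private theorem sub_pri [SqN n t] {f M : ℕ} {a : Ideal (OO n t)} (h : PrI a f) (hd : M ∣ f) :
    PrI a M := by
  obtain ⟨g, rfl⟩ := hd
  exact (((aO6 n t).2.1 M g a).1 h).1

private theorem sub_ne {h : OO n t} (hh : Cop h 3) : h ≠ 0 := by
  rintro rfl
  unfold Cop at hh
  rw [Nm_zero, isCoprime_zero_left, Int.isUnit_iff] at hh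
  omega

private theorem sub_cop {j m : ℕ} {v : OO n t} (h1 : Cop v j) (h2 : Cop v m) : Cop v (j * m) := by
  unfold Cop at *
  push_cast
  exact h1.mul_right h2

/-- Lifting modulo `f` and `3 ^ N`. -/
private theorem sub_lift {f : ℕ} (N : ℕ) (hf : f.Coprime 3) (u : OO n t) :
    ∃ u' : OO n t, ((3 ^ N : ℕ) : OO n t) ∣ u' - u ∧ (f : OO n t) ∣ u' - 1 ∧
      u - 1 ∣ u' - 1 := by
  have hcop : Nat.Coprime f (3 ^ N) := Nat.Coprime.pow_right N hf
  obtain ⟨x, y, h⟩ := Nat.isCoprime_iff_coprime.2 hcop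
  have h' : (x : OO n t) * (f : OO n t) + (y : OO n t) * ((3 ^ N : ℕ) : OO n t) = 1 := by
    have := congrArg (fun c : ℤ => (c : OO n t)) h
    push_cast at this ⊢
    exact this
  refine ⟨x * f * u + y * ((3 ^ N : ℕ) : OO n t), ?_, ?_, ?_⟩
  · exact ⟨y * (1 - u), by linear_combination u * h'⟩
  · exact ⟨x * (u - 1), by linear_combination h'⟩
  · exact ⟨x * f, by linear_combination h'⟩

/-- The Chinese remainder theorem. -/
private theorem sub_crt {f : ℕ} (N : ℕ) (hf : f.Coprime 3) {u : OO n t} (h1 : (f : OO n t) ∣ u)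
    (h2 : ((3 ^ N : ℕ) : OO n t) ∣ u) : ((f * 3 ^ N : ℕ) : OO n t) ∣ u := by
  have hcop : Nat.Coprime f (3 ^ N) := Nat.Coprime.pow_right N hf
  obtain ⟨x, y, h⟩ := Nat.isCoprime_iff_coprime.2 hcop
  have h' : (x : OO n t) * (f : OO n t) + (y : OO n t) * ((3 ^ N : ℕ) : OO n t) = 1 := by
    have := congrArg (fun c : ℤ => (c : OO n t)) h
    push_cast at this ⊢
    exact this
  obtain ⟨a, ha⟩ := h1
  obtain ⟨b, hb⟩ := h2
  refine ⟨x * b + y * a, ?_⟩
  rw [Nat.cast_mul]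
  linear_combination (-1 : OO n t) * u * h' + x * (f : OO n t) * hb +
    y * ((3 ^ N : ℕ) : OO n t) * ha

private theorem sub_perm {ι : Type*} [DecidableEq ι] (T : Finset ι) (F G : ι → Om) (φ : ι → ι)
    (h1 : ∀ i ∈ T, φ i ∈ T) (h2 : ∀ i ∈ T, ∀ j ∈ T, φ i = φ j → i = j)
    (h3 : ∀ i ∈ T, F i = G (φ i)) : ∏ i ∈ T, F i = ∏ i ∈ T, G i := by
  have h4 : T.image φ = T := Finset.eq_of_subset_of_card_le
    (fun j hj => by obtain ⟨i, hi, rfl⟩ := Finset.mem_image.1 hj; exact h1 i hi)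
    (by rw [Finset.card_image_of_injOn (fun i hi j hj h => h2 i hi j hj h)])
  calc ∏ i ∈ T, F i = ∏ i ∈ T, G (φ i) := Finset.prod_congr rfl h3
    _ = ∏ i ∈ T.image φ, G i := (Finset.prod_image (fun i hi j hj h => h2 i hi j hj h)).symm
    _ = ∏ i ∈ T, G i := by rw [h4]

private theorem sub_mul {f N : ℕ} {h h' : OO n t} (hh : Hs f N h) (hh' : Hs f N h') :
    Hs f N (h * h') := by
  obtain ⟨⟨a1, a2, a3⟩, a4⟩ := hh
  obtain ⟨⟨b1, b2, b3⟩, b4⟩ := hh'
  have e : h * h' - 1 = (h - 1) * h' + (h' - 1) := by ring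
  refine ⟨⟨?_, ?_, ?_⟩, ?_⟩
  · rw [e]
    exact dvd_add (a1.mul_right _) b1
  · rw [e]
    exact Ideal.add_mem _ (Ideal.mul_mem_right _ _ a2) b2
  · rw [Nm_mul]
    obtain ⟨a, ha⟩ := a3
    obtain ⟨b, hb⟩ := b3
    exact ⟨a * Nm h' + b, by linear_combination Nm h' * ha + hb⟩
  · rw [e]
    exact dvd_add (a4.mul_right _) b4

private theorem sub_hs {f f' N : ℕ} {h h' : OO n t} (hh : Hs f N h)
    (h1 : ((3 ^ N : ℕ) : OO n t) ∣ h' - h) (h2 : (f' : OO n t) ∣ h' - 1) (h3 : h - 1 ∣ h' - 1) :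
    Hs f' N h' := by
  obtain ⟨⟨a1, a2, a3⟩, a4⟩ := hh
  have e := Nm_congr h1
  push_cast at e
  refine ⟨⟨h2, ?_, ?_⟩, a4.trans h3⟩
  · obtain ⟨c, hc⟩ := h3
    rw [hc]
    exact Ideal.mul_mem_right _ _ a2
  · have := dvd_add e a3
    have e2 : Nm h' - Nm h + (Nm h - 1) = Nm h' - 1 := by ring
    rwa [e2] at this

/-- `w z` is not in `Lam b` for `w` prime to `f`. -/
private theorem sub_out [SqN n t] {f N : ℕ} {z0 d : ℂ} (hf0 : 0 < f) (hf : f.Coprime 3)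
    (hpri : ∀ a : Ideal (OO n t), a ≠ ⊥ → PrI a f → z0 ∉ Lam a)
    (hd : (3 : ℂ) ^ N * d ∈ Lam (⊤ : Ideal (OO n t))) {b : Ideal (OO n t)} (hb : b ≠ ⊥) (hbf : PrI b f)
    {w : OO n t} (hw : w ≠ 0) (hwf : Cop w f) : toC w * (z0 + d) ∉ Lam b := by
  intro hl
  have hc3 : Cop ((3 ^ N : ℕ) : OO n t) f := by
    unfold Cop
    rw [Nm_nat]
    have h1 : IsCoprime (f : ℤ) ((3 ^ N : ℕ) : ℤ) := Nat.isCoprime_iff_coprime.2 (Nat.Coprime.pow_right N hf)
    exact h1.symm.pow_left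
  have h3 : ((3 ^ N : ℕ) : OO n t) ≠ 0 := by
    intro h0
    have h1 := congrArg (fun u : OO n t => toC u) h0
    simp only [toC_nat, toC_zero] at h1
    have : ((3 ^ N : ℕ) : ℂ) ≠ 0 := by
      rw [Nat.cast_ne_zero]
      positivity
    exact this h1
  have hne : ((3 ^ N : ℕ) : OO n t) * w ≠ 0 := mul_ne_zero h3 hw
  have hsp : sp (((3 ^ N : ℕ) : OO n t) * w) ≠ ⊥ := fun h4 => hne (Ideal.span_singleton_eq_bot.1 h4)
  refine hpri (sp (((3 ^ N : ℕ) : OO n t) * w) * b) (mul_ne_zero hsp hb) ?_ ?_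
  · rw [(aO6 n t).1]
    exact ⟨((aO6 n t).2.2.2.1 f _ hf0).2 (cop_mul hc3 hwf), hbf⟩
  · rw [lam_sp]
    have e : toC (((3 ^ N : ℕ) : OO n t) * w) * z0 =
        ((3 ^ N : ℕ) : ℂ) * (toC w * (z0 + d)) - toC w * (3 ^ N * d) := by
      rw [toC_mul, toC_nat]
      push_cast
      ring
    rw [e]
    exact lam_sub (lam_nat _ hl) (lam_mul w (lam_anti le_top hd))

theorem tSub : S_Sub := by
  classical
  intro fix ldr o4 d8 _ act _ pi sur gen tht n t _ P hP f N m hm hN3 z0 d hp SH2 hSH T hT c v hc hv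
  have hPp : P.IsPrime := hP.1.1
  have h3 : Pl P 3 := pl hP
  have hpt : Pt n t f N z0 d := hp.toPt
  have hN := hpt.pos
  have hf0 : 0 < f := hm.pos
  have h30 : 30 ∣ 3 * f := by
    obtain ⟨g, hg⟩ := hm.dvd
    exact ⟨2 * g, by rw [hg]; ring⟩
  have hcf : PrI c f := sub_pri hc.prm (Dvd.intro_left _ rfl)
  have hG : G30 c := ⟨hc.ne, sub_pri hc.prm h30⟩
  have hmf : PrI m f := sub_pri hm.prm (Dvd.intro_left _ rfl)
  have hm3 : PrI m 3 := sub_pri hm.prm (Dvd.intro _ rfl)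
  have hm30 : PrI m 30 := sub_pri hm.prm h30
  have hNm : (NI m).Coprime 3 := ((aO6 n t).2.2.1 3 m (by norm_num)).1 hm3
  have hNm0 : 0 < NI m := by
    rcases Nat.eq_zero_or_pos (NI m) with h0 | h0
    · rw [h0] at hNm
      norm_num at hNm
    · exact h0
  have hM : Fok (f * NI m) := ⟨Nat.mul_pos hf0 hNm0, hm.dvd.mul_right _, Nat.Coprime.mul_left hm.cop hNm⟩
  have hfM : f ∣ f * NI m := Dvd.intro _ rfl
  have hfMO : (f : OO n t) ∣ ((f * NI m : ℕ) : OO n t) := by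
    rw [Nat.cast_mul]
    exact Dvd.intro _ rfl
  have hvf : Cop v f := cop_dvd hv (Dvd.intro_left _ rfl)
  have hv3 : Cop v 3 := cop_dvd hv (Dvd.intro _ rfl)
  have hz : z0 + d = 1 / ((f * 3 ^ N : ℕ) : ℂ) := by
    rw [hp.eq]
  have hfN : ((f * 3 ^ N : ℕ) : ℂ) ≠ 0 := by
    exact_mod_cast (Nat.mul_pos hf0 (pow_pos three_pos N)).ne'
  obtain ⟨S, -, hgen, hq0, hqd⟩ := gen0 gen hP hpt
  obtain ⟨hmem, -, hd0, hd1⟩ := genH gen hP hpt (C := Hs f N) (hs_un o4) (hs_one f N) hSH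
  obtain ⟨pi1, -, pi5, -⟩ := pi n t P hP f N z0 d hpt
  have hW : VP P (vO (⊤ : Ideal (OO n t)) (z0 + d)) := by
    have h4 := (pi1 1 (cop_one 3)).2.2.2.2.2.2.1
    rwa [toC_one, one_mul] at h4
  have hcopf : ∀ h : OO n t, (f : OO n t) ∣ h - 1 → Cop (h * v) f := by
    intro h a1
    refine cop_mul (cop_congr (a := 1) ?_ (cop_one f)) hvf
    rw [← neg_sub]
    exact (dvd_neg).2 a1
  -- the logarithmic derivative
  have hLD : LDn n t P N z0 d (∏ h ∈ T, Theta m c (toC (h * v) * (z0 + d)))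
      (∑ h ∈ T, -(toO (h * v) * rO (⊤ : Ideal (OO n t)) c *
        gO m c (toC (h * v) * (z0 + d)))) := by
    refine (ldr P 3 2 (II n t P) S _ hgen _ _ hq0 hqd hW).2.2.2.2.1 (OO n t) T _ _ ?_
    intro h hh
    have hhs := hT.mem h hh
    have hu := hs_un o4 h hhs
    have hcop : Cop (h * v) 3 := cop_mul hu.2 hv3
    have hcf' : Cop (h * v) f := hcopf h (hfMO.trans hu.1)
    have hne := sub_ne hcop
    have hsp : sp (h * v) ≠ ⊥ := fun h4 => hne (Ideal.span_singleton_eq_bot.1 h4)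
    have ha : m * (sp (h * v) * c) ≠ ⊥ := mul_ne_zero hm.ne (mul_ne_zero hsp hc.ne)
    have hpa : PrI (m * (sp (h * v) * c)) f := by
      rw [(aO6 n t).1, (aO6 n t).1]
      exact ⟨hmf, ((aO6 n t).2.2.2.1 f _ hf0).2 hcf', hcf⟩
    have hc30 : Cop (h * v) 30 := cop_dvd (sub_cop hcop hcf') h30
    exact tht n t P hP f N z0 d hpt m c (h * v) hm.ne hm30 hG hc30 (hp.pri _ ha hpa)
  -- the invariance
  have hinv : ∀ r ∈ SH2, ∃ σ ∈ II n t P, σ (pH z0 d (1 : OO n t)) = r ∧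
      σ (∏ h ∈ T, Theta m c (toC (h * v) * (z0 + d))) =
        ∏ h ∈ T, Theta m c (toC (h * v) * (z0 + d)) := by
    intro r hr
    obtain ⟨h, hh, rfl⟩ := (hSH r).1 hr
    obtain ⟨h', b1, b2, b3⟩ := sub_lift N hM.cop h
    have hh' : Hs (f * NI m) N h' := sub_hs hh b1 b2 b3
    have hu' := hs_un o4 h' hh'
    obtain ⟨σ, hσ⟩ := sur n t P hP (f * NI m) N hM hN h' b2 hu'.2
    refine ⟨σ, hσ.mem, ?_, ?_⟩
    · rw [(((gen n t P hP f N z0 d hpt).2.2.2 (f * NI m) hM hfM).1 h' σ hσ).1]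
      exact pi5 _ _ b1
    have hact : ∀ h1 ∈ T, σ (Theta m c (toC (h1 * v) * (z0 + d))) =
        Theta m c (toC (h' * h1 * v) * (z0 + d)) := by
      intro h1 hh1
      have hu1 := hs_un o4 h1 (hT.mem h1 hh1)
      have h4 := ((((act n t P hP (f * NI m) N h' σ hM hN hσ).2 c hG).2.2.2.2 m hm.ne hm30
        (Dvd.intro_left _ rfl) (toC (h1 * v) * (z0 + d)) ?_ ?_)).2
      · rw [h4, ← mul_assoc, ← toC_mul, mul_assoc h' h1 v]
      · have e : ((f * NI m * 3 ^ N : ℕ) : ℂ) * (toC (h1 * v) * (z0 + d)) =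
            toC ((NI m : OO n t) * (h1 * v)) := by
          rw [toC_mul (NI m : OO n t), toC_nat, hz, mul_one_div, mul_div_assoc', div_eq_iff hfN]
          push_cast
          ring
        rw [e]
        exact lam_anti le_top (lam_top.2 ⟨_, rfl⟩)
      · refine sub_out hf0 hm.cop hp.pri hpt.dd (mul_ne_zero hm.ne hc.ne) ?_
          (sub_ne (cop_mul hu1.2 hv3)) (hcopf h1 (hfMO.trans hu1.1))
        rw [(aO6 n t).1]
        exact ⟨hmf, hcf⟩
    have hex : ∀ h1 ∈ T, ∃ h3 ∈ T, ((3 ^ N : ℕ) : OO n t) ∣ h' * h1 - h3 := fun h1 hh1 =>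
      hT.ex _ (sub_mul hh' (hT.mem h1 hh1))
    choose! φ hφT hφ using hex
    rw [map_prod]
    refine sub_perm T _ _ φ hφT ?_ ?_
    · intro i hi j hj hij
      have h4 : ((3 ^ N : ℕ) : OO n t) ∣ h' * (i - j) := by
        have h5 := dvd_sub (hφ i hi) (hφ j hj)
        rw [hij] at h5
        have e : h' * i - φ j - (h' * j - φ j) = h' * (i - j) := by ring
        rwa [e] at h5
      have hc3N : Cop h' (3 ^ N) := by
        have h6 := hu'.2
        unfold Cop at h6 ⊢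
        push_cast at h6 ⊢
        exact h6.pow_right
      obtain ⟨w, -, hw⟩ := cop_inv hc3N
      refine hT.uni i hi j hj ?_
      have e : i - j = w * (h' * (i - j)) - (h' * w - 1) * (i - j) := by ring
      rw [e]
      exact dvd_sub (h4.mul_left _) (hw.mul_right _)
    · intro i hi
      rw [hact i hi]
      have hdvd : ((f * 3 ^ N : ℕ) : OO n t) ∣ h' * i - φ i := by
        refine sub_crt N hm.cop ?_ (hφ i hi)
        have a1 := hfMO.trans hh'.1.1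
        have a2 := hfMO.trans (hT.mem i hi).1.1
        have a3 := hfMO.trans (hT.mem _ (hφT i hi)).1.1
        have e : h' * i - φ i = (h' - 1) * i + (i - 1) - (φ i - 1) := by ring
        rw [e]
        exact dvd_sub (dvd_add (a1.mul_right _) a2) a3
      obtain ⟨w, hw⟩ := hdvd
      have hl : toC (w * v) ∈ Lam c := lam_anti le_top (lam_top.2 ⟨_, rfl⟩)
      have e : toC (h' * i * v) * (z0 + d) = toC (φ i * v) * (z0 + d) + toC (w * v) := by
        have e1 : h' * i * v = φ i * v + ((f * 3 ^ N : ℕ) : OO n t) * (w * v) := by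
          linear_combination v * hw
        rw [e1, toC_add, toC_mul ((f * 3 ^ N : ℕ) : OO n t), toC_nat, hz, add_mul, mul_one_div,
          mul_one_div, mul_div_cancel_left₀ _ hfN]
      rw [e]
      unfold Theta
      rw [((d8 n t m c hm.ne hc.ne hm30).2.1 _).2 _ hl]
  have hfix := fix P 3 2 (II n t P) S _ hgen _ (dv n t P z0 d SH2) _ SH2 hW hmem hd0 hd1 le_rfl _ _
    hLD.2.2.2 hinv
  have h5 := DL.GE.mul_left h3 (DI.UP.inv hLD.1).1 hfix
  rw [inv_mul_cancel_left₀ (DI.UP.ne_zero hLD.1), Finset.sum_neg_distrib] at h5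
  have h6 := DL.GE.neg h3 h5
  rw [neg_neg] at h6
  have e : ∑ h ∈ T, toO (h * v) * (rO (⊤ : Ideal (OO n t)) c *
      gO m c (toC (h * v) / (f * 3 ^ N : ℕ))) =
      ∑ h ∈ T, toO (h * v) * rO (⊤ : Ideal (OO n t)) c * gO m c (toC (h * v) * (z0 + d)) := by
    refine Finset.sum_congr rfl fun h _ => ?_
    rw [hz, mul_one_div, mul_assoc]
  rw [e]
  exact h6

end Pool.Agent.DM.DU.GL
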